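import Mathlib

set_option autoImplicit false
set_option linter.unusedSectionVars false

/-!
# Locally constant selections on compact totally disconnected spaces
-/

namespace Pool.Agent.Helper277_ZD

open Filter Topology

section sel

variable {X : Type} [TopologicalSpace X]

theorem lc_ev {α : Type*} {f : X → α} (hf : IsLocallyConstant f) (x : X) :
    ∀ᶠ y in 𝓝 x, f y = f x := IsLocallyConstant.iff_eventually_eq f |>.1 hf x

theorem lc_of_ev {α : Type*} {f : X → α} (hf : ∀ x, ∀ᶠ y in 𝓝 x, f y = f x) :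
    IsLocallyConstant f := IsLocallyConstant.iff_eventually_eq f |>.2 hf

theorem isOpen_of_ev {s : Set X} (h : ∀ x ∈ s, ∀ᶠ y in 𝓝 x, y ∈ s) : IsOpen s :=
  isOpen_iff_eventually.2 h

theorem select_aux {ι : Type} (t : List (Set X × ι)) (ht : ∀ c ∈ t, IsClopen c.1) :
    ∃ f : X → Option ι, IsLocallyConstant f ∧
      ∀ x, (∃ c ∈ t, x ∈ c.1) → ∃ c ∈ t, x ∈ c.1 ∧ f x = some c.2 := by
  classical
  induction t with
  | nil => exact ⟨fun _ => none, IsLocallyConstant.const _, fun x ⟨c, hc, _⟩ => by simp at hc⟩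
  | cons c t ih =>
    obtain ⟨f, hf, hfx⟩ := ih fun c hc => ht c (List.mem_cons_of_mem _ hc)
    refine ⟨fun x => if x ∈ c.1 then some c.2 else f x, lc_of_ev fun x => ?_, fun x hx => ?_⟩
    · have hc := ht c List.mem_cons_self
      by_cases hxc : x ∈ c.1
      · filter_upwards [hc.isOpen.mem_nhds hxc] with y hy
        simp [hy, hxc]
      · filter_upwards [hc.compl.isOpen.mem_nhds hxc, lc_ev hf x] with y hy hy'
        have : y ∉ c.1 := hy
        simp [this, hxc, hy']
    · by_cases hxc : x ∈ c.1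
      · exact ⟨c, List.mem_cons_self, hxc, by simp [hxc]⟩
      · obtain ⟨c', hc', hx'⟩ := hx
        rcases List.mem_cons.1 hc' with rfl | hc''
        · exact (hxc hx').elim
        · obtain ⟨d, hd, h1, h2⟩ := hfx x ⟨c', hc'', hx'⟩
          exact ⟨d, List.mem_cons_of_mem _ hd, h1, by simp [hxc, h2]⟩

variable [CompactSpace X] [T2Space X] [TotallyDisconnectedSpace X]

/-- Locally constant selection. -/
theorem lc_select {ι : Type} (R : X → ι → Prop) (h : ∀ x, ∃ i, R x i)
    (ho : ∀ i, IsOpen {x | R x i}) : ∃ f : X → ι, IsLocallyConstant f ∧ ∀ x, R x (f x) := by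
  classical
  rcases isEmpty_or_nonempty X with hX | ⟨⟨x₀⟩⟩
  · exact ⟨fun x => (hX.false x).elim, lc_of_ev fun x => (hX.false x).elim,
      fun x => (hX.false x).elim⟩
  obtain ⟨i₀, -⟩ := h x₀
  choose i hi using h
  have h1 : ∀ x : X, ∃ C : Set X, IsClopen C ∧ x ∈ C ∧ C ⊆ {y | R y (i x)} := fun x =>
    compact_exists_isClopen_in_isOpen (ho (i x)) (hi x)
  choose C hC hxC hCR using h1
  obtain ⟨t, -, ht⟩ := isCompact_univ.elim_nhds_subcover C fun x _ => (hC x).isOpen.mem_nhds (hxC x)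
  obtain ⟨f, hf, hfx⟩ := select_aux (t.toList.map fun x => (C x, i x)) (by
    intro c hc
    obtain ⟨x, -, rfl⟩ := List.mem_map.1 hc
    exact hC x)
  refine ⟨fun x => (f x).getD i₀, hf.comp fun o => o.getD i₀, fun x => ?_⟩
  obtain ⟨y, hy, hxy⟩ := Set.mem_iUnion₂.1 (ht (Set.mem_univ x))
  obtain ⟨c, hc, hxc, hfc⟩ := hfx x ⟨(C y, i y), List.mem_map.2 ⟨y, Finset.mem_toList.2 hy, rfl⟩, hxy⟩
  obtain ⟨z, -, rfl⟩ := List.mem_map.1 hc
  simp only [hfc, Option.getD_some]
  exact hCR z hxc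

end sel

section act

variable {G X : Type} [Group G] [TopologicalSpace X] [MulAction G X] [ContinuousConstSMul G X]

theorem ev_smul {α : Type*} {f : X → α} (hf : IsLocallyConstant f) (g : G) (x : X) :
    ∀ᶠ y in 𝓝 x, f (g • y) = f (g • x) :=
  (continuous_const_smul g).continuousAt.eventually (lc_ev hf (g • x))

theorem ev_smul_finset {α : Type*} {f : X → α} (hf : IsLocallyConstant f) (W : Finset G) (x : X) :
    ∀ᶠ y in 𝓝 x, ∀ g ∈ W, f (g • y) = f (g • x) := by
  rw [Filter.eventually_all_finset]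
  exact fun g _ => ev_smul hf g x

variable [CompactSpace X] [T2Space X]

theorem wander_nhd (hfree : ∀ (g : G) (x : X), g • x = x → g = 1) (H : Finset G)
    (hH1 : (1:G) ∉ H) (x : X) : ∃ N : Set X, IsOpen N ∧ x ∈ N ∧ ∀ g ∈ H, ∀ y ∈ N, g • y ∉ N := by
  classical
  have h2 : ∀ g : G, ∃ A B : Set X, IsOpen A ∧ IsOpen B ∧ x ∈ A ∧ g • x ∈ B ∧
      (g ∈ H → Disjoint A B) := by
    intro g
    by_cases hg : g ∈ H
    · have hne : x ≠ g • x := fun h => hH1 ((hfree g x h.symm) ▸ hg)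
      obtain ⟨A, B, hA, hB, hxA, hxB, hAB⟩ := t2_separation hne
      exact ⟨A, B, hA, hB, hxA, hxB, fun _ => hAB⟩
    · exact ⟨Set.univ, Set.univ, isOpen_univ, isOpen_univ, trivial, trivial,
        fun h => (hg h).elim⟩
  choose A B hA hB hxA hxB hAB using h2
  refine ⟨⋂ g ∈ H, (A g ∩ (fun y => g • y) ⁻¹' B g), ?_, ?_, ?_⟩
  · exact isOpen_biInter_finset fun g _ => (hA g).inter ((hB g).preimage (continuous_const_smul g))
  · simp only [Set.mem_iInter]
    exact fun g _ => ⟨hxA g, hxB g⟩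
  · intro g hg y hy hgy
    simp only [Set.mem_iInter] at hy hgy
    exact Set.disjoint_left.1 (hAB g hg) (hgy g hg).1 (hy g hg).2

variable [TotallyDisconnectedSpace X]

/-- A locally constant colouring separating `x` and `g • x` for `g` in a finite set. -/
theorem lc_colour (hfree : ∀ (g : G) (x : X), g • x = x → g = 1) (H : Finset G)
    (hH1 : (1:G) ∉ H) : ∃ χ : X → X, IsLocallyConstant χ ∧ ∀ g ∈ H, ∀ x, χ (g • x) ≠ χ x := by
  choose N hN hxN hNw using wander_nhd hfree H hH1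
  obtain ⟨f, hf, hfx⟩ := lc_select (fun x p => x ∈ N p) (fun x => ⟨x, hxN x⟩) (fun p => hN p)
  refine ⟨f, hf, fun g hg x heq => ?_⟩
  have h1 := hfx (g • x)
  rw [heq] at h1
  exact hNw (f x) g hg x (hfx x) h1

/-- Locally constant approximately invariant fields. -/
def LCField (G X : Type) [Group G] [TopologicalSpace X] [MulAction G X] : Prop :=
  ∀ (Q : Finset G) (ε : ℝ), 0 < ε → ∃ (F : Finset G) (N : X → G → ℝ), IsLocallyConstant N ∧
    (∀ x h, 0 ≤ N x h) ∧ (∀ x h, h ∉ F → N x h = 0) ∧ (∀ x, ∑ h ∈ F, N x h = 1) ∧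
    ∀ g ∈ Q, ∀ x, ∀ A : Finset G, ∑ h ∈ A, |N (g • x) (g * h) - N x h| ≤ ε

theorem lcField_of_amenable
    (ham : ∃ m : ℕ → X → G → ℝ,
      (∀ n x h, 0 ≤ m n x h) ∧
      (∀ n h, Continuous (fun x => m n x h)) ∧
      (∀ n, ∃ F : Finset G, (∀ x h, h ∉ F → m n x h = 0) ∧ ∀ x, ∑ h ∈ F, m n x h = 1) ∧
      ∀ g : G, ∀ ε : ℝ, 0 < ε → ∃ N : ℕ, ∀ n, N ≤ n → ∀ x : X,
        ∑' h : G, |m n (g • x) (g * h) - m n x h| < ε) : LCField G X := by
  classical
  intro Q ε hε
  obtain ⟨m, hm0, hmc, hmF, hminv⟩ := ham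
  have hchoose : ∀ g : G, ∃ N : ℕ, ∀ n, N ≤ n → ∀ x : X,
      ∑' h : G, |m n (g • x) (g * h) - m n x h| < ε / 2 := fun g => hminv g (ε / 2) (by positivity)
  choose Ng hNg using hchoose
  set n : ℕ := Q.sup Ng with hn
  obtain ⟨F, hF0, hF1⟩ := hmF n
  set δ : ℝ := ε / (4 * (F.card + 1)) with hδ
  have hδ0 : 0 < δ := by positivity
  obtain ⟨p, hp, hpx⟩ := lc_select (fun (x p : X) => ∀ h ∈ F, |m n x h - m n p h| < δ)
    (fun x => ⟨x, fun h _ => by simpa using hδ0⟩) (fun p => by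
      have : {x | ∀ h ∈ F, |m n x h - m n p h| < δ} =
          ⋂ h ∈ F, {x | |m n x h - m n p h| < δ} := by
        ext x; simp
      rw [this]
      exact isOpen_biInter_finset fun h _ =>
        isOpen_lt (((hmc n h).sub continuous_const).abs) continuous_const)
  have hcl : ∀ (x : X) (A : Finset G), ∑ h ∈ A, |m n (p x) h - m n x h| ≤ ε / 4 := by
    intro x A
    have h1 : ∑ h ∈ A, |m n (p x) h - m n x h| ≤ ∑ h ∈ F, |m n (p x) h - m n x h| := by
      have e1 : ∑ h ∈ A, |m n (p x) h - m n x h| = ∑ h ∈ A ∩ F, |m n (p x) h - m n x h| := by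
        refine (Finset.sum_subset Finset.inter_subset_left fun h hh hh' => ?_).symm
        have : h ∉ F := fun h' => hh' (Finset.mem_inter.2 ⟨hh, h'⟩)
        rw [hF0 _ _ this, hF0 _ _ this]; simp
      rw [e1]
      exact Finset.sum_le_sum_of_subset_of_nonneg Finset.inter_subset_right
        fun _ _ _ => abs_nonneg _
    have h2 : ∑ h ∈ F, |m n (p x) h - m n x h| ≤ ∑ h ∈ F, δ :=
      Finset.sum_le_sum fun h hh => by
        rw [abs_sub_comm]; exact (hpx x h hh).le
    rw [Finset.sum_const, nsmul_eq_mul] at h2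
    have h3 : (F.card : ℝ) * δ ≤ ε / 4 := by
      rw [hδ, mul_div_assoc', div_le_div_iff₀ (by positivity) (by norm_num)]
      nlinarith [hε, Nat.cast_nonneg (α := ℝ) F.card]
    linarith
  refine ⟨F, fun x => m n (p x), hp.comp (fun y => m n y), fun x h => hm0 n _ h,
    fun x h hh => hF0 _ h hh, fun x => hF1 _, fun g hg x A => ?_⟩
  have h1 : Ng g ≤ n := Finset.le_sup hg
  have h2 := (hNg g n h1 x).le
  have h3 : ∑ h ∈ A, |m n (g • x) (g * h) - m n x h| ≤ ε / 2 := by
    refine le_trans ?_ h2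
    refine Summable.sum_le_tsum A (fun _ _ => abs_nonneg _) ?_
    refine summable_of_hasFiniteSupport ?_
    refine Set.Finite.subset ((F.finite_toSet).union
      ((F.image fun h => g⁻¹ * h).finite_toSet)) fun h hh => ?_
    by_contra hcon
    rw [Set.mem_union, not_or] at hcon
    have e1 : h ∉ F := hcon.1
    have e2 : g * h ∉ F := fun h' => hcon.2 (by
      simp only [Finset.coe_image, Set.mem_image, Finset.mem_coe]
      exact ⟨g * h, h', by simp⟩)
    apply hh
    change |m n (g • x) (g * h) - m n x h| = 0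
    rw [hF0 _ _ e1, hF0 _ _ e2]; simp
  have h4 : ∀ h, |m n (p (g • x)) (g * h) - m n (p x) h| ≤
      |m n (p (g • x)) (g * h) - m n (g • x) (g * h)| + |m n (g • x) (g * h) - m n x h| +
        |m n (p x) h - m n x h| := by
    intro h
    have := abs_add_three (m n (p (g • x)) (g * h) - m n (g • x) (g * h))
      (m n (g • x) (g * h) - m n x h) (m n x h - m n (p x) h)
    rw [abs_sub_comm (m n x h) (m n (p x) h)] at this
    refine le_trans (le_of_eq ?_) this
    congr 1
    ring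
  have h5 := Finset.sum_le_sum fun h (_ : h ∈ A) => h4 h
  rw [Finset.sum_add_distrib, Finset.sum_add_distrib] at h5
  have h6 : ∑ h ∈ A, |m n (p (g • x)) (g * h) - m n (g • x) (g * h)| =
      ∑ h ∈ A.image (fun h => g * h), |m n (p (g • x)) h - m n (g • x) h| := by
    rw [Finset.sum_image]
    intro a _ b _ hab
    exact mul_left_cancel hab
  rw [h6] at h5
  have h7 := hcl (g • x) (A.image fun h => g * h)
  have h8 := hcl x A
  linarith

end act

end Pool.Agent.Helper277_ZD
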