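import Pool.Agent.Helper277_ZD.Vote

set_option autoImplicit false
set_option linter.unusedSectionVars false

/-!
# The calculus of subequivalence of clopen multisets
-/

namespace Pool.Agent.Helper277_ZD

open Filter Topology

variable {G X : Type} [Group G] [TopologicalSpace X] [MulAction G X] [ContinuousConstSMul G X]
  {I J L : Type}

theorem Le.trans [Finite I] {a : X → Set I} {b : X → Set J} {c : X → Set L} (h1 : Le G a b)
    (h2 : Le G b c) : Le G a c := by
  obtain ⟨φ, hφl, hφb, hφi⟩ := h1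
  obtain ⟨ψ, hψl, hψb, hψi⟩ := h2
  refine ⟨fun x i => ((ψ ((φ x i).1 • x) (φ x i).2).1 * (φ x i).1,
    (ψ ((φ x i).1 • x) (φ x i).2).2), lc_of_ev fun x => ?_, fun x i hi => ?_, ?_⟩
  · filter_upwards [lc_ev hφl x, Filter.eventually_all.2 fun i => ev_smul hψl (φ x i).1 x]
      with y hy1 hy2
    funext i
    rw [hy1, hy2 i]
  · beta_reduce
    rw [mul_smul]
    exact hψb _ _ (hφb x i hi)
  · intro x i hi x' i' hi' e1 e2
    beta_reduce at e1 e2
    rw [mul_smul, mul_smul] at e1
    obtain ⟨e3, e4⟩ := hψi _ _ (hφb x i hi) _ _ (hφb x' i' hi') e1 e2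
    exact hφi x i hi x' i' hi' e3 e4

theorem Le.of_inj {a : X → Set I} {b : X → Set J} (σ : I → J) (hσ : Function.Injective σ)
    (h : ∀ x, ∀ i ∈ a x, σ i ∈ b x) : Le G a b := by
  refine ⟨fun _ i => (1, σ i), IsLocallyConstant.const _, fun x i hi => ?_, ?_⟩
  · beta_reduce
    rw [one_smul]
    exact h x i hi
  · intro x i hi x' i' hi' e1 e2
    beta_reduce at e1 e2
    rw [one_smul, one_smul] at e1
    exact ⟨e1, hσ e2⟩

theorem Le.mul {a : X → Set I} {b : X → Set J} (K : Type) (h : Le G a b) :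
    Le G (mul K a) (mul K b) := by
  obtain ⟨φ, hφl, hφb, hφi⟩ := h
  refine ⟨fun x p => ((φ x p.1).1, ((φ x p.1).2, p.2)),
    hφl.comp fun (f : I → G × J) (p : I × K) => ((f p.1).1, ((f p.1).2, p.2)),
    fun x p hp => hφb x p.1 hp, ?_⟩
  intro x p hp x' p' hp' e1 e2
  simp only [Prod.mk.injEq] at e2
  obtain ⟨e3, e4⟩ := hφi x p.1 hp x' p'.1 hp' e1 e2.1
  exact ⟨e3, Prod.ext e4 e2.2⟩

theorem Le.of_card {K L : Type} [Finite K] [Finite L] (a : X → Set I)
    (h : Nat.card K ≤ Nat.card L) : Le G (Helper277_ZD.mul K a) (Helper277_ZD.mul L a) := by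
  have := Fintype.ofFinite K
  have := Fintype.ofFinite L
  rw [Nat.card_eq_fintype_card, Nat.card_eq_fintype_card] at h
  obtain ⟨f⟩ := Function.Embedding.nonempty_of_card_le h
  exact Le.of_inj (fun p => (p.1, f p.2)) (fun p q hpq => by
    simp only [Prod.mk.injEq] at hpq
    exact Prod.ext hpq.1 (f.injective hpq.2)) fun x p hp => hp

theorem Le.mul_mul {K L M : Type} [Finite K] [Finite L] [Finite M] (a : X → Set I)
    (h : Nat.card K ≤ Nat.card L * Nat.card M) :
    Le G (Helper277_ZD.mul K a) (Helper277_ZD.mul M (Helper277_ZD.mul L a)) := by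
  have := Fintype.ofFinite K
  have := Fintype.ofFinite L
  have := Fintype.ofFinite M
  rw [← Nat.card_prod, Nat.card_eq_fintype_card, Nat.card_eq_fintype_card] at h
  obtain ⟨f⟩ := Function.Embedding.nonempty_of_card_le h
  exact Le.of_inj (fun p => ((p.1, (f p.2).1), (f p.2).2)) (fun p q hpq => by
    simp only [Prod.mk.injEq] at hpq
    exact Prod.ext hpq.1.1 (f.injective (Prod.ext hpq.1.2 hpq.2))) fun x p hp => hp

theorem Le.mul_mul' {K L M : Type} [Finite K] [Finite L] [Finite M] (a : X → Set I)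
    (h : Nat.card L * Nat.card M ≤ Nat.card K) :
    Le G (Helper277_ZD.mul M (Helper277_ZD.mul L a)) (Helper277_ZD.mul K a) := by
  have := Fintype.ofFinite K
  have := Fintype.ofFinite L
  have := Fintype.ofFinite M
  rw [← Nat.card_prod, Nat.card_eq_fintype_card, Nat.card_eq_fintype_card] at h
  obtain ⟨f⟩ := Function.Embedding.nonempty_of_card_le h
  exact Le.of_inj (fun p => (p.1.1, f (p.1.2, p.2))) (fun p q hpq => by
    simp only [Prod.mk.injEq] at hpq
    have h2 := f.injective hpq.2
    simp only [Prod.mk.injEq] at h2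
    exact Prod.ext (Prod.ext hpq.1 h2.1) h2.2) fun x p hp => hp

/-- Sums of multisets. -/
def sum (a : X → Set I) (b : X → Set J) : X → Set (I ⊕ J) :=
  fun x => {s | Sum.elim (fun i => i ∈ a x) (fun j => j ∈ b x) s}

theorem Le.sum {I' J' : Type} {a : X → Set I} {b : X → Set J} {a' : X → Set I'} {b' : X → Set J'}
    (h : Le G a b) (h' : Le G a' b') : Le G (sum a a') (Helper277_ZD.sum b b') := by
  obtain ⟨φ, hφl, hφb, hφi⟩ := h
  obtain ⟨ψ, hψl, hψb, hψi⟩ := h'
  refine ⟨fun x s => Sum.elim (fun i => ((φ x i).1, Sum.inl (φ x i).2))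
    (fun i => ((ψ x i).1, Sum.inr (ψ x i).2)) s, (hφl.prodMk hψl).comp
      fun (p : (I → G × J) × (I' → G × J')) (s : I ⊕ I') =>
      Sum.elim (fun i => ((p.1 i).1, Sum.inl (p.1 i).2))
      (fun i => ((p.2 i).1, Sum.inr (p.2 i).2)) s, ?_, ?_⟩
  · rintro x (i | i) hi
    · exact hφb x i hi
    · exact hψb x i hi
  · rintro x (i | i) hi x' (i' | i') hi' e1 e2
    · simp only [Sum.elim_inl, Sum.inl.injEq] at e1 e2
      obtain ⟨e3, e4⟩ := hφi x i hi x' i' hi' e1 e2
      exact ⟨e3, by rw [e4]⟩
    · simp at e2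
    · simp at e2
    · simp only [Sum.elim_inr, Sum.inr.injEq] at e1 e2
      obtain ⟨e3, e4⟩ := hψi x i hi x' i' hi' e1 e2
      exact ⟨e3, by rw [e4]⟩

theorem lc_mul {K : Type} {a : X → Set I} (ha : IsLocallyConstant a) :
    IsLocallyConstant (mul K a) := ha.comp fun s => {p : I × K | p.1 ∈ s}

theorem Le.add_one {d : ℕ} {a : X → Set I} [Finite I]
    (h : Le G (Helper277_ZD.mul (Fin (d + 1)) a) (Helper277_ZD.mul (Fin d) a)) (n : ℕ) :
    Le G (Helper277_ZD.mul (Fin (d + n)) a) (Helper277_ZD.mul (Fin d) a) := by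
  induction n with
  | zero => exact Le.of_card a (by simp)
  | succ n ih =>
    refine Le.trans ?_ ih
    have h1 : Le G (Helper277_ZD.mul (Fin (d + (n + 1))) a)
        (Helper277_ZD.sum (Helper277_ZD.mul (Fin (d + 1)) a) (Helper277_ZD.mul (Fin n) a)) := by
      let f : Fin (d + (n + 1)) → Fin (d + 1) ⊕ Fin n := fun i =>
        if h : i.1 < d + 1 then Sum.inl ⟨i.1, h⟩ else Sum.inr ⟨i.1 - (d + 1), by omega⟩
      have hf : Function.Injective f := by
        intro i j hij
        simp only [f] at hij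
        split_ifs at hij with h1 h2 h2
        · simpa [Fin.ext_iff] using hij
        · simp only [Sum.inr.injEq, Fin.mk.injEq] at hij
          ext
          omega
      refine Le.of_inj (fun p => Sum.elim (fun k => Sum.inl (p.1, k)) (fun k => Sum.inr (p.1, k))
        (f p.2)) ?_ ?_
      · intro p q hpq
        rcases hp : f p.2 with k | k <;> rcases hq : f q.2 with k' | k' <;>
          simp only [hp, hq, Sum.elim_inl, Sum.elim_inr, Sum.inl.injEq, Sum.inr.injEq,
            Prod.mk.injEq, reduceCtorEq] at hpq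
        · exact Prod.ext hpq.1 (hf (by rw [hp, hq, hpq.2]))
        · exact Prod.ext hpq.1 (hf (by rw [hp, hq, hpq.2]))
      · intro x p hp
        rcases hp' : f p.2 with k | k <;> simp only [Sum.elim_inl, Sum.elim_inr] <;> exact hp
    have h2 : Le G (Helper277_ZD.sum (Helper277_ZD.mul (Fin d) a) (Helper277_ZD.mul (Fin n) a))
        (Helper277_ZD.mul (Fin (d + n)) a) := by
      refine Le.of_inj (Sum.elim (fun p => (p.1, Fin.castAdd n p.2))
        (fun p => (p.1, Fin.natAdd d p.2))) ?_ ?_
      · rintro (p | p) (q | q) hpq <;> simp only [Sum.elim_inl, Sum.elim_inr, Prod.mk.injEq] at hpq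
        · have := Fin.castAdd_injective _ _ hpq.2
          rw [Prod.ext hpq.1 this]
        · exfalso
          have := congrArg Fin.val hpq.2
          simp only [Fin.val_castAdd, Fin.val_natAdd] at this
          omega
        · exfalso
          have := congrArg Fin.val hpq.2
          simp only [Fin.val_castAdd, Fin.val_natAdd] at this
          omega
        · have := Fin.natAdd_injective _ _ hpq.2
          rw [Prod.ext hpq.1 this]
      · rintro x (p | p) hp <;> exact hp
    exact (h1.trans (Le.sum h (Le.of_inj id Function.injective_id fun _ _ h => h))).trans h2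

theorem pow_cancel [CompactSpace X] [T2Space X] [TotallyDisconnectedSpace X] [Finite I]
    (hfree : ∀ (g : G) (x : X), g • x = x → g = 1) (hN : LCField G X)
    {a : X → Set I} {b : X → Set J} (ha : IsLocallyConstant a) (s : ℕ)
    (h : Le G (mul (Fin (3 ^ s)) a) (mul (Fin (2 ^ s)) b)) : Le G a b := by
  induction s with
  | zero =>
    have h1 : Le G a (mul (Fin (3 ^ 0)) a) :=
      Le.of_inj (fun i => (i, ⟨0, by simp⟩)) (fun i j hij => (Prod.ext_iff.1 hij).1)
        fun x i hi => hi
    have h2 : Le G (mul (Fin (2 ^ 0)) b) b :=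
      Le.of_inj (fun p => p.1) (fun p q hpq => by
        refine Prod.ext hpq ?_
        have hp := p.2.2
        have hq := q.2.2
        simp only [pow_zero] at hp hq
        ext
        omega) fun x p hp => hp
    exact (h1.trans h).trans h2
  | succ s ih =>
    refine ih (three_two hfree hN (lc_mul ha) ?_)
    have h1 : Le G (mul (Fin 3) (mul (Fin (3 ^ s)) a)) (mul (Fin (3 ^ (s + 1))) a) :=
      Le.mul_mul' a (by simp [pow_succ])
    have h2 : Le G (mul (Fin (2 ^ (s + 1))) b) (mul (Fin 2) (mul (Fin (2 ^ s)) b)) :=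
      Le.mul_mul b (by simp [pow_succ])
    exact (h1.trans h).trans h2

end Pool.Agent.Helper277_ZD
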