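import Pool.Agent.Helper277_ZD.TheoremZ

set_option autoImplicit false
set_option linter.unusedSectionVars false

/-!
# Comparison: finite groups, null points, and the totally disconnected case
-/

namespace Pool.Agent.Helper277_ZD

open Filter Topology MeasureTheory

section gen

variable {G X : Type} [Group G] [TopologicalSpace X] [MulAction G X] [ContinuousConstSMul G X]
  [CompactSpace X] [TopologicalSpace.MetrizableSpace X] [MeasurableSpace X] [BorelSpace X]

/-- The conclusion of comparison. -/
def Cmp (G : Type) {X : Type} [Group G] [TopologicalSpace X] [MulAction G X] (K V : Set X) : Prop :=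
  ∃ (n : ℕ) (W : Fin n → Set X) (t : Fin n → G),
    (∀ i, IsOpen (W i)) ∧ K ⊆ ⋃ i, W i ∧
    (∀ i, (fun x => t i • x) '' W i ⊆ V) ∧
    Pairwise (fun i j => Disjoint ((fun x => t i • x) '' W i) ((fun x => t j • x) '' W j))

/-- Points are null for infinite groups acting freely. -/
theorem null_point [Infinite G] [Countable G] (hfree : ∀ (g : G) (x : X), g • x = x → g = 1)
    (μ : Measure X) [IsProbabilityMeasure μ]
    (hμ : ∀ (g : G) (s : Set X), MeasurableSet s → μ ((fun x => g • x) ⁻¹' s) = μ s) (x : X) :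
    μ {x} = 0 := by
  by_contra hne
  have hpos : 0 < μ {x} := pos_iff_ne_zero.2 hne
  have h1 := Measure.finite_const_le_meas_of_disjoint_iUnion μ hpos
    (As := fun g : G => ({g • x} : Set X)) (fun g => MeasurableSet.singleton _)
    (by
      intro g h hgh
      simp only [Function.onFun]
      rw [Set.disjoint_singleton]
      intro heq
      exact hgh (smul_eq_of hfree heq)) (measure_ne_top _ _)
  have h2 : {g : G | μ {x} ≤ μ ({g • x} : Set X)} = Set.univ := by
    rw [Set.eq_univ_iff_forall]
    intro g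
    have h3 : (fun y : X => g • y) ⁻¹' {g • x} = {x} := by
      ext y
      simp
    have h4 := hμ g {g • x} (MeasurableSet.singleton _)
    rw [h3] at h4
    exact h4.le
  rw [h2] at h1
  exact Set.infinite_univ h1

/-- Open sets of an infinite minimal free system are not singletons. -/
theorem exists_ne_mem [Infinite G] (hfree : ∀ (g : G) (x : X), g • x = x → g = 1)
    (hmin : MulAction.IsMinimal G X) {V : Set X} (hV : IsOpen V) {x₀ : X} (hx₀ : x₀ ∈ V) :
    (V \ {x₀}).Nonempty := by
  by_contra hcon
  rw [Set.not_nonempty_iff_eq_empty, Set.sdiff_eq_empty] at hcon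
  have hVx : V = {x₀} := Set.Subset.antisymm hcon (Set.singleton_subset_iff.2 hx₀)
  have h1 : ∀ x : X, ∃ g : G, g • x ∈ V := fun x => hV.exists_smul_mem G x ⟨x₀, hx₀⟩
  have hcov : (Set.univ : Set X) ⊆ ⋃ g : G, (fun x => g • x) ⁻¹' V := by
    intro x _
    obtain ⟨g, hg⟩ := h1 x
    exact Set.mem_iUnion.2 ⟨g, hg⟩
  obtain ⟨t, ht⟩ := isCompact_univ.elim_finite_subcover _
    (fun g : G => hV.preimage (continuous_const_smul g)) hcov
  have hfin : (Set.univ : Set X).Finite := by
    refine (t.finite_toSet.biUnion (t := fun g => {g⁻¹ • x₀}) fun g _ =>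
      Set.finite_singleton _).subset ?_
    intro x hx
    obtain ⟨g, hg, hxg⟩ := Set.mem_iUnion₂.1 (ht hx)
    refine Set.mem_iUnion₂.2 ⟨g, hg, ?_⟩
    have h2 : g • x = x₀ := by
      have : g • x ∈ V := hxg
      rw [hVx] at this
      exact this
    rw [Set.mem_singleton_iff, ← h2, inv_smul_smul]
  have : Infinite X := Infinite.of_injective (fun g : G => g • x₀)
    fun g h hgh => smul_eq_of hfree hgh
  exact Set.infinite_univ hfin

/-- The case of finite groups. -/
theorem finite_group [Finite G] (hfree : ∀ (g : G) (x : X), g • x = x → g = 1)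
    (hmin : MulAction.IsMinimal G X) {U V : Set X} (hU : IsOpen U) (hV : IsOpen V)
    (hUne : U.Nonempty)
    (hμ : ∀ μ : Measure X, IsProbabilityMeasure μ →
      (∀ (g : G) (s : Set X), MeasurableSet s → μ ((fun x => g • x) ⁻¹' s) = μ s) → μ U < μ V)
    {K : Set X} (hKU : K ⊆ U) : Cmp G K V := by
  classical
  have := Fintype.ofFinite G
  obtain ⟨x₀, hx₀⟩ := hUne
  have horb : ∀ x : X, ∃ g : G, g • x₀ = x := by
    intro x
    have h1 : Dense (MulAction.orbit G x₀) := MulAction.dense_orbit G x₀
    have h2 : IsClosed (MulAction.orbit G x₀) := (Set.finite_range _).isClosed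
    have h3 : x ∈ MulAction.orbit G x₀ := by
      rw [← h2.closure_eq, h1.closure_eq]; trivial
    exact h3
  have hfinX : Finite X := Finite.of_surjective (fun g : G => g • x₀) horb
  have : DiscreteTopology X := inferInstance
  have hpr := emp_prob (G := G) (X := X) (Φ := Finset.univ) Finset.univ_nonempty x₀
  have hμ1 := hμ (emp (Finset.univ : Finset G) x₀) hpr (by
    intro g s hs
    have hs' : MeasurableSet ((fun x : X => g • x) ⁻¹' s) :=
      (continuous_const_smul g).measurable hs
    rw [emp_apply _ _ hs', emp_apply _ _ hs]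
    congr 2
    refine Finset.card_bij (fun y _ => g * y) ?_ ?_ ?_
    · intro y hy
      refine Finset.mem_filter.2 ⟨Finset.mem_univ _, ?_⟩
      rw [mul_smul]
      exact (Finset.mem_filter.1 hy).2
    · intro y _ y' _ heq
      exact mul_left_cancel heq
    · intro y hy
      refine ⟨g⁻¹ * y, Finset.mem_filter.2 ⟨Finset.mem_univ _, ?_⟩, by simp⟩
      change g • (g⁻¹ * y) • x₀ ∈ s
      rw [mul_smul, smul_inv_smul]
      exact (Finset.mem_filter.1 hy).2)
  rw [emp_apply _ _ hU.measurableSet, emp_apply _ _ hV.measurableSet] at hμ1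
  set P : Finset G := Finset.univ.filter fun y => y • x₀ ∈ U with hP
  set R : Finset G := Finset.univ.filter fun y => y • x₀ ∈ V with hR
  have hcard : P.card ≤ R.card := by
    by_contra hcon
    push Not at hcon
    refine absurd hμ1 (not_lt.2 ?_)
    gcongr
  obtain ⟨f⟩ := Function.Embedding.nonempty_of_card_le (α := P) (β := R) (by simpa using hcard)
  set e := Fintype.equivFin P with he
  refine ⟨_, fun i => {((e.symm i : P) : G) • x₀}, fun i => (f (e.symm i) : G) *
    ((e.symm i : P) : G)⁻¹, fun i => isOpen_discrete _, ?_, ?_, ?_⟩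
  · intro x hx
    obtain ⟨g, rfl⟩ := horb x
    have hg : g ∈ P := Finset.mem_filter.2 ⟨Finset.mem_univ _, hKU hx⟩
    exact Set.mem_iUnion.2 ⟨e ⟨g, hg⟩, by simp⟩
  · rintro i _ ⟨x, hx, rfl⟩
    rw [Set.mem_singleton_iff] at hx
    subst hx
    beta_reduce
    rw [mul_smul, inv_smul_smul]
    exact (Finset.mem_filter.1 (f (e.symm i)).2).2
  · intro i j hij
    simp only
    rw [Set.disjoint_left]
    rintro _ ⟨x, hx, rfl⟩ ⟨y, hy, hxy⟩
    rw [Set.mem_singleton_iff] at hx hy
    subst hx hy
    beta_reduce at hxy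
    rw [mul_smul, inv_smul_smul, mul_smul, inv_smul_smul] at hxy
    have h1 := smul_eq_of hfree hxy
    exact hij (e.symm.injective (f.injective (Subtype.ext h1))).symm

end gen

section td

variable {G X : Type} [Group G] [TopologicalSpace X] [MulAction G X] [ContinuousConstSMul G X]
  [CompactSpace X] [TopologicalSpace.MetrizableSpace X] [TotallyDisconnectedSpace X]
  [MeasurableSpace X] [BorelSpace X]

theorem totally_disconnected [Countable G] (hfree : ∀ (g : G) (x : X), g • x = x → g = 1)
    (hmin : MulAction.IsMinimal G X) (hN : LCField G X) {U V : Set X} (hU : IsOpen U)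
    (hV : IsOpen V) (hUne : U.Nonempty) (hVne : V.Nonempty)
    (hμ : ∀ μ : Measure X, IsProbabilityMeasure μ →
      (∀ (g : G) (s : Set X), MeasurableSet s → μ ((fun x => g • x) ⁻¹' s) = μ s) → μ U < μ V)
    {K : Set X} (hK : IsCompact K) (hKU : K ⊆ U) : Cmp G K V := by
  rcases finite_or_infinite G with hG | hG
  · exact finite_group hfree hmin hU hV hUne hμ hKU
  obtain ⟨x₀, hx₀⟩ := hVne
  obtain ⟨A, B, hA, hB, hKA, hBV, hle⟩ := zero_dim_comparison hfree hN hK.isClosed hV
    (isClosed_singleton (x := x₀)) (Set.singleton_subset_iff.2 hx₀)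
    (fun B hB hx x => hB.isOpen.exists_smul_mem G x ⟨x₀, hx rfl⟩)
    (fun x => (hV.sdiff isClosed_singleton).exists_smul_mem G x (exists_ne_mem hfree hmin hV hx₀))
    (fun μ hμp hμi => by
      have h1 := null_point hfree μ hμi x₀
      have h2 : μ (V \ {x₀}) = μ V := measure_sdiff_null h1
      rw [h2]
      exact (measure_mono hKU).trans_lt (hμ μ hμp hμi))
  obtain ⟨p, W, t, h1, h2, h3, h4⟩ := comparison_of_le hA hle
  exact ⟨p, W, t, h1, hKA.trans h2, fun i => (h3 i).trans hBV, h4⟩

end td

end Pool.Agent.Helper277_ZD
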