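import Pool.Agent.Helper277_ZD.Power

set_option autoImplicit false
set_option linter.unusedSectionVars false

/-!
# Violating the orbitwise Hall condition produces Folner sets
-/

namespace Pool.Agent.Helper277_ZD

open scoped Pointwise

variable {G X : Type} [Group G] [MulAction G X]

open Classical in
theorem folner_of_fail {A B : Set X} (D : Finset G) (hD : ∀ x : X, ∃ d ∈ D, d • x ∈ B)
    (hfail : ∀ (T : Finset G) (q : ℕ), 0 < q → ∃ z : X, ∃ E : Finset G, (∀ h ∈ E, h • z ∈ A) ∧
      q * {y : G | (∃ t ∈ T, ∃ h ∈ E, y = t * h) ∧ y • z ∈ B}.ncard < (q + 1) * E.card)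
    (S : Finset G) (hS : (1:G) ∈ S) (ε : ℝ) (hε : 0 < ε) (q : ℕ) (hq : 0 < q) :
    ∃ z : X, ∃ Φ : Finset G, Φ.Nonempty ∧ ((S * Φ).card : ℝ) ≤ (1 + ε) * Φ.card ∧
      q * (Φ.filter fun y => y • z ∈ B).card ≤ (q + 1) * (Φ.filter fun y => y • z ∈ A).card := by
  set S' : Finset G := S ∪ D with hS'
  have h1S' : (1:G) ∈ S' := Finset.mem_union_left _ hS
  obtain ⟨J, hJ⟩ := pow_unbounded_of_one_lt (2 * (D.card : ℝ)) (show 1 < 1 + ε by linarith)
  obtain ⟨z, E, hEA, hE⟩ := hfail (S' ^ (J + 1)) q hq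
  have hEne : 0 < E.card := by
    by_contra hcon
    have : E.card = 0 := by omega
    rw [this] at hE
    simp at hE
  have hBT : ∀ Φ ⊆ S' ^ (J + 1) * E, q * (Φ.filter fun y => y • z ∈ B).card <
      (q + 1) * E.card := by
    intro Φ hΦ
    refine lt_of_le_of_lt (Nat.mul_le_mul_left q ?_) hE
    rw [← Set.ncard_coe_finset]
    refine Set.ncard_le_ncard ?_ ?_
    · intro y hy
      rw [Finset.mem_coe, Finset.mem_filter] at hy
      obtain ⟨t, ht, h, hh, rfl⟩ := Finset.mem_mul.1 (hΦ hy.1)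
      exact ⟨⟨t, ht, h, hh, rfl⟩, hy.2⟩
    · refine (S' ^ (J + 1) * E).finite_toSet.subset ?_
      rintro y ⟨⟨t, ht, h, hh, rfl⟩, -⟩
      exact Finset.mem_coe.2 (Finset.mul_mem_mul ht hh)
  have hmono : ∀ i j : ℕ, i ≤ j → S' ^ i ⊆ S' ^ j := fun i j hij =>
    Finset.pow_subset_pow_right h1S' hij
  have hsz : ∀ j ≤ J, ((S' ^ j * E).card : ℝ) ≤ 2 * D.card * E.card := by
    intro j hj
    have h1 : ∀ h : G, ∃ d ∈ D, (d * h) • z ∈ B := fun h => by
      obtain ⟨d, hd, hd'⟩ := hD (h • z)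
      exact ⟨d, hd, by rw [mul_smul]; exact hd'⟩
    choose d hdD hdB using h1
    have h2 : (S' ^ j * E).card ≤ (D ×ˢ ((S' ^ (J + 1) * E).filter fun y => y • z ∈ B)).card := by
      refine Finset.card_le_card_of_injOn (fun h => (d h, d h * h)) ?_ ?_
      · intro h hh
        refine Finset.mem_coe.2 (Finset.mem_product.2 ⟨hdD h, Finset.mem_filter.2 ⟨?_, hdB h⟩⟩)
        obtain ⟨t, ht, g, hg, rfl⟩ := Finset.mem_mul.1 (Finset.mem_coe.1 hh)
        change d (t * g) * (t * g) ∈ _
        rw [← mul_assoc]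
        refine Finset.mul_mem_mul (hmono (j + 1) (J + 1) (by omega) ?_) hg
        rw [pow_succ']
        exact Finset.mul_mem_mul (Finset.mem_union_right _ (hdD _)) ht
      · intro h _ h' _ heq
        simp only [Prod.mk.injEq] at heq
        obtain ⟨e1, e2⟩ := heq
        rw [e1] at e2
        exact mul_left_cancel e2
    rw [Finset.card_product] at h2
    have h3 := hBT _ (Finset.Subset.refl (S' ^ (J + 1) * E))
    have h4 : ((S' ^ (J + 1) * E).filter fun y => y • z ∈ B).card ≤ 2 * E.card := by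
      by_contra hcon
      push Not at hcon
      have h5 : q * (2 * E.card) ≤ q * ((S' ^ (J + 1) * E).filter fun y => y • z ∈ B).card :=
        Nat.mul_le_mul_left q hcon.le
      nlinarith
    have h5 : (S' ^ j * E).card ≤ D.card * (2 * E.card) :=
      h2.trans (Nat.mul_le_mul_left _ h4)
    have h6 : ((S' ^ j * E).card : ℝ) ≤ D.card * (2 * E.card) := by exact_mod_cast h5
    linarith
  have hex : ∃ j < J, ((S' ^ (j + 1) * E).card : ℝ) ≤ (1 + ε) * (S' ^ j * E).card := by
    by_contra hcon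
    push Not at hcon
    have h1 : ∀ j ≤ J, (1 + ε) ^ j * (E.card : ℝ) ≤ (S' ^ j * E).card := by
      intro j
      induction j with
      | zero => intro _; simp
      | succ j ih =>
        intro hj
        have h2 := ih (by omega)
        have h3 := hcon j (by omega)
        rw [pow_succ]
        nlinarith
    have h2 := h1 J le_rfl
    have h3 := hsz J le_rfl
    have h4 : (0:ℝ) < E.card := by exact_mod_cast hEne
    nlinarith
  obtain ⟨j, hj, hjle⟩ := hex
  set Φ : Finset G := S' ^ j * E with hΦ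
  have hEΦ : E ⊆ Φ := by
    intro h hh
    have : (1:G) * h ∈ Φ := Finset.mul_mem_mul (hmono 0 j (Nat.zero_le _) (by simp)) hh
    rwa [one_mul] at this
  refine ⟨z, Φ, (Finset.card_pos.1 hEne).mono hEΦ, ?_, ?_⟩
  · refine le_trans ?_ hjle
    have : S * Φ ⊆ S' ^ (j + 1) * E := by
      rw [pow_succ', mul_assoc]
      exact Finset.mul_subset_mul_right Finset.subset_union_left
    exact_mod_cast Finset.card_le_card this
  · have h1 := hBT Φ (Finset.mul_subset_mul_right (hmono j (J + 1) (by omega)))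
    have h2 : E.card ≤ (Φ.filter fun y => y • z ∈ A).card :=
      Finset.card_le_card fun h hh => Finset.mem_filter.2 ⟨hEΦ hh, hEA h hh⟩
    exact h1.le.trans (Nat.mul_le_mul_left _ h2)

end Pool.Agent.Helper277_ZD
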