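import Pool.Agent.Helper277_ZD.Calc

set_option autoImplicit false
set_option linter.unusedSectionVars false

/-!
# From orbitwise Hall conditions to multiples: voting and rounding
-/

namespace Pool.Agent.Helper277_ZD

open Filter Topology

variable {G X : Type} [Group G] [TopologicalSpace X] [MulAction G X] [ContinuousConstSMul G X]
  [CompactSpace X] [T2Space X] [TotallyDisconnectedSpace X]

/-- The multiset of a set. -/
def ind (A : Set X) : X → Set Unit := fun x => {_u | x ∈ A}

theorem lc_ind {A : Set X} (hA : IsClopen A) : IsLocallyConstant (ind A) :=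
  lc_of_ev fun x => by
    by_cases hx : x ∈ A
    · filter_upwards [hA.isOpen.mem_nhds hx] with y hy
      ext; simp [ind, hx, hy]
    · filter_upwards [hA.compl.isOpen.mem_nhds hx] with y hy
      have : y ∉ A := hy
      ext; simp [ind, hx, this]

theorem lc_mem {A : Set X} (hA : IsClopen A) : IsLocallyConstant (fun x => x ∈ A) :=
  lc_of_ev fun x => by
    by_cases hx : x ∈ A
    · filter_upwards [hA.isOpen.mem_nhds hx] with y hy
      simp [hx, hy]
    · filter_upwards [hA.compl.isOpen.mem_nhds hx] with y hy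
      have : y ∉ A := hy
      simp [hx, this]

/-- Integral flows give subequivalences of multiples. -/
theorem le_of_flow {A B : Set X} (hA : IsClopen A) (T : Finset G) (n : X → G → ℕ)
    (hn : IsLocallyConstant n) (d1 d2 : ℕ) (hd2 : 0 < d2)
    (h1 : ∀ x ∈ A, d1 ≤ ∑ t ∈ T, n x t)
    (h2 : ∀ y, ∑ t ∈ T, n (t⁻¹ • y) t ≤ d2)
    (h3 : ∀ x ∈ A, ∀ t ∈ T, n x t ≠ 0 → t • x ∈ B) :
    Le G (mul (Fin d1) (ind A)) (mul (Fin d2) (ind B)) := by
  classical
  have hAl := lc_mem hA
  obtain ⟨ι, hιl, hι⟩ := lc_select (X := X) (ι := Fin d1 → G × ℕ)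
    (fun x f => x ∈ A → Function.Injective f ∧ ∀ i, (f i).1 ∈ T ∧ (f i).2 < n x (f i).1)
    (fun x => by
      by_cases hx : x ∈ A
      · have e1 : Fintype.card (Fin d1) ≤ Fintype.card (T.sigma fun t => Finset.range (n x t)) := by
          rw [Fintype.card_fin, Fintype.card_coe, Finset.card_sigma]
          simpa using h1 x hx
        obtain ⟨f⟩ := Function.Embedding.nonempty_of_card_le e1
        refine ⟨fun i => ((f i).1.1, (f i).1.2), fun _ => ⟨fun i j hij => ?_, fun i => ?_⟩⟩
        · simp only [Prod.mk.injEq] at hij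
          apply f.injective
          apply Subtype.ext
          exact Sigma.ext hij.1 (heq_of_eq hij.2)
        · have := Finset.mem_sigma.1 (f i).2
          exact ⟨this.1, Finset.mem_range.1 this.2⟩
      · exact ⟨fun _ => (1, 0), fun h => (hx h).elim⟩)
    (fun f => isOpen_of_ev fun x hx => by
      filter_upwards [lc_ev hAl x, lc_ev hn x] with y hy1 hy2
      simp only [Set.mem_ofPred_eq] at hx ⊢
      intro hy
      rw [hy2]
      exact hx (by rw [← hy1]; exact hy))
  have hinv : ∀ x, ∀ᶠ y in 𝓝 x, ∀ t ∈ T, n (t⁻¹ • y) = n (t⁻¹ • x) := fun x =>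
    (Filter.eventually_all_finset T).2 fun t _ => ev_smul hn _ x
  obtain ⟨τ, hτl, hτ⟩ := lc_select (X := X) (ι := G × ℕ → Fin d2)
    (fun y f => ∀ p : G × ℕ, p.1 ∈ T → p.2 < n (p.1⁻¹ • y) p.1 → ∀ q : G × ℕ, q.1 ∈ T →
      q.2 < n (q.1⁻¹ • y) q.1 → f p = f q → p = q)
    (fun y => by
      have e1 : Fintype.card (T.sigma fun t => Finset.range (n (t⁻¹ • y) t)) ≤
          Fintype.card (Fin d2) := by
        rw [Fintype.card_fin, Fintype.card_coe, Finset.card_sigma]
        simpa using h2 y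
      obtain ⟨f⟩ := Function.Embedding.nonempty_of_card_le e1
      refine ⟨fun p => if h : (⟨p.1, p.2⟩ : Σ _ : G, ℕ) ∈
        (T.sigma fun t => Finset.range (n (t⁻¹ • y) t)) then f ⟨_, h⟩ else ⟨0, hd2⟩, ?_⟩
      intro p hp1 hp2 q hq1 hq2 hpq
      have hp : (⟨p.1, p.2⟩ : Σ _ : G, ℕ) ∈ (T.sigma fun t => Finset.range (n (t⁻¹ • y) t)) :=
        Finset.mem_sigma.2 ⟨hp1, Finset.mem_range.2 hp2⟩
      have hq : (⟨q.1, q.2⟩ : Σ _ : G, ℕ) ∈ (T.sigma fun t => Finset.range (n (t⁻¹ • y) t)) :=
        Finset.mem_sigma.2 ⟨hq1, Finset.mem_range.2 hq2⟩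
      beta_reduce at hpq
      rw [dif_pos hp, dif_pos hq] at hpq
      have := congrArg Subtype.val (f.injective hpq)
      simp only [Sigma.mk.injEq, heq_eq_eq] at this
      exact Prod.ext this.1 this.2)
    (fun f => isOpen_of_ev fun x hx => by
      filter_upwards [hinv x] with y hy
      simp only [Set.mem_ofPred_eq] at hx ⊢
      intro p hp1 hp2 q hq1 hq2
      rw [hy _ hp1] at hp2
      rw [hy _ hq1] at hq2
      exact hx p hp1 hp2 q hq1 hq2)
  refine ⟨fun x p => ((ι x p.2).1, ((), τ ((ι x p.2).1 • x) (ι x p.2))), lc_of_ev fun x => ?_,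
    fun x p hp => ?_, fun x p hp x' p' hp' e1 e2 => ?_⟩
  · filter_upwards [lc_ev hιl x, Filter.eventually_all.2 fun i => ev_smul hτl (ι x i).1 x]
      with y hy1 hy2
    funext p
    rw [hy1, hy2]
  · obtain ⟨-, h⟩ := hι x hp
    have h4 : n x (ι x p.2).1 ≠ 0 := by have := (h p.2).2; omega
    exact h3 x hp (ι x p.2).1 (h p.2).1 h4
  · simp only [Prod.mk.injEq, true_and] at e2
    obtain ⟨hi1, h⟩ := hι x hp
    obtain ⟨hi1', h'⟩ := hι x' hp'
    beta_reduce at e1
    have e3 := hτ ((ι x p.2).1 • x) (ι x p.2) (h p.2).1 (by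
      rw [inv_smul_smul]; exact (h p.2).2) (ι x' p'.2) (h' p'.2).1 (by
      rw [e1, inv_smul_smul]; exact (h' p'.2).2) (by rw [e2, e1])
    rw [e3] at e1
    have e4 : x = x' := smul_left_cancel _ e1
    subst e4
    exact ⟨rfl, Prod.ext rfl (hi1 e3)⟩

/-- Orbitwise Hall conditions give flows. -/
theorem le_of_hall (hN : LCField G X)
    {A B : Set X} (hA : IsClopen A) (hB : IsClopen B) (T : Finset G) (q r : ℕ) (hq : 0 < q)
    (hall : ∀ z : X, ∀ E : Finset G, (∀ h ∈ E, h • z ∈ A) →
      r * E.card ≤ q * {y : G | (∃ t ∈ T, ∃ h ∈ E, y = t * h) ∧ y • z ∈ B}.ncard)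
    (Λ δ : ℝ) (hΛ : 0 ≤ Λ) (hδ : 0 < δ) (d1 d2 : ℕ) (hd2 : 0 < d2)
    (hd1 : (d1 : ℝ) ≤ Λ * (r / q) - T.card) (hd2' : Λ * (1 + δ) ≤ d2) :
    Le G (mul (Fin d1) (ind A)) (mul (Fin d2) (ind B)) := by
  classical
  set ε : ℝ := q * δ / (T.card * r + 1) with hε
  have hq' : (0:ℝ) < q := by exact_mod_cast hq
  have hε0 : 0 < ε := by positivity
  obtain ⟨F, N, hNl, hN0, hNF, hN1, hNi⟩ := hN (T.image fun t => t⁻¹) ε hε0
  have hAl := lc_mem hA
  have hBl := lc_mem hB
  -- local flows
  obtain ⟨σ, hσl, hσ⟩ := lc_select (X := X) (ι := G → G → ℕ)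
    (fun z σ => (∀ h ∈ F, h • z ∈ A → ∑ t ∈ T, σ h t = r) ∧
      (∀ h t, σ h t ≠ 0 → h ∈ F ∧ t ∈ T) ∧
      (∀ h ∈ F, ∀ t ∈ T, σ h t ≠ 0 → h • z ∈ A ∧ t • h • z ∈ B) ∧
      (∀ h t, σ h t ≤ r) ∧
      ∀ y, ∑ t ∈ T, σ (t⁻¹ * y) t ≤ q)
    (fun z => by
      set V : Finset G := F.filter fun h => h • z ∈ A with hV
      have hVF : ∀ h ∈ V, h ∈ F ∧ h • z ∈ A := fun h hh => Finset.mem_filter.1 hh
      set Bz : Finset G → Finset G := fun E =>
        ((T ×ˢ E).image fun p => p.1 * p.2).filter fun y => y • z ∈ B with hBz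
      have hBzc : ∀ E : Finset G, {y : G | (∃ t ∈ T, ∃ h ∈ E, y = t * h) ∧ y • z ∈ B}.ncard =
          (Bz E).card := by
        intro E
        rw [← Set.ncard_coe_finset]
        congr 1
        ext y
        simp only [hBz, Finset.coe_filter, Finset.mem_image, Finset.mem_product,
          Set.mem_ofPred_eq, Prod.exists]
        refine and_congr_left fun _ => ⟨?_, ?_⟩
        · rintro ⟨t, ht, h, hh, rfl⟩
          exact ⟨t, h, ⟨ht, hh⟩, rfl⟩
        · rintro ⟨t, h, ⟨ht, hh⟩, rfl⟩
          exact ⟨t, ht, h, hh, rfl⟩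
      have hhall : ∀ s : Finset (V × Fin r), s.card ≤
          (s.biUnion fun p => (Bz {p.1.1}) ×ˢ (Finset.univ : Finset (Fin q))).card := by
        intro s
        set E : Finset G := s.image fun p => p.1.1 with hE
        have hEV : E ⊆ V := by
          intro h hh
          obtain ⟨p, -, rfl⟩ := Finset.mem_image.1 hh
          exact p.1.2
        have e1 : s.card ≤ E.card * r := by
          have : s.card ≤ (E ×ˢ (Finset.univ : Finset (Fin r))).card := by
            refine Finset.card_le_card_of_injOn (fun p => (p.1.1, p.2)) ?_ ?_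
            · intro p hp
              simp only [Finset.coe_product, Set.mem_prod, Finset.mem_coe, Finset.mem_univ,
                and_true]
              exact Finset.mem_image.2 ⟨p, hp, rfl⟩
            · intro p _ p' _ heq
              simp only [Prod.mk.injEq] at heq
              exact Prod.ext (Subtype.ext heq.1) heq.2
          rw [Finset.card_product] at this
          simpa using this
        have e2 : Bz E ×ˢ (Finset.univ : Finset (Fin q)) ⊆
            s.biUnion fun p => (Bz {p.1.1}) ×ˢ (Finset.univ : Finset (Fin q)) := by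
          intro y hy
          obtain ⟨hy1, -⟩ := Finset.mem_product.1 hy
          obtain ⟨hy2, hy3⟩ := Finset.mem_filter.1 hy1
          obtain ⟨p, hp, hpy⟩ := Finset.mem_image.1 hy2
          obtain ⟨v, hv, hvp⟩ := Finset.mem_image.1 (Finset.mem_product.1 hp).2
          refine Finset.mem_biUnion.2 ⟨v, hv, Finset.mem_product.2 ⟨Finset.mem_filter.2
            ⟨Finset.mem_image.2 ⟨p, Finset.mem_product.2 ⟨(Finset.mem_product.1 hp).1, ?_⟩, hpy⟩,
              hy3⟩, Finset.mem_univ _⟩⟩
          rw [Finset.mem_singleton]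
          exact hvp.symm
        have e3 := hall z E fun h hh => (hVF h (hEV hh)).2
        rw [hBzc] at e3
        have e4 := Finset.card_le_card e2
        rw [Finset.card_product, Finset.card_univ, Fintype.card_fin] at e4
        calc s.card ≤ E.card * r := e1
          _ = r * E.card := mul_comm _ _
          _ ≤ q * (Bz E).card := e3
          _ = (Bz E).card * q := mul_comm _ _
          _ ≤ _ := e4
      obtain ⟨f, hf, hfm⟩ := (Finset.all_card_le_biUnion_card_iff_exists_injective _).1 hhall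
      have hfm1 : ∀ p, ∃ t ∈ T, (f p).1 = t * p.1.1 ∧ (f p).1 • z ∈ B := by
        intro p
        obtain ⟨e1, -⟩ := Finset.mem_product.1 (hfm p)
        obtain ⟨e2, e3⟩ := Finset.mem_filter.1 e1
        obtain ⟨u, hu, hu2⟩ := Finset.mem_image.1 e2
        obtain ⟨hu3, hu4⟩ := Finset.mem_product.1 hu
        refine ⟨u.1, hu3, ?_, e3⟩
        rw [← hu2, Finset.mem_singleton.1 hu4]
      refine ⟨fun h t => if hh : h ∈ V ∧ t ∈ T then
        (Finset.univ.filter fun i : Fin r => (f (⟨h, hh.1⟩, i)).1 = t * h).card else 0,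
        ?_, ?_, ?_, ?_, ?_⟩
      · intro h hh hhA
        have hhV : h ∈ V := Finset.mem_filter.2 ⟨hh, hhA⟩
        have e1 : ∑ t ∈ T, (if hh : h ∈ V ∧ t ∈ T then
            (Finset.univ.filter fun i : Fin r => (f (⟨h, hh.1⟩, i)).1 = t * h).card else 0) =
            ∑ t ∈ T, (Finset.univ.filter fun i : Fin r => (f (⟨h, hhV⟩, i)).1 = t * h).card :=
          Finset.sum_congr rfl fun t ht => by rw [dif_pos ⟨hhV, ht⟩]
        rw [e1]
        have e2 := Finset.card_eq_sum_card_fiberwise (s := (Finset.univ : Finset (Fin r)))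
          (t := T) (f := fun i => (f (⟨h, hhV⟩, i)).1 * h⁻¹) (by
            intro i _
            obtain ⟨t, ht, e3, -⟩ := hfm1 (⟨h, hhV⟩, i)
            beta_reduce
            rw [e3, mul_inv_cancel_right]
            exact ht)
        rw [Finset.card_univ, Fintype.card_fin] at e2
        refine Eq.trans ?_ e2.symm
        refine Finset.sum_congr rfl fun t _ => ?_
        congr 1
        ext i
        simp only [Finset.mem_filter, Finset.mem_univ, true_and]
        rw [mul_inv_eq_iff_eq_mul]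
      · intro h t hne
        beta_reduce at hne
        split_ifs at hne with hh
        · exact ⟨(hVF h hh.1).1, hh.2⟩
        · exact (hne rfl).elim
      · intro h _ t _ hne
        beta_reduce at hne
        split_ifs at hne with hh
        · refine ⟨(hVF h hh.1).2, ?_⟩
          obtain ⟨i, hi⟩ := Finset.card_pos.1 (Nat.pos_of_ne_zero hne)
          obtain ⟨t', ht', e1, e2⟩ := hfm1 (⟨h, hh.1⟩, i)
          rw [(Finset.mem_filter.1 hi).2, mul_smul] at e2
          exact e2
        · exact (hne rfl).elim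
      · intro h t
        beta_reduce
        split_ifs with hh
        · refine (Finset.card_filter_le _ _).trans (by simp)
        · exact Nat.zero_le _
      · intro y
        have e1 : ∑ t ∈ T, (if hh : t⁻¹ * y ∈ V ∧ t ∈ T then
            (Finset.univ.filter fun i : Fin r => (f (⟨t⁻¹ * y, hh.1⟩, i)).1 =
              t * (t⁻¹ * y)).card else 0) =
            (((Finset.univ : Finset (V × Fin r)).filter fun p => (f p).1 = y ∧
              y * p.1.1⁻¹ ∈ T)).card := by
          rw [Finset.card_eq_sum_card_fiberwise (t := T) (f := fun p => y * p.1.1⁻¹)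
            (fun p hp => by
              have := (Finset.mem_filter.1 (Finset.mem_coe.1 hp)).2.2
              exact this)]
          refine Finset.sum_congr rfl fun t ht => ?_
          split_ifs with hh
          · refine Finset.card_bij (fun i _ => (⟨t⁻¹ * y, hh.1⟩, i)) ?_ ?_ ?_
            · intro i hi
              have h1 := (Finset.mem_filter.1 hi).2
              rw [mul_inv_cancel_left] at h1
              refine Finset.mem_filter.2 ⟨Finset.mem_filter.2 ⟨Finset.mem_univ _, h1, ?_⟩, ?_⟩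
              · simp [ht]
              · simp
            · intro i _ j _ hij
              simpa using hij
            · intro p hp
              obtain ⟨h1, h2⟩ := Finset.mem_filter.1 hp
              obtain ⟨-, h3, h4⟩ := Finset.mem_filter.1 h1
              have h5 : p.1.1 = t⁻¹ * y := by rw [← h2]; group
              refine ⟨p.2, Finset.mem_filter.2 ⟨Finset.mem_univ _, ?_⟩, ?_⟩
              · rw [mul_inv_cancel_left]
                refine Eq.trans ?_ h3
                congr 2
                exact Prod.ext (Subtype.ext h5.symm) rfl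
              · exact Prod.ext (Subtype.ext h5.symm) rfl
          · symm
            rw [Finset.card_eq_zero, Finset.eq_empty_iff_forall_notMem]
            intro p hp
            obtain ⟨h1, h2⟩ := Finset.mem_filter.1 hp
            have h5 : p.1.1 = t⁻¹ * y := by rw [← h2]; group
            exact hh ⟨h5 ▸ p.1.2, ht⟩
        rw [e1]
        have e2 : (((Finset.univ : Finset (V × Fin r)).filter fun p => (f p).1 = y ∧
              y * p.1.1⁻¹ ∈ T)).card ≤ (Finset.univ : Finset (Fin q)).card := by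
          refine Finset.card_le_card_of_injOn (fun p => (f p).2) (fun _ _ => by simp) ?_
          intro p hp p' hp' heq
          have h1 := (Finset.mem_filter.1 (Finset.mem_coe.1 hp)).2.1
          have h2 := (Finset.mem_filter.1 (Finset.mem_coe.1 hp')).2.1
          exact hf (Prod.ext (h1.trans h2.symm) heq)
        simpa using e2)
    (fun σ => isOpen_of_ev fun x hx => by
      filter_upwards [ev_smul_finset hAl F x,
        ev_smul_finset hBl ((T ×ˢ F).image fun p => p.1 * p.2) x] with y hy1 hy2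
      simp only [Set.mem_ofPred_eq] at hx ⊢
      obtain ⟨h1, h2, h3, h4, h5⟩ := hx
      refine ⟨fun h hh hhA => h1 h hh (by rw [← hy1 h hh]; exact hhA), h2,
        fun h hh t ht hne => ?_, h4, h5⟩
      have := h3 h hh t ht hne
      rw [hy1 h hh]
      refine ⟨this.1, ?_⟩
      have h6 := hy2 (t * h) (Finset.mem_image.2 ⟨(t, h), Finset.mem_product.2 ⟨ht, hh⟩, rfl⟩)
      rw [mul_smul, mul_smul] at h6
      rw [h6]
      exact this.2)
  -- averaging
  set w : X → G → ℝ := fun x t => ∑ h ∈ F, N x h * (σ (h⁻¹ • x) h t : ℝ) with hw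
  have hwl : IsLocallyConstant w := lc_of_ev fun x => by
    filter_upwards [lc_ev hNl x, (Filter.eventually_all_finset F).2 fun h _ =>
      ev_smul hσl h⁻¹ x] with y hy1 hy2
    funext t
    simp only [hw]
    refine Finset.sum_congr rfl fun h hh => ?_
    rw [hy1, hy2 h hh]
  have hw0 : ∀ x t, 0 ≤ w x t := fun x t =>
    Finset.sum_nonneg fun h _ => mul_nonneg (hN0 x h) (Nat.cast_nonneg _)
  have hwA : ∀ x ∈ A, (r:ℝ) ≤ ∑ t ∈ T, w x t := by
    intro x hx
    simp only [hw]
    rw [Finset.sum_comm]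
    calc (r:ℝ) = ∑ h ∈ F, N x h * r := by rw [← Finset.sum_mul, hN1]; ring
      _ ≤ _ := Finset.sum_le_sum fun h hh => by
        rw [← Finset.mul_sum]
        refine mul_le_mul_of_nonneg_left ?_ (hN0 x h)
        have := (hσ (h⁻¹ • x)).1 h hh (by rw [smul_inv_smul]; exact hx)
        rw [← this]
        push_cast
        exact le_rfl
  have hwload : ∀ y, ∑ t ∈ T, w (t⁻¹ • y) t ≤ q * (1 + δ) := by
    intro y
    set A' : Finset G := F ∪ (T ×ˢ F).image fun p => p.1 * p.2 with hA'
    have e1 : ∀ t ∈ T, w (t⁻¹ • y) t ≤ ∑ h ∈ A', N y h * (σ (h⁻¹ • y) (t⁻¹ * h) t : ℝ) +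
        r * ε := by
      intro t ht
      have e2 : w (t⁻¹ • y) t =
          ∑ h ∈ A', N (t⁻¹ • y) (t⁻¹ * h) * (σ (h⁻¹ • y) (t⁻¹ * h) t : ℝ) := by
        have e3 : w (t⁻¹ • y) t = ∑ h ∈ A'.image (fun h => t⁻¹ * h),
            N (t⁻¹ • y) h * (σ (h⁻¹ • t⁻¹ • y) h t : ℝ) := by
          refine Finset.sum_subset ?_ fun h _ hh => by rw [hNF _ h hh, zero_mul]
          intro h hh
          refine Finset.mem_image.2 ⟨t * h, Finset.mem_union_right _
            (Finset.mem_image.2 ⟨(t, h), Finset.mem_product.2 ⟨ht, hh⟩, rfl⟩), by simp⟩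
        rw [e3, Finset.sum_image (fun a _ b _ hab => mul_left_cancel hab)]
        refine Finset.sum_congr rfl fun h _ => ?_
        have e4 : (t⁻¹ * h)⁻¹ • t⁻¹ • y = h⁻¹ • y := by
          rw [mul_inv_rev, mul_smul, inv_smul_smul]
        rw [e4]
      rw [e2]
      have e5 : ∀ h ∈ A', N (t⁻¹ • y) (t⁻¹ * h) * (σ (h⁻¹ • y) (t⁻¹ * h) t : ℝ) ≤
          N y h * (σ (h⁻¹ • y) (t⁻¹ * h) t : ℝ) + r * |N (t⁻¹ • y) (t⁻¹ * h) - N y h| := by
        intro h _
        have h1 := (hσ (h⁻¹ • y)).2.2.2.1 (t⁻¹ * h) t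
        have h2 : (σ (h⁻¹ • y) (t⁻¹ * h) t : ℝ) ≤ r := by exact_mod_cast h1
        have h3 : (0:ℝ) ≤ (σ (h⁻¹ • y) (t⁻¹ * h) t : ℝ) := Nat.cast_nonneg _
        have h4 := le_abs_self (N (t⁻¹ • y) (t⁻¹ * h) - N y h)
        have h5 := abs_nonneg (N (t⁻¹ • y) (t⁻¹ * h) - N y h)
        nlinarith [mul_le_mul_of_nonneg_right h4 h3, mul_le_mul_of_nonneg_right h2 h5]
      refine (Finset.sum_le_sum e5).trans ?_
      rw [Finset.sum_add_distrib, ← Finset.mul_sum]
      have e6 := hNi t⁻¹ (Finset.mem_image.2 ⟨t, ht, rfl⟩) y A'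
      have := mul_le_mul_of_nonneg_left e6 (Nat.cast_nonneg (α := ℝ) r)
      linarith
    refine (Finset.sum_le_sum e1).trans ?_
    rw [Finset.sum_add_distrib, Finset.sum_const, nsmul_eq_mul, Finset.sum_comm]
    have e7 : ∑ h ∈ A', ∑ t ∈ T, N y h * (σ (h⁻¹ • y) (t⁻¹ * h) t : ℝ) ≤ q := by
      calc _ ≤ ∑ h ∈ A', N y h * q := Finset.sum_le_sum fun h _ => by
            rw [← Finset.mul_sum]
            refine mul_le_mul_of_nonneg_left ?_ (hN0 y h)
            exact_mod_cast (hσ (h⁻¹ • y)).2.2.2.2 h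
        _ = ∑ h ∈ F, N y h * q := (Finset.sum_subset Finset.subset_union_left
            fun h _ hh => by rw [hNF y h hh, zero_mul]).symm
        _ = q := by rw [← Finset.sum_mul, hN1, one_mul]
    have e8 : (T.card : ℝ) * (r * ε) ≤ q * δ := by
      have e9 : ((T.card : ℝ) * r + 1) * ε = q * δ := by
        rw [hε]; field_simp
      have : (T.card : ℝ) * (r * ε) = ((T.card : ℝ) * r + 1) * ε - ε := by ring
      rw [this, e9]
      linarith
    linarith
  -- rounding
  refine le_of_flow hA T (fun x t => ⌊Λ / q * w x t⌋₊)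
    (hwl.comp fun f t => ⌊Λ / q * f t⌋₊) d1 d2 hd2 ?_ ?_ ?_
  · intro x hx
    have e1 := hwA x hx
    have e2 : ∀ t ∈ T, Λ / q * w x t - 1 ≤ (⌊Λ / q * w x t⌋₊ : ℝ) := fun t _ =>
      (Nat.sub_one_lt_floor _).le
    have e3 := Finset.sum_le_sum e2
    rw [Finset.sum_sub_distrib, ← Finset.mul_sum, Finset.sum_const, nsmul_eq_mul, mul_one] at e3
    have e4 : Λ / q * r ≤ Λ / q * ∑ t ∈ T, w x t := mul_le_mul_of_nonneg_left e1 (by positivity)
    have e5 : Λ / q * r = Λ * (r / q) := by ring
    have e6 : (d1 : ℝ) ≤ ∑ t ∈ T, (⌊Λ / q * w x t⌋₊ : ℝ) := by linarith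
    exact_mod_cast e6
  · intro y
    have e1 := hwload y
    have e2 : ∀ t ∈ T, (⌊Λ / q * w (t⁻¹ • y) t⌋₊ : ℝ) ≤ Λ / q * w (t⁻¹ • y) t := fun t _ =>
      Nat.floor_le (mul_nonneg (by positivity) (hw0 _ _))
    have e3 := Finset.sum_le_sum e2
    rw [← Finset.mul_sum] at e3
    have e4 : Λ / q * ∑ t ∈ T, w (t⁻¹ • y) t ≤ Λ / q * (q * (1 + δ)) :=
      mul_le_mul_of_nonneg_left e1 (by positivity)
    have e5 : Λ / q * (q * (1 + δ)) = Λ * (1 + δ) := by field_simp
    have e6 : ∑ t ∈ T, (⌊Λ / q * w (t⁻¹ • y) t⌋₊ : ℝ) ≤ d2 := by linarith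
    exact_mod_cast e6
  · intro x hx t ht hne
    have e1 : w x t ≠ 0 := by
      intro h
      apply hne
      rw [h]; simp
    obtain ⟨h, hh, hne'⟩ := Finset.exists_ne_zero_of_sum_ne_zero e1
    have e2 : σ (h⁻¹ • x) h t ≠ 0 := by
      intro h0
      apply hne'
      rw [h0]; simp
    have := (hσ (h⁻¹ • x)).2.2.1 h hh t ht e2
    rw [smul_inv_smul] at this
    exact this.2

end Pool.Agent.Helper277_ZD
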