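import Pool.Agent.Helper277_ZD.Trail

set_option autoImplicit false
set_option linter.unusedSectionVars false

/-!
# Approximate halving, continued
-/

namespace Pool.Agent.Helper277_ZD

open Filter Topology

variable {G X : Type} [Group G] [TopologicalSpace X] [MulAction G X] [ContinuousConstSMul G X]
  {I J : Type}

/-- the sheets of the claims within `c` separate the claims on one target -/
def Sheets (e : X → I → Fin 2 → G × J) (s : X → I → Fin 2 → Fin 2) (c : X → Set I) : Prop :=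
  ∀ v u : X × I, v.2 ∈ c v.1 → u.2 ∈ c u.1 → ∀ k k', tgt e v.1 v.2 k = tgt e u.1 u.2 k' →
    s v.1 v.2 k = s u.1 u.2 k' → v = u ∧ k = k'

theorem closedObj (hfree : ∀ (g : G) (x : X), g • x = x → g = 1)
    {e : X → I → Fin 2 → G × J} {s : X → I → Fin 2 → Fin 2} {c : X → Set I}
    (hs : Sheets e s c) (x : X) (P : Finset (G × I)) (hPc : ∀ p ∈ P, p.2 ∈ c (p.1 • x))
    (hcl : ∀ p ∈ P, ∀ u, Adj e c (p.1 • x, p.2) u → ∃ p' ∈ P, (p'.1 • x, p'.2) = u) :
    ∃ β, Obj e c x P β := by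
  classical
  set t : P → Finset (X × J) := fun p =>
    (Finset.univ : Finset (Fin 2)).image fun k => tgt e (p.1.1 • x) p.1.2 k with ht
  have hall : ∀ S : Finset P, S.card ≤ (S.biUnion t).card := by
    intro S
    have h1 : (S ×ˢ (Finset.univ : Finset (Fin 2))).card ≤
        ((S.biUnion t) ×ˢ (Finset.univ : Finset (Fin 2))).card := by
      refine Finset.card_le_card_of_injOn (fun p =>
        (tgt e (p.1.1.1 • x) p.1.1.2 p.2, s (p.1.1.1 • x) p.1.1.2 p.2)) ?_ ?_
      · intro p hp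
        have hp1 := (Finset.mem_product.1 (Finset.mem_coe.1 hp)).1
        exact Finset.mem_coe.2 (Finset.mem_product.2 ⟨Finset.mem_biUnion.2 ⟨p.1, hp1,
          Finset.mem_image.2 ⟨p.2, Finset.mem_univ _, rfl⟩⟩, Finset.mem_univ _⟩)
      · intro p _ q _ hpq
        simp only [Prod.mk.injEq] at hpq
        obtain ⟨h2, h3⟩ := hs (p.1.1.1 • x, p.1.1.2) (q.1.1.1 • x, q.1.1.2)
          (hPc _ p.1.2) (hPc _ q.1.2) p.2 q.2 hpq.1 hpq.2
        simp only [Prod.mk.injEq] at h2
        exact Prod.ext (Subtype.ext (Prod.ext (smul_eq_of hfree h2.1) h2.2)) h3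
    rw [Finset.card_product, Finset.card_product] at h1
    simpa using h1
  obtain ⟨f, hf, hfm⟩ := (Finset.all_card_le_biUnion_card_iff_exists_injective _).1 hall
  have hk : ∀ p : P, ∃ k, tgt e (p.1.1 • x) p.1.2 k = f p := by
    intro p
    obtain ⟨k, -, hk⟩ := Finset.mem_image.1 (hfm p)
    exact ⟨k, hk⟩
  choose k hk using hk
  replace hk : ∀ (p : G × I) (hp : p ∈ P), tgt e (p.1 • x) p.2 (k ⟨p, hp⟩) = f ⟨p, hp⟩ :=
    fun p hp => hk ⟨p, hp⟩
  refine ⟨fun p => if h : p ∈ P then k ⟨p, h⟩ else 0, hPc, ?_, ?_⟩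
  · intro p hp p' hp' heq
    beta_reduce at heq
    rw [dif_pos hp, dif_pos hp', hk, hk] at heq
    have := hf heq
    simpa using this
  · intro p hp x' i' k' hi' heq
    obtain ⟨p', hp', e1⟩ := hcl p hp (x', i') ⟨hPc p hp, hi', _, k', heq.symm⟩
    simp only [Prod.mk.injEq] at e1
    exact ⟨p', hp', e1.1, e1.2⟩

section serve

variable [CompactSpace X] [T2Space X] [TotallyDisconnectedSpace X] [Finite I]

theorem serve (hfree : ∀ (g : G) (x : X), g • x = x → g = 1)
    {e : X → I → Fin 2 → G × J} {s : X → I → Fin 2 → Fin 2} {c : X → Set I}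
    (he : IsLocallyConstant e) (hc : IsLocallyConstant c)
    (hs : Sheets e s c) (n : ℕ) : ∃ S κ, Served e c S κ ∧ ∀ v : X × I, v.2 ∈ c v.1 → ∀ m ≤ n,
      (∀ u, Dn e c (m + 1) v u → Dn e c m v u) → v.2 ∈ S v.1 := by
  classical
  have := Fintype.ofFinite I
  have h1 := fun m => LocRel.dn hfree he hc m
  choose W hW _ using h1
  obtain ⟨S, κ, hS, hfull⟩ := ol hfree he hc ((Finset.range (n + 1)).biUnion W)
  refine ⟨S, κ, hS, fun v hv m hm hcl => ?_⟩
  set P : Finset (G × I) := (W m ×ˢ (Finset.univ : Finset I)).filter fun p =>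
    Dn e c m v (p.1 • v.1, p.2) with hP
  have hPmem : ∀ p ∈ P, p.1 ∈ W m ∧ Dn e c m v (p.1 • v.1, p.2) := by
    intro p hp
    obtain ⟨h2, h3⟩ := Finset.mem_filter.1 hp
    exact ⟨(Finset.mem_product.1 h2).1, h3⟩
  have hmemP : ∀ u, Dn e c m v u → ∃ p ∈ P, (p.1 • v.1, p.2) = u := by
    intro u hu
    obtain ⟨g, hg, e1⟩ := hW m _ _ hu
    have e2 : (g • v.1, u.2) = u := Prod.ext e1.symm rfl
    exact ⟨(g, u.2), Finset.mem_filter.2 ⟨Finset.mem_product.2 ⟨hg, Finset.mem_univ _⟩, by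
      rw [e2]; exact hu⟩, e2⟩
  obtain ⟨β, hβ⟩ := closedObj hfree hs v.1 P (fun p hp => (hPmem p hp).2.right)
    (fun p hp u hu => hmemP u (hcl u ⟨_, (hPmem p hp).2, hu⟩))
  have hvv : Dn e c m v v := Dn.mono (Nat.zero_le m) (show Dn e c 0 v v from ⟨hv, rfl⟩)
  obtain ⟨p, hp, e1⟩ := hmemP v hvv
  have h2 := hfull v.1 P β (fun q hq => Finset.mem_biUnion.2 ⟨m, Finset.mem_range.2 (by omega),
    (hPmem q hq).1⟩) hβ p hp
  have e2 : p.2 = v.2 := congrArg Prod.snd e1
  have e3 : p.1 • v.1 = v.1 := congrArg Prod.fst e1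
  rw [e2, e3] at h2
  exact h2

end serve

theorem deg2 {e : X → I → Fin 2 → G × J} {s : X → I → Fin 2 → Fin 2} {c : X → Set I}
    (hs : Sheets e s c) {v u1 u2 u3 : X × I} (h1 : Adj e c v u1) (h2 : Adj e c v u2)
    (h3 : Adj e c v u3) (n1 : v ≠ u1) (n2 : v ≠ u2) (n3 : v ≠ u3) :
    u1 = u2 ∨ u1 = u3 ∨ u2 = u3 := by
  have key : ∀ {u w : X × I} {k k1 k2 : Fin 2}, v.2 ∈ c v.1 → u.2 ∈ c u.1 → w.2 ∈ c w.1 →
      v ≠ u → v ≠ w → tgt e v.1 v.2 k = tgt e u.1 u.2 k1 → tgt e v.1 v.2 k = tgt e w.1 w.2 k2 →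
      u = w := by
    intro u w k k1 k2 hv hu hw hvu hvw e1 e2
    have e3 : s v.1 v.2 k ≠ s u.1 u.2 k1 := fun h => hvu (hs v u hv hu k k1 e1 h).1
    have e4 : s v.1 v.2 k ≠ s w.1 w.2 k2 := fun h => hvw (hs v w hv hw k k2 e2 h).1
    exact (hs u w hu hw k1 k2 (e1.symm.trans e2) (by omega)).1
  obtain ⟨a1, b1, k1, k1', e1⟩ := h1
  obtain ⟨-, b2, k2, k2', e2⟩ := h2
  obtain ⟨-, b3, k3, k3', e3⟩ := h3
  have : k1 = k2 ∨ k1 = k3 ∨ k2 = k3 := by omega
  rcases this with rfl | rfl | rfl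
  · exact Or.inl (key a1 b1 b2 n1 n2 e1 e2)
  · exact Or.inr (Or.inl (key a1 b1 b3 n1 n3 e1 e3))
  · exact Or.inr (Or.inr (key a1 b2 b3 n2 n3 e2 e3))

theorem exists_path {K : Type} {e : X → I → K → G × J} {c : X → Set I} (v : X × I) (m : ℕ) :
    ∀ u, Dn e c m v u → (∀ j < m, ¬ Dn e c j v u) → ∃ p : ℕ → X × I, p m = u ∧
      (∀ j ≤ m, Dn e c j v (p j) ∧ ∀ i < j, ¬ Dn e c i v (p j)) ∧
      ∀ j < m, Adj e c (p j) (p (j + 1)) := by
  induction m with
  | zero =>
    intro u hu _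
    exact ⟨fun _ => u, rfl, fun j hj => by
      have : j = 0 := by omega
      subst this
      exact ⟨hu, fun i hi => by omega⟩, fun j hj => by omega⟩
  | succ m ih =>
    intro u hu hn
    obtain ⟨w, hw, hwu⟩ := hu
    obtain ⟨p, hp1, hp2, hp3⟩ := ih w hw (fun j hj h => hn (j + 1) (by omega) ⟨w, h, hwu⟩)
    refine ⟨fun j => if j ≤ m then p j else u, by simp, fun j hj => ?_, fun j hj => ?_⟩
    · by_cases hjm : j ≤ m
      · simp only [if_pos hjm]
        exact hp2 j hjm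
      · have : j = m + 1 := by omega
        subst this
        simp only [if_neg hjm]
        exact ⟨⟨w, hw, hwu⟩, hn⟩
    · by_cases hjm : j + 1 ≤ m
      · simp only [if_pos hjm, if_pos (show j ≤ m by omega)]
        exact hp3 j (by omega)
      · have : j = m := by omega
        subst this
        simp only [if_neg hjm, if_pos le_rfl, hp1]
        exact hwu

theorem on_path {e : X → I → Fin 2 → G × J} {s : X → I → Fin 2 → Fin 2} {c : X → Set I}
    (hs : Sheets e s c) (L : ℕ) (p : ℕ → X × I)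
    (hinj : ∀ i j, i < j → j ≤ L → p i ≠ p j) (hadj : ∀ j < L, Adj e c (p j) (p (j + 1)))
    (q r : ℕ) (hr : r ≤ q) (hL : q + r ≤ L) :
    ∀ w, Dn e c r (p q) w → ∃ j, j ≤ q + r ∧ q ≤ j + r ∧ w = p j := by
  induction r with
  | zero =>
    rintro w ⟨-, rfl⟩
    exact ⟨q, by omega, by omega, rfl⟩
  | succ r ih =>
    rintro w ⟨u, hu, huw⟩
    obtain ⟨j, hj1, hj2, rfl⟩ := ih (by omega) (by omega) u hu
    by_cases hw : p j = w
    · exact ⟨j, by omega, by omega, hw.symm⟩
    obtain ⟨i, rfl⟩ : ∃ i, j = i + 1 := ⟨j - 1, by omega⟩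
    have h1 : Adj e c (p (i + 1)) (p i) := (hadj i (by omega)).symm
    have h2 : Adj e c (p (i + 1)) (p (i + 1 + 1)) := hadj (i + 1) (by omega)
    rcases deg2 hs h1 h2 huw (hinj i (i + 1) (by omega) (by omega)).symm
      (hinj (i + 1) (i + 1 + 1) (by omega) (by omega)) hw with h | h | h
    · exact (hinj i (i + 1 + 1) (by omega) (by omega) h).elim
    · exact ⟨i, by omega, by omega, h.symm⟩
    · exact ⟨i + 1 + 1, by omega, by omega, h.symm⟩

theorem Dn.subset {K : Type} {e : X → I → K → G × J} {c c' : X → Set I}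
    (h : ∀ x, c' x ⊆ c x) {v u : X × I} (ha : Adj e c' v u) : Adj e c v u :=
  ⟨h _ ha.1, h _ ha.2.1, ha.2.2⟩

variable [CompactSpace X] [T2Space X] [TotallyDisconnectedSpace X] [Finite I]

theorem halving (hfree : ∀ (g : G) (x : X), g • x = x → g = 1)
    {a : X → Set I} {b : X → Set J} (ha : IsLocallyConstant a)
    (h : Le G (mul (Fin 2) a) (mul (Fin 2) b)) (l : ℕ) :
    ∃ M : X → Set I, IsLocallyConstant M ∧ (∀ x, M x ⊆ a x) ∧
      Le G (fun x => a x \ M x) b ∧ Le G (mul (Fin l) M) a := by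
  classical
  have := Fintype.ofFinite I
  obtain ⟨φ, hφl, hφb, hφi⟩ := h
  set e : X → I → Fin 2 → G × J := fun x i k => ((φ x (i, k)).1, (φ x (i, k)).2.1) with he
  set s : X → I → Fin 2 → Fin 2 := fun x i k => (φ x (i, k)).2.2 with hs
  have hel : IsLocallyConstant e := hφl.comp fun f i k => ((f (i, k)).1, (f (i, k)).2.1)
  have heb : ∀ x, ∀ i ∈ a x, ∀ k, (e x i k).2 ∈ b ((e x i k).1 • x) := fun x i hi k =>
    hφb x (i, k) hi
  have hes : Sheets e s a := by
    intro v u hv hu k k' h1 h2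
    simp only [tgt, Prod.mk.injEq] at h1
    obtain ⟨h3, h4⟩ := hφi v.1 (v.2, k) hv u.1 (u.2, k') hu h1.1 (Prod.ext h1.2 h2)
    simp only [Prod.mk.injEq] at h4
    exact ⟨Prod.ext h3 h4.1, h4.2⟩
  clear_value e s
  obtain ⟨S, κ, ⟨hSl, hκl, hSa, hi1, hi2⟩, hSf⟩ := serve hfree hel ha hes l
  set T : X → Set I := fun x => a x \ S x with hT
  have hTl : IsLocallyConstant T := (ha.prodMk hSl).comp fun p => p.1 \ p.2
  obtain ⟨M, hMl, hMT, hMs, hMm⟩ := mis hfree hTl (LocRel.dn hfree hel ha (2 * l))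
    (fun v u => Dn.symm)
  set c : X → Set I := fun x => T x \ M x with hc
  have hcl : IsLocallyConstant c := (hTl.prodMk hMl).comp fun p => p.1 \ p.2
  have hca : ∀ x, c x ⊆ a x := fun x i hi => hi.1.1
  have hec : Sheets e s c := fun v u hv hu => hes v u (hca _ hv) (hca _ hu)
  obtain ⟨S', κ', ⟨hSl', hκl', hSa', hi1', hi2'⟩, hSf'⟩ := serve hfree hel hcl hec (4 * l)
  have hcS : ∀ x, c x ⊆ S' x := by
    intro x i hi
    refine hSf' (x, i) hi (4 * l) le_rfl fun u hu => ?_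
    by_contra hnu
    obtain ⟨p, -, hp2, hp3⟩ := exists_path (x, i) (4 * l + 1) u hu
      (fun j hj h => hnu (h.mono (by omega)))
    have hpq : (p (2 * l)).2 ∈ c (p (2 * l)).1 := (hp2 (2 * l) (by omega)).1.right
    rcases hMm (p (2 * l)) hpq.1 with h1 | ⟨w, hw, h1⟩
    · exact hpq.2 h1
    · obtain ⟨j, hj1, -, rfl⟩ := on_path hes (4 * l + 1) p
        (fun i j hij hj heq => (hp2 j hj).2 i hij (heq ▸ (hp2 i (by omega)).1))
        (fun j hj => Dn.subset hca (hp3 j hj)) (2 * l) (2 * l) le_rfl (by omega) w h1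
      exact (hp2 j (by omega)).1.right.2 hw
  refine ⟨M, hMl, fun x i hi => (hMT x hi).1, ?_, ?_⟩
  · refine ⟨fun x i => if i ∈ S x then e x i (κ x i) else e x i (κ' x i), ?_, ?_, ?_⟩
    · exact (((hSl.prodMk hκl).prodMk (hκl'.prodMk hel)).comp fun p =>
        fun i => if i ∈ p.1.1 then p.2.2 i (p.1.2 i) else p.2.2 i (p.2.1 i))
    · intro x i hi
      beta_reduce
      split_ifs
      · exact heb x i hi.1 _
      · exact heb x i hi.1 _
    · intro x i hi x' i' hi' h1 h2
      beta_reduce at h1 h2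
      by_cases his : i ∈ S x
      · by_cases his' : i' ∈ S x'
        · rw [if_pos his, if_pos his'] at h1 h2
          exact hi2 x i x' i' his his' (Prod.ext h1 h2)
        · rw [if_pos his, if_neg his'] at h1 h2
          have h3 : tgt e x i (κ x i) = tgt e x' i' (κ' x' i') := Prod.ext h1 h2
          exact (his' (hi1 x i his x' i' _ hi'.1 h3.symm)).elim
      · by_cases his' : i' ∈ S x'
        · rw [if_neg his, if_pos his'] at h1 h2
          exact (his (hi1 x' i' his' x i _ hi.1 (Prod.ext h1 h2))).elim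
        · rw [if_neg his, if_neg his'] at h1 h2
          exact hi2' x i x' i' (hcS x ⟨⟨hi.1, his⟩, hi.2⟩) (hcS x' ⟨⟨hi'.1, his'⟩, hi'.2⟩)
            (Prod.ext h1 h2)
  · obtain ⟨W, hW, hWl⟩ := LocRel.dn (c := a) hfree hel ha l
    obtain ⟨f, hfl, hf⟩ := lc_select (X := X) (ι := I → Fin l → G × I)
      (fun x f => ∀ i ∈ M x, Function.Injective (f i) ∧
        ∀ k, Dn e a l (x, i) ((f i k).1 • x, (f i k).2))
      (fun x => by
        have h1 : ∀ i ∈ M x, ∃ f : Fin l → G × I, Function.Injective f ∧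
            ∀ k, Dn e a l (x, i) ((f k).1 • x, (f k).2) := by
          intro i hi
          have h2 : ∀ k : Fin l, ∃ u, Dn e a (k.1 + 1) (x, i) u ∧ ¬ Dn e a k.1 (x, i) u := by
            intro k
            by_contra hcon
            push Not at hcon
            exact (hMT x hi).2 (hSf (x, i) (hMT x hi).1 k.1 k.2.le hcon)
          choose u hu1 hu2 using h2
          have hu : ∀ k, Dn e a l (x, i) (u k) := fun k => (hu1 k).mono k.2
          have h3 : ∀ k, ∃ g ∈ W, (u k).1 = g • x := fun k => hW _ _ (hu k)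
          choose g _ hg using h3
          refine ⟨fun k => (g k, (u k).2), fun k k' hkk => ?_, fun k => ?_⟩
          · simp only [Prod.mk.injEq] at hkk
            have h4 : u k = u k' := Prod.ext (by rw [hg, hg, hkk.1]) hkk.2
            rcases lt_trichotomy k k' with hlt | heq | hlt
            · exact (hu2 k' (h4 ▸ (hu1 k).mono hlt)).elim
            · exact heq
            · exact (hu2 k (h4 ▸ (hu1 k').mono hlt)).elim
          · have h4 : (g k • x, (u k).2) = u k := Prod.ext (hg k).symm rfl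
            beta_reduce
            rw [h4]
            exact hu k
        refine ⟨fun i => if hi : i ∈ M x then (h1 i hi).choose else fun _ => (1, i),
          fun i hi => ?_⟩
        beta_reduce
        rw [dif_pos hi]
        exact (h1 i hi).choose_spec)
      (fun f => isOpen_of_ev fun x hx => by
        filter_upwards [lc_ev hMl x, hWl x] with y hy1 hy2
        simp only [Set.mem_ofPred_eq] at hx ⊢
        intro i hi
        rw [hy1] at hi
        exact ⟨(hx i hi).1, fun k => (hy2 _ _ _).2 ((hx i hi).2 k)⟩)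
    refine ⟨fun x p => f x p.1 p.2,
      hfl.comp fun (f : I → Fin l → G × I) (p : I × Fin l) => f p.1 p.2, ?_, ?_⟩
    · intro x p hp
      exact ((hf x p.1 hp).2 p.2).right
    · intro x p hp x' p' hp' e1 e2
      have h1 := (hf x p.1 hp).2 p.2
      have h2 := (hf x' p'.1 hp').2 p'.2
      beta_reduce at e1 e2
      rw [← e1, ← e2] at h2
      have h3 := Dn.add h1 h2.symm
      have h4 := hMs (x, p.1) (x', p'.1) hp hp' (by rw [two_mul]; exact h3)
      simp only [Prod.mk.injEq] at h4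
      obtain ⟨rfl, h5⟩ := h4
      refine ⟨rfl, ?_⟩
      have h6 := smul_eq_of hfree e1
      have h7 : f x p.1 p.2 = f x p.1 p'.2 := by
        rw [← h5] at h6 e2
        exact Prod.ext h6 e2
      exact Prod.ext h5 ((hf x p.1 hp).1 h7)

end Pool.Agent.Helper277_ZD
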