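import Pool.Agent.Helper277_ZD.Folner

set_option autoImplicit false
set_option linter.unusedSectionVars false

/-!
# Invariant measures from Folner sets
-/

namespace Pool.Agent.Helper277_ZD

open Filter Topology MeasureTheory
open scoped Pointwise

section top

variable {X : Type} [TopologicalSpace X] [CompactSpace X] [T2Space X] [TotallyDisconnectedSpace X]
  [SecondCountableTopology X]

theorem exists_clopen_seq {W : Set X} (hW : IsOpen W) :
    ∃ E : ℕ → Set X, (∀ n, IsClopen (E n)) ∧ Monotone E ∧ ⋃ n, E n = W := by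
  classical
  have hc : Countable (TopologicalSpace.Clopens X) :=
    TopologicalSpace.Clopens.countable_iff_secondCountable.2 inferInstance
  obtain ⟨C, hC⟩ := exists_surjective_nat (TopologicalSpace.Clopens X)
  refine ⟨fun n => ⋃ k ∈ (Finset.range (n + 1)).filter (fun k => (C k : Set X) ⊆ W),
    (C k : Set X), fun n => ?_, fun n m hnm => ?_, ?_⟩
  · exact (((Finset.range (n + 1)).filter (fun k => (C k : Set X) ⊆ W)).finite_toSet).isClopen_biUnion
      fun k _ => (C k).isClopen
  · refine Set.biUnion_subset_biUnion_left fun k hk => ?_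
    simp only [Finset.coe_filter, Finset.mem_range, Set.mem_ofPred_eq] at hk ⊢
    exact ⟨by omega, hk.2⟩
  · ext x
    simp only [Set.mem_iUnion, Finset.mem_filter, Finset.mem_range, exists_prop]
    constructor
    · rintro ⟨n, k, ⟨-, hk⟩, hx⟩
      exact hk hx
    · intro hx
      obtain ⟨V, hV, hxV, hVW⟩ := compact_exists_isClopen_in_isOpen hW hx
      obtain ⟨k, hk⟩ := hC ⟨V, hV⟩
      exact ⟨k, k, ⟨by omega, by rw [hk]; exact hVW⟩, by rw [hk]; exact hxV⟩

end top

variable {G X : Type} [Group G] [TopologicalSpace X] [MulAction G X] [ContinuousConstSMul G X]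
  [CompactSpace X] [TopologicalSpace.MetrizableSpace X] [TotallyDisconnectedSpace X]
  [MeasurableSpace X] [BorelSpace X]

open Classical in
/-- Empirical measures. -/
noncomputable def emp (Φ : Finset G) (z : X) : Measure X :=
  ((Φ.card : ENNReal)⁻¹) • ∑ y ∈ Φ, Measure.dirac (y • z)

open Classical in
theorem emp_apply (Φ : Finset G) (z : X) {C : Set X} (hC : MeasurableSet C) :
    emp Φ z C = (Φ.card : ENNReal)⁻¹ * ((Φ.filter fun y => y • z ∈ C).card : ENNReal) := by
  rw [emp, Measure.smul_apply, Measure.finsetSum_apply, smul_eq_mul]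
  congr 1
  rw [Finset.card_filter]
  push_cast
  refine Finset.sum_congr rfl fun y _ => ?_
  rw [Measure.dirac_apply' _ hC]
  by_cases h : y • z ∈ C <;> simp [h]

theorem emp_prob {Φ : Finset G} (hΦ : Φ.Nonempty) (z : X) : IsProbabilityMeasure (emp Φ z) := by
  classical
  constructor
  rw [emp_apply _ _ MeasurableSet.univ]
  simp only [Set.mem_univ, Finset.filter_true]
  refine ENNReal.inv_mul_cancel ?_ (ENNReal.natCast_ne_top _)
  simpa using hΦ.ne_empty

open Classical in
theorem exists_inv_measure [Countable G] (A B : ℕ → Set X) (hA : ∀ n, IsClopen (A n))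
    (hB : ∀ n, IsClopen (B n)) (hAm : Antitone A) (hBm : Monotone B)
    (h : ∀ S : Finset G, (1:G) ∈ S → ∀ ε : ℝ, 0 < ε → ∀ n : ℕ, ∃ z : X, ∃ Φ : Finset G,
      Φ.Nonempty ∧ ((S * Φ).card : ℝ) ≤ (1 + ε) * Φ.card ∧
      (n + 1) * (Φ.filter fun y => y • z ∈ B n).card ≤
        (n + 1 + 1) * (Φ.filter fun y => y • z ∈ A n).card) :
    ∃ μ : Measure X, IsProbabilityMeasure μ ∧
      (∀ (g : G) (s : Set X), MeasurableSet s → μ ((fun x => g • x) ⁻¹' s) = μ s) ∧
      ∀ n, μ (B n) ≤ μ (A n) := by
  have hsc : SecondCountableTopology X := by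
    let := TopologicalSpace.metrizableSpaceMetric X
    infer_instance
  obtain ⟨f, hf⟩ := exists_surjective_nat G
  set S : ℕ → Finset G := fun n => insert 1 ((Finset.range n).image f) with hS
  have hSev : ∀ g : G, ∀ᶠ n in atTop, g ∈ S n := by
    intro g
    obtain ⟨k, hk⟩ := hf g
    filter_upwards [eventually_gt_atTop k] with n hn
    exact Finset.mem_insert_of_mem (Finset.mem_image.2 ⟨k, Finset.mem_range.2 hn, hk⟩)
  have h1S : ∀ n, (1:G) ∈ S n := fun n => Finset.mem_insert_self _ _
  have h' := fun n : ℕ => h (S n) (h1S n) (1 / (n + 1)) (by positivity) n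
  choose z Φ hΦne hΦS hΦq using h'
  set μs : ℕ → ProbabilityMeasure X := fun n => ⟨emp (Φ n) (z n), emp_prob (hΦne n) (z n)⟩ with hμs
  obtain ⟨μ, -, hμ⟩ := (isCompact_univ (X := ProbabilityMeasure X)).ultrafilter_le_nhds
    ((hyperfilter ℕ).map μs) (by simp)
  have hlim : Tendsto μs (hyperfilter ℕ : Filter ℕ) (𝓝 μ) := hμ
  set F : ℕ → Set X → ℝ := fun n C => (((Φ n).filter fun y => y • z n ∈ C).card : ℝ) / (Φ n).card
    with hF
  have hcard : ∀ n, (0:ℝ) < (Φ n).card := fun n => by exact_mod_cast (hΦne n).card_pos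
  have hFlim : ∀ C : Set X, IsClopen C →
      Tendsto (fun n => F n C) (hyperfilter ℕ : Filter ℕ) (𝓝 ((μ : Measure X).real C)) := by
    intro C hC
    have h1 := ProbabilityMeasure.tendsto_measure_of_isClopen_of_tendsto hlim hC
    have h2 : Tendsto (fun n => ((μs n C : NNReal) : ℝ)) (hyperfilter ℕ : Filter ℕ)
        (𝓝 ((μ C : NNReal) : ℝ)) := (NNReal.continuous_coe.tendsto _).comp h1
    refine (Filter.Tendsto.congr (fun n => ?_) h2)
    change ((emp (Φ n) (z n) C).toNNReal : ℝ) = F n C
    rw [emp_apply _ _ hC.isOpen.measurableSet, ENNReal.coe_toNNReal_eq_toReal]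
    rw [ENNReal.toReal_mul, ENNReal.toReal_inv, ENNReal.toReal_natCast, ENNReal.toReal_natCast]
    rw [hF]
    simp only
    rw [div_eq_inv_mul]
  have hle : (hyperfilter ℕ : Filter ℕ) ≤ atTop := Nat.hyperfilter_le_atTop
  have hlim0 : Tendsto (fun n : ℕ => (1:ℝ) / (n + 1)) (hyperfilter ℕ : Filter ℕ) (𝓝 0) :=
    tendsto_one_div_add_atTop_nhds_zero_nat.mono_left hle
  have hinv1 : ∀ (g : G) (C : Set X), IsClopen C →
      (μ : Measure X).real ((fun x => g • x) ⁻¹' C) ≤ (μ : Measure X).real C := by
    intro g C hC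
    have hgC : IsClopen ((fun x : X => g • x) ⁻¹' C) := hC.preimage (continuous_const_smul g)
    have h1 : Tendsto (fun n => F n C + 1 / ((n:ℝ) + 1)) (hyperfilter ℕ : Filter ℕ)
        (𝓝 ((μ : Measure X).real C + 0)) := (hFlim C hC).add hlim0
    rw [add_zero] at h1
    refine le_of_tendsto_of_tendsto (hFlim _ hgC) h1 ?_
    filter_upwards [hle (hSev g)] with n hn
    simp only [hF]
    rw [div_add' _ _ _ (hcard n).ne', div_le_div_iff_of_pos_right (hcard n)]
    have e1 : ((Φ n).filter fun y => y • z n ∈ (fun x => g • x) ⁻¹' C).card ≤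
        ((S n * Φ n).filter fun y => y • z n ∈ C).card := by
      refine Finset.card_le_card_of_injOn (fun y => g * y) ?_ ?_
      · intro y hy
        obtain ⟨hy1, hy2⟩ := Finset.mem_filter.1 (Finset.mem_coe.1 hy)
        refine Finset.mem_coe.2 (Finset.mem_filter.2 ⟨Finset.mul_mem_mul hn hy1, ?_⟩)
        rw [mul_smul]
        exact hy2
      · exact (mul_right_injective g).injOn
    have e2 : ((S n * Φ n).filter fun y => y • z n ∈ C).card ≤
        ((Φ n).filter fun y => y • z n ∈ C).card + ((S n * Φ n) \ Φ n).card := by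
      rw [← Finset.card_union_of_disjoint (by
        rw [Finset.disjoint_left]
        intro y hy hy'
        exact (Finset.mem_sdiff.1 hy').2 (Finset.mem_filter.1 hy).1)]
      refine Finset.card_le_card fun y hy => ?_
      obtain ⟨hy1, hy2⟩ := Finset.mem_filter.1 hy
      by_cases hyΦ : y ∈ Φ n
      · exact Finset.mem_union_left _ (Finset.mem_filter.2 ⟨hyΦ, hy2⟩)
      · exact Finset.mem_union_right _ (Finset.mem_sdiff.2 ⟨hy1, hyΦ⟩)
    have e3 : ((S n * Φ n) \ Φ n).card + (Φ n).card = (S n * Φ n).card := by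
      refine Finset.card_sdiff_add_card_eq_card fun y hy => ?_
      have := Finset.mul_mem_mul (h1S n) hy
      rwa [one_mul] at this
    have e4 : (((S n * Φ n) \ Φ n).card : ℝ) + (Φ n).card = (S n * Φ n).card := by
      exact_mod_cast e3
    have e5 : (((Φ n).filter fun y => y • z n ∈ (fun x => g • x) ⁻¹' C).card : ℝ) ≤
        (((Φ n).filter fun y => y • z n ∈ C).card : ℝ) + (((S n * Φ n) \ Φ n).card : ℝ) := by
      exact_mod_cast e1.trans e2
    have e6 := hΦS n
    have e7 : (1 + 1 / ((n:ℝ) + 1)) * (Φ n).card = (Φ n).card + 1 / ((n:ℝ) + 1) * (Φ n).card := by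
      ring
    linarith
  have hinv2 : ∀ (g : G) (C : Set X), IsClopen C →
      (μ : Measure X).real ((fun x => g • x) ⁻¹' C) = (μ : Measure X).real C := by
    intro g C hC
    refine le_antisymm (hinv1 g C hC) ?_
    have h1 := hinv1 g Cᶜ hC.compl
    have hgC : IsClopen ((fun x : X => g • x) ⁻¹' C) := hC.preimage (continuous_const_smul g)
    rw [Set.preimage_compl, probReal_compl_eq_one_sub hgC.isOpen.measurableSet,
      probReal_compl_eq_one_sub hC.isOpen.measurableSet] at h1
    linarith
  refine ⟨μ, inferInstance, ?_, ?_⟩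
  · intro g s hs
    have hm : Measurable fun x : X => g • x := (continuous_const_smul g).measurable
    have hmap : (μ : Measure X).map (fun x => g • x) = μ := by
      refine ext_of_generate_finite {s | IsClopen s} ?_ ?_ ?_ ?_
      · rw [BorelSpace.measurable_eq (α := X)]
        exact isTopologicalBasis_isClopen.borel_eq_generateFrom
      · intro s hs t ht _
        exact IsClopen.inter hs ht
      · intro C hC
        rw [Measure.map_apply hm hC.isOpen.measurableSet]
        have := hinv2 g C hC
        rw [measureReal_def, measureReal_def] at this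
        exact (ENNReal.toReal_eq_toReal_iff' (measure_ne_top _ _) (measure_ne_top _ _)).1 this
      · rw [Measure.map_apply hm MeasurableSet.univ]
        simp
    rw [← Measure.map_apply hm hs, hmap]
  · intro m
    have h1 : (μ : Measure X).real (B m) ≤ (μ : Measure X).real (A m) := by
      have h2 : Tendsto (fun n => F n (A m) + 1 / ((n:ℝ) + 1)) (hyperfilter ℕ : Filter ℕ)
          (𝓝 ((μ : Measure X).real (A m) + 0)) := (hFlim _ (hA m)).add hlim0
      rw [add_zero] at h2
      refine le_of_tendsto_of_tendsto (hFlim _ (hB m)) h2 ?_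
      filter_upwards [hle (eventually_ge_atTop m)] with n hn
      have e1 : ((Φ n).filter fun y => y • z n ∈ B m).card ≤
          ((Φ n).filter fun y => y • z n ∈ B n).card :=
        Finset.card_le_card (Finset.monotone_filter_right _ fun y _ hy => hBm hn hy)
      have e2 : ((Φ n).filter fun y => y • z n ∈ A n).card ≤
          ((Φ n).filter fun y => y • z n ∈ A m).card :=
        Finset.card_le_card (Finset.monotone_filter_right _ fun y _ hy => hAm hn hy)
      have e3 : ((Φ n).filter fun y => y • z n ∈ A m).card ≤ (Φ n).card :=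
        Finset.card_filter_le _ _
      have e4 := hΦq n
      have e5 : (n + 1) * ((Φ n).filter fun y => y • z n ∈ B m).card ≤
          (n + 1) * ((Φ n).filter fun y => y • z n ∈ A m).card + (Φ n).card := by
        calc (n + 1) * ((Φ n).filter fun y => y • z n ∈ B m).card
            ≤ (n + 1) * ((Φ n).filter fun y => y • z n ∈ B n).card := Nat.mul_le_mul_left _ e1
          _ ≤ (n + 1 + 1) * ((Φ n).filter fun y => y • z n ∈ A n).card := e4
          _ ≤ (n + 1 + 1) * ((Φ n).filter fun y => y • z n ∈ A m).card := Nat.mul_le_mul_left _ e2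
          _ = (n + 1) * ((Φ n).filter fun y => y • z n ∈ A m).card +
              ((Φ n).filter fun y => y • z n ∈ A m).card := by ring
          _ ≤ _ := Nat.add_le_add_left e3 _
      have e6 : ((n:ℝ) + 1) * (((Φ n).filter fun y => y • z n ∈ B m).card : ℝ) ≤
          ((n:ℝ) + 1) * (((Φ n).filter fun y => y • z n ∈ A m).card : ℝ) + (Φ n).card := by
        exact_mod_cast e5
      simp only [hF]
      have hn0 : (0:ℝ) < (n:ℝ) + 1 := by positivity
      rw [div_add_div _ _ (hcard n).ne' hn0.ne', div_le_div_iff₀ (hcard n) (by positivity)]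
      have := hcard n
      nlinarith
    rw [measureReal_def, measureReal_def] at h1
    exact (ENNReal.toReal_le_toReal (measure_ne_top _ _) (measure_ne_top _ _)).1 h1

end Pool.Agent.Helper277_ZD
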