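import Pool.Agent.Helper277_ZD.Frac
import Pool.Agent.Helper277_DC.Gap

set_option autoImplicit false
set_option linter.unusedSectionVars false

/-!
# Non-amenable groups acting on totally disconnected spaces
-/

namespace Pool.Agent.Helper277_ZD

open Filter Topology Pool.Agent.Helper277_DC

section grp

variable {G : Type} [Group G]

theorem expand_one (hG : NonFolner G) : ∃ (T : Finset G) (c : ℝ), 0 < c ∧ ∀ E : Finset G,
    (1 + c) * (E.card : ℝ) ≤ ({y : G | ∃ t ∈ T, ∃ h ∈ E, y = t * h}.ncard : ℝ) := by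
  classical
  obtain ⟨S, c, hc, hS⟩ := hG
  refine ⟨insert 1 S, c, hc, fun E => ?_⟩
  rcases E.eq_empty_or_nonempty with rfl | hE
  · simp
  obtain ⟨s, hs, hsE⟩ := hS E hE
  have hfin : {y : G | ∃ t ∈ insert 1 S, ∃ h ∈ E, y = t * h}.Finite := by
    refine (((insert 1 S) ×ˢ E).image fun p => p.1 * p.2).finite_toSet.subset ?_
    rintro y ⟨t, ht, h, hh, rfl⟩
    exact Finset.mem_coe.2 (Finset.mem_image.2 ⟨(t, h), Finset.mem_product.2 ⟨ht, hh⟩, rfl⟩)
  have h1 : (E : Set G) ∪ (fun x => s * x) '' {x ∈ (E : Set G) | s * x ∉ E} ⊆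
      {y : G | ∃ t ∈ insert 1 S, ∃ h ∈ E, y = t * h} := by
    rintro y (hy | ⟨x, hx, rfl⟩)
    · exact ⟨1, Finset.mem_insert_self _ _, y, hy, (one_mul y).symm⟩
    · exact ⟨s, Finset.mem_insert_of_mem hs, x, hx.1, rfl⟩
  have h2 := Set.ncard_le_ncard h1 hfin
  have hfin2 : {x ∈ (E : Set G) | s * x ∉ E}.Finite := E.finite_toSet.subset fun x hx => hx.1
  rw [Set.ncard_union_eq (by
    rw [Set.disjoint_left]
    rintro y hy ⟨x, hx, rfl⟩
    exact hx.2 hy) E.finite_toSet (hfin2.image _), Set.ncard_coe_finset,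
    Set.ncard_image_of_injective _ (mul_right_injective s)] at h2
  have h3 : ((E.card : ℝ) + ({x ∈ (E : Set G) | s * x ∉ E}.ncard : ℝ)) ≤
    ({y : G | ∃ t ∈ insert 1 S, ∃ h ∈ E, y = t * h}.ncard : ℝ) := by exact_mod_cast h2
  linarith

theorem expand (hG : NonFolner G) (M : ℕ) : ∃ T : Finset G, ∀ E : Finset G,
    M * E.card ≤ {y : G | ∃ t ∈ T, ∃ h ∈ E, y = t * h}.ncard := by
  classical
  obtain ⟨T, c, hc, hT⟩ := expand_one hG
  have h1 : ∀ n : ℕ, ∃ T : Finset G, ∀ E : Finset G, (1 + c) ^ n * (E.card : ℝ) ≤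
      ({y : G | ∃ t ∈ T, ∃ h ∈ E, y = t * h}.ncard : ℝ) := by
    intro n
    induction n with
    | zero =>
      refine ⟨{1}, fun E => ?_⟩
      have : {y : G | ∃ t ∈ ({1} : Finset G), ∃ h ∈ E, y = t * h} = (E : Set G) := by
        ext y; simp
      rw [this, Set.ncard_coe_finset]
      simp
    | succ n ih =>
      obtain ⟨T', hT'⟩ := ih
      refine ⟨(T ×ˢ T').image fun p => p.1 * p.2, fun E => ?_⟩
      set E' : Finset G := (T' ×ˢ E).image fun p => p.1 * p.2 with hE'
      have e1 : {y : G | ∃ t ∈ T', ∃ h ∈ E, y = t * h} = (E' : Set G) := by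
        ext y
        simp only [hE', Finset.coe_image, Finset.coe_product, Set.mem_ofPred_eq, Set.mem_image,
          Set.mem_prod, Finset.mem_coe, Prod.exists]
        constructor
        · rintro ⟨t, ht, h, hh, rfl⟩
          exact ⟨t, h, ⟨ht, hh⟩, rfl⟩
        · rintro ⟨t, h, ⟨ht, hh⟩, rfl⟩
          exact ⟨t, ht, h, hh, rfl⟩
      have e2 : {y : G | ∃ t ∈ (T ×ˢ T').image fun p => p.1 * p.2, ∃ h ∈ E, y = t * h} =
          {y : G | ∃ t ∈ T, ∃ h ∈ E', y = t * h} := by
        ext y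
        simp only [hE', Finset.mem_image, Finset.mem_product, Set.mem_ofPred_eq, Prod.exists]
        constructor
        · rintro ⟨_, ⟨t, t', ⟨ht, ht'⟩, rfl⟩, h, hh, rfl⟩
          exact ⟨t, ht, t' * h, ⟨t', h, ⟨ht', hh⟩, rfl⟩, mul_assoc _ _ _⟩
        · rintro ⟨t, ht, _, ⟨t', h, ⟨ht', hh⟩, rfl⟩, rfl⟩
          exact ⟨t * t', ⟨t, t', ⟨ht, ht'⟩, rfl⟩, h, hh, (mul_assoc _ _ _).symm⟩
      have e3 := hT' E
      have e4 := hT E'
      rw [e1, Set.ncard_coe_finset] at e3
      rw [e2]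
      refine le_trans ?_ e4
      rw [pow_succ]
      have : (1 + c) * ((1 + c) ^ n * (E.card : ℝ)) ≤ (1 + c) * E'.card :=
        mul_le_mul_of_nonneg_left e3 (by linarith)
      linarith
  obtain ⟨n, hn⟩ := pow_unbounded_of_one_lt (M : ℝ) (show 1 < 1 + c by linarith)
  obtain ⟨T', hT'⟩ := h1 n
  refine ⟨T', fun E => ?_⟩
  have e1 := hT' E
  have e2 : (M : ℝ) * E.card ≤ (1 + c) ^ n * (E.card : ℝ) :=
    mul_le_mul_of_nonneg_right hn.le (Nat.cast_nonneg _)
  exact_mod_cast e2.trans e1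

end grp

variable {G X : Type} [Group G] [TopologicalSpace X] [MulAction G X] [ContinuousConstSMul G X]
  [CompactSpace X] [T2Space X] [TotallyDisconnectedSpace X]

/-- Minimality: the space embeds in finitely many copies of a nonempty clopen set. -/
theorem le_of_minimal {B : Set X} (hB : IsClopen B) (hmin : ∀ x : X, ∃ g : G, g • x ∈ B)
    (A : Set X) : ∃ m : ℕ, 0 < m ∧ Le G (ind A) (mul (Fin m) (ind B)) := by
  classical
  obtain ⟨g, hgl, hg⟩ := lc_select (X := X) (ι := G) (fun x g => g • x ∈ B) hmin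
    (fun g => hB.isOpen.preimage (continuous_const_smul g))
  have hfin := hgl.range_finite
  set D : Finset G := insert 1 hfin.toFinset with hD
  have hgD : ∀ x, g x ∈ D := fun x => Finset.mem_insert_of_mem (hfin.mem_toFinset.2 ⟨x, rfl⟩)
  have hcard : Nat.card D ≤ Nat.card (Fin D.card) := by simp
  refine ⟨D.card, Finset.card_pos.2 ⟨1, Finset.mem_insert_self _ _⟩, ?_⟩
  have h1 : Le G (ind A) (mul D (ind B)) := by
    refine ⟨fun x _ => (g x, ((), ⟨g x, hgD x⟩)), lc_of_ev fun x => ?_, fun x i _ => hg x, ?_⟩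
    · filter_upwards [lc_ev hgl x] with y hy
      funext _
      simp only [hy]
    · intro x i _ x' i' _ e1 e2
      simp only [Prod.mk.injEq, true_and, Subtype.mk.injEq] at e1 e2
      rw [e2] at e1
      exact ⟨smul_left_cancel _ e1, rfl⟩
  exact h1.trans (Le.of_card _ hcard)

/-- From subequivalence of clopen sets to a finite family of pieces. -/
theorem comparison_of_le {A B : Set X} (hA : IsClopen A) (h : Le G (ind A) (ind B)) :
    ∃ (p : ℕ) (W : Fin p → Set X) (t : Fin p → G), (∀ i, IsOpen (W i)) ∧ A ⊆ (⋃ i, W i) ∧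
      (∀ i, (fun x => t i • x) '' W i ⊆ B) ∧
      Pairwise (fun i j => Disjoint ((fun x => t i • x) '' W i) ((fun x => t j • x) '' W j)) := by
  classical
  obtain ⟨φ, hφl, hφb, hφi⟩ := h
  set g : X → G := fun x => (φ x ()).1 with hg
  have hgl : IsLocallyConstant g := hφl.comp fun f => (f ()).1
  have hfin := hgl.range_finite
  set e := Fintype.equivFin hfin.toFinset with he
  refine ⟨_, fun i => A ∩ g ⁻¹' {((e.symm i : hfin.toFinset) : G)}, fun i => (e.symm i : G),
    fun i => hA.isOpen.inter (hgl.isOpen_fiber _), ?_, ?_, ?_⟩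
  · intro x hx
    refine Set.mem_iUnion.2 ⟨e ⟨g x, hfin.mem_toFinset.2 ⟨x, rfl⟩⟩, hx, ?_⟩
    simp
  · rintro i _ ⟨x, ⟨hx, hgx⟩, rfl⟩
    have h1 : g x = (e.symm i : G) := hgx
    beta_reduce
    rw [← h1]
    exact hφb x () hx
  · intro i j hij
    simp only
    rw [Set.disjoint_left]
    rintro _ ⟨x, ⟨hx, hgx⟩, rfl⟩ ⟨y, ⟨hy, hgy⟩, hxy⟩
    have h1 : g x = (e.symm i : G) := hgx
    have h2 : g y = (e.symm j : G) := hgy
    beta_reduce at hxy
    rw [← h1, ← h2] at hxy
    have h3 := (hφi y () hy x () hx hxy rfl).1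
    subst h3
    apply hij
    rw [h1] at h2
    exact e.symm.injective (Subtype.ext h2)

theorem nonam_le (hG : NonFolner G) (hfree : ∀ (g : G) (x : X), g • x = x → g = 1)
    (hN : LCField G X) {B : Set X} (hB : IsClopen B) (hmin : ∀ x : X, ∃ g : G, g • x ∈ B) :
    Le G (ind (Set.univ : Set X)) (ind B) := by
  classical
  obtain ⟨T, hT⟩ := expand hG 3
  have hu : IsLocallyConstant (ind (Set.univ : Set X)) := lc_ind isClopen_univ
  set d : ℕ := 2 * (T.card + 1) with hd
  have h1 : Le G (mul (Fin (d + 1)) (ind (Set.univ : Set X)))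
      (mul (Fin d) (ind (Set.univ : Set X))) := by
    refine le_of_hall hN isClopen_univ isClopen_univ T 1 3 one_pos (fun z E _ => ?_)
      (T.card + 1) 1 (by positivity) one_pos (d + 1) d (by omega) ?_ ?_
    · have := hT E
      simpa using this
    · push_cast [hd]
      linarith
    · push_cast [hd]
      linarith
  obtain ⟨m, hm, h2⟩ := le_of_minimal hB hmin Set.univ
  set s : ℕ := d * m with hs
  have h3 : d * m ≤ 2 ^ s := Nat.lt_two_pow_self.le
  refine pow_cancel hfree hN hu s ?_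
  have h4 : Le G (mul (Fin (3 ^ s)) (ind (Set.univ : Set X)))
      (mul (Fin (d + 3 ^ s)) (ind (Set.univ : Set X))) := Le.of_card _ (by simp)
  have h5 := Le.add_one h1 (3 ^ s)
  have h6 := Le.mul (Fin d) h2
  have h7 : Le G (mul (Fin d) (mul (Fin m) (ind B))) (mul (Fin (2 ^ s)) (ind B)) :=
    Le.mul_mul' (ind B) (by simpa [mul_comm] using h3)
  exact ((h4.trans h5).trans h6).trans h7

end Pool.Agent.Helper277_ZD
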