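import Pool.Agent.Helper277_ZD.Basic

set_option autoImplicit false
set_option linter.unusedSectionVars false

/-!
# Serving all small self-sufficient sets of claimants
-/

namespace Pool.Agent.Helper277_ZD

open Filter Topology

variable {G X : Type} [Group G] [TopologicalSpace X] [MulAction G X] [ContinuousConstSMul G X]
  {I J K : Type}

/-- The target of the claim `k` of the vertex `(x, i)`. -/
def tgt (e : X → I → K → G × J) (x : X) (i : I) (k : K) : X × J :=
  ((e x i k).1 • x, (e x i k).2)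

/-- A self-sufficient set of vertices at `x`. -/
def Obj (e : X → I → K → G × J) (a : X → Set I) (x : X) (P : Finset (G × I)) (β : G × I → K) :
    Prop :=
  (∀ p ∈ P, p.2 ∈ a (p.1 • x)) ∧
  (∀ p ∈ P, ∀ p' ∈ P, tgt e (p.1 • x) p.2 (β p) = tgt e (p'.1 • x) p'.2 (β p') → p = p') ∧
  (∀ p ∈ P, ∀ x' i' k', i' ∈ a x' → tgt e x' i' k' = tgt e (p.1 • x) p.2 (β p) →
    ∃ p' ∈ P, p'.1 • x = x' ∧ p'.2 = i')

/-- A served set of vertices. -/
def Served (e : X → I → K → G × J) (a : X → Set I) (S : X → Set I) (κ : X → I → K) : Prop :=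
  IsLocallyConstant S ∧ IsLocallyConstant κ ∧ (∀ x, S x ⊆ a x) ∧
  (∀ x, ∀ i ∈ S x, ∀ x' i' k', i' ∈ a x' → tgt e x' i' k' = tgt e x i (κ x i) → i' ∈ S x') ∧
  (∀ x i x' i', i ∈ S x → i' ∈ S x' → tgt e x i (κ x i) = tgt e x' i' (κ x' i') →
    x = x' ∧ i = i')

theorem smul_eq_of (hfree : ∀ (g : G) (x : X), g • x = x → g = 1) {g h : G} {x : X}
    (H : g • x = h • x) : g = h := by
  have : (h⁻¹ * g) • x = x := by rw [mul_smul, H, inv_smul_smul]
  have := hfree _ _ this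
  rw [inv_mul_eq_one] at this
  exact this.symm

theorem finite_elts [CompactSpace X] [Finite I] [Finite K] {e : X → I → K → G × J}
    (he : IsLocallyConstant e) : ∃ R : Finset G, ∀ x i k, (e x i k).1 ∈ R := by
  classical
  have h1 := he.range_finite
  have h2 : (⋃ f ∈ Set.range e, ⋃ i : I, ⋃ k : K, ({(f i k).1} : Set G)).Finite := by
    refine Set.Finite.biUnion h1 fun f _ => Set.finite_iUnion fun i => Set.finite_iUnion fun k => ?_
    exact Set.finite_singleton _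
  refine ⟨h2.toFinset, fun x i k => ?_⟩
  rw [Set.Finite.mem_toFinset]
  simp only [Set.mem_iUnion]
  exact ⟨e x, ⟨x, rfl⟩, i, k, rfl⟩

theorem Obj.transfer (hfree : ∀ (g : G) (x : X), g • x = x → g = 1) {e : X → I → K → G × J}
    {a : X → Set I} (H R W : Finset G) (hR : ∀ x i k, (e x i k).1 ∈ R) (hHW : H ⊆ W)
    (hW : ∀ g' ∈ R, ∀ g ∈ R, ∀ h ∈ H, g'⁻¹ * (g * h) ∈ W) {x y : X}
    (ha : ∀ w ∈ W, a (w • y) = a (w • x)) (he : ∀ w ∈ W, e (w • y) = e (w • x))
    {P : Finset (G × I)} (hP : ∀ p ∈ P, p.1 ∈ H) {β : G × I → K} (h : Obj e a x P β) :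
    Obj e a y P β := by
  obtain ⟨h1, h2, h3⟩ := h
  have key : ∀ w ∈ W, ∀ w' ∈ W, ∀ i k i' k', tgt e (w • y) i k = tgt e (w' • y) i' k' →
      tgt e (w • x) i k = tgt e (w' • x) i' k' := by
    intro w hw w' hw' i k i' k' heq
    simp only [tgt, Prod.mk.injEq] at heq ⊢
    rw [he w hw, he w' hw'] at heq
    obtain ⟨e1, e2⟩ := heq
    rw [smul_smul, smul_smul] at e1
    have := smul_eq_of hfree e1
    rw [smul_smul, smul_smul, this]
    exact ⟨rfl, e2⟩
  refine ⟨fun p hp => ?_, fun p hp p' hp' heq => ?_, fun p hp x' i' k' hi' heq => ?_⟩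
  · rw [ha _ (hHW (hP p hp))]
    exact h1 p hp
  · exact h2 p hp p' hp' (key _ (hHW (hP p hp)) _ (hHW (hP p' hp')) _ _ _ _ heq)
  · set r : G := (e x' i' k').1⁻¹ * ((e (p.1 • y) p.2 (β p)).1 * p.1) with hr
    have hrW : r ∈ W := hW _ (hR _ _ _) _ (hR _ _ _) _ (hP p hp)
    have hx' : x' = r • y := by
      have e1 : (e x' i' k').1 • x' = (e (p.1 • y) p.2 (β p)).1 • p.1 • y := congrArg Prod.fst heq
      rw [hr, mul_smul, mul_smul, ← e1, inv_smul_smul]
    clear_value r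
    subst hx'
    have hi : i' ∈ a (r • x) := by rw [← ha r hrW]; exact hi'
    obtain ⟨p', hp', e2, e3⟩ := h3 p hp (r • x) i' k' hi (key _ hrW _ (hHW (hP p hp)) _ _ _ _ heq)
    exact ⟨p', hp', by rw [smul_eq_of hfree e2], e3⟩

section

variable [CompactSpace X] [Finite I] [Finite K]

theorem Obj.ev (hfree : ∀ (g : G) (x : X), g • x = x → g = 1) {e : X → I → K → G × J}
    (he : IsLocallyConstant e) {a : X → Set I} (ha : IsLocallyConstant a) (H : Finset G) (x : X) :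
    ∀ᶠ y in 𝓝 x, ∀ P : Finset (G × I), (∀ p ∈ P, p.1 ∈ H) → ∀ β : G × I → K,
      (Obj e a y P β ↔ Obj e a x P β) := by
  classical
  obtain ⟨R, hR⟩ := finite_elts he
  set W : Finset G := H ∪ ((R ×ˢ R) ×ˢ H).image fun p => p.1.1⁻¹ * (p.1.2 * p.2) with hWdef
  have hHW : H ⊆ W := Finset.subset_union_left
  have hW : ∀ g' ∈ R, ∀ g ∈ R, ∀ h ∈ H, g'⁻¹ * (g * h) ∈ W := fun g' hg' g hg h hh =>
    Finset.mem_union_right _ (Finset.mem_image.2 ⟨((g', g), h), by simp [hg', hg, hh], rfl⟩)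
  filter_upwards [ev_smul_finset he W x, ev_smul_finset ha W x] with y hy1 hy2 P hP β
  constructor
  · exact Obj.transfer hfree H R W hR hHW hW (fun w hw => (hy2 w hw).symm)
      (fun w hw => (hy1 w hw).symm) hP
  · exact Obj.transfer hfree H R W hR hHW hW hy2 hy1 hP

variable [T2Space X] [TotallyDisconnectedSpace X]

theorem ol_step [Nonempty K] (hfree : ∀ (g : G) (x : X), g • x = x → g = 1)
    {e : X → I → K → G × J}
    (he : IsLocallyConstant e) {a : X → Set I} (ha : IsLocallyConstant a) (H : Finset G)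
    {χ : X → X} (hχl : IsLocallyConstant χ)
    (hχ : ∀ h ∈ H, ∀ h' ∈ H, ∀ z z', χ z = χ z' → h • z = h' • z' → h = h' ∧ z = z')
    {S : X → Set I} {κ : X → I → K} (hS : Served e a S κ) (P : Finset (G × I))
    (hP : ∀ p ∈ P, p.1 ∈ H) (ξ : X) :
    ∃ S' κ', Served e a S' κ' ∧ (∀ x, S x ⊆ S' x) ∧
      ∀ x, χ x = ξ → (∃ β, Obj e a x P β) → ∀ p ∈ P, p.2 ∈ S' (p.1 • x) := by
  classical
  obtain ⟨hSl, hκl, hSa, hi1, hi2⟩ := hS
  set B : X → Prop := fun z => χ z = ξ ∧ ∃ β, Obj e a z P β with hB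
  have hBl : IsLocallyConstant B := lc_of_ev fun x => by
    filter_upwards [Obj.ev hfree he ha H x, lc_ev hχl x] with y hy1 hy2
    simp only [hB, hy2, eq_iff_iff]
    exact and_congr_right fun _ => exists_congr fun β => hy1 P hP β
  obtain ⟨b, hbl, hb⟩ := lc_select (X := X) (ι := G × I → K)
    (fun z β => (∃ β, Obj e a z P β) → Obj e a z P β)
    (fun z => by
      by_cases h : ∃ β, Obj e a z P β
      · obtain ⟨β, hβ⟩ := h
        exact ⟨β, fun _ => hβ⟩
      · exact ⟨fun _ => Classical.arbitrary K, fun h' => (h h').elim⟩)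
    (fun β => isOpen_of_ev fun x hx => by
      filter_upwards [Obj.ev hfree he ha H x] with y hy
      simp only [Set.mem_ofPred_eq] at hx ⊢
      rw [hy P hP β]
      rintro ⟨β', hβ'⟩
      exact hx ⟨β', (hy P hP β').1 hβ'⟩)
  have hBo : ∀ z, B z → Obj e a z P (b z) := fun z hz => hb z hz.2
  -- uniqueness of the representation
  have huniq : ∀ x, ∀ p ∈ P, ∀ p' ∈ P, p.2 = p'.2 → B (p.1⁻¹ • x) → B (p'.1⁻¹ • x) → p = p' := by
    intro x p hp p' hp' h2 hb1 hb2
    have := hχ p.1 (hP p hp) p'.1 (hP p' hp') _ _ (hb1.1.trans hb2.1.symm) (by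
      rw [smul_inv_smul, smul_inv_smul])
    exact Prod.ext this.1 h2
  have hBev : ∀ x, ∀ᶠ y in 𝓝 x, ∀ p ∈ P, B (p.1⁻¹ • y) = B (p.1⁻¹ • x) := fun x => by
    rw [Filter.eventually_all_finset]
    exact fun p _ => ev_smul hBl _ x
  have hbev : ∀ x, ∀ᶠ y in 𝓝 x, ∀ p ∈ P, b (p.1⁻¹ • y) = b (p.1⁻¹ • x) := fun x => by
    rw [Filter.eventually_all_finset]
    exact fun p _ => ev_smul hbl _ x
  obtain ⟨κ', hκ'l, hκ'⟩ := lc_select (X := X) (ι := I → K)
    (fun x k' => ∀ i, (i ∈ S x → k' i = κ x i) ∧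
      (i ∉ S x → ∀ p ∈ P, p.2 = i → B (p.1⁻¹ • x) → k' i = b (p.1⁻¹ • x) p))
    (fun x => by
      refine ⟨fun i => if i ∈ S x then κ x i else
        if h : ∃ p ∈ P, p.2 = i ∧ B (p.1⁻¹ • x) then b (h.choose.1⁻¹ • x) h.choose else κ x i,
        fun i => ⟨fun hi => by simp [hi], fun hi p hp hpi hBp => ?_⟩⟩
      have h : ∃ p ∈ P, p.2 = i ∧ B (p.1⁻¹ • x) := ⟨p, hp, hpi, hBp⟩
      have hc : h.choose = p :=
        huniq x _ h.choose_spec.1 p hp (h.choose_spec.2.1.trans hpi.symm) h.choose_spec.2.2 hBp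
      beta_reduce
      rw [if_neg hi, dif_pos h, hc])
    (fun k' => isOpen_of_ev fun x hx => by
      filter_upwards [lc_ev hSl x, lc_ev hκl x, hBev x, hbev x] with y hy1 hy2 hy3 hy4
      simp only [Set.mem_ofPred_eq] at hx ⊢
      intro i
      rw [hy1, hy2]
      refine ⟨(hx i).1, fun hi p hp hpi hBp => ?_⟩
      rw [hy4 p hp]
      exact (hx i).2 hi p hp hpi (by rw [← hy3 p hp]; exact hBp))
  set S' : X → Set I := fun x => {i | i ∈ S x ∨ ∃ p ∈ P, p.2 = i ∧ B (p.1⁻¹ • x)} with hS'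
  have hS'a : ∀ x, S' x ⊆ a x := by
    intro x i hi
    rcases hi with hi | ⟨p, hp, rfl, hBp⟩
    · exact hSa x hi
    · have := (hBo _ hBp).1 p hp
      rwa [smul_inv_smul] at this
  refine ⟨S', κ', ⟨lc_of_ev fun x => ?_, hκ'l, hS'a, ?_, ?_⟩, fun x i hi => Or.inl hi, ?_⟩
  · filter_upwards [lc_ev hSl x, hBev x] with y hy1 hy2
    ext i
    simp only [hS', Set.mem_ofPred_eq, hy1]
    refine or_congr_right ⟨?_, ?_⟩
    · rintro ⟨p, hp, h1, h2⟩
      exact ⟨p, hp, h1, by rw [← hy2 p hp]; exact h2⟩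
    · rintro ⟨p, hp, h1, h2⟩
      exact ⟨p, hp, h1, by rw [hy2 p hp]; exact h2⟩
  · intro x i hi x' i' k' hi' heq
    by_cases his : i ∈ S x
    · rw [(hκ' x i).1 his] at heq
      exact Or.inl (hi1 x i his x' i' k' hi' heq)
    · rcases hi with hi | ⟨p, hp, hpi, hBp⟩
      · exact (his hi).elim
      · rw [(hκ' x i).2 his p hp hpi hBp] at heq
        obtain ⟨p', hp', h1, h2⟩ := (hBo _ hBp).2.2 p hp x' i' k' hi' (by
          rw [smul_inv_smul, hpi]; exact heq)
        refine Or.inr ⟨p', hp', h2, ?_⟩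
        rw [← h1, inv_smul_smul]
        exact hBp
  · intro x i x' i' hi hi' heq
    by_cases his : i ∈ S x
    · by_cases his' : i' ∈ S x'
      · rw [(hκ' x i).1 his, (hκ' x' i').1 his'] at heq
        exact hi2 x i x' i' his his' heq
      · rw [(hκ' x i).1 his] at heq
        exact (his' (hi1 x i his x' i' _ (hS'a _ hi') heq.symm)).elim
    · by_cases his' : i' ∈ S x'
      · rw [(hκ' x' i').1 his'] at heq
        exact (his (hi1 x' i' his' x i _ (hS'a _ hi) heq)).elim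
      · rcases hi with hi | ⟨p, hp, hpi, hBp⟩
        · exact (his hi).elim
        rcases hi' with hi' | ⟨p', hp', hpi', hBp'⟩
        · exact (his' hi').elim
        rw [(hκ' x i).2 his p hp hpi hBp, (hκ' x' i').2 his' p' hp' hpi' hBp'] at heq
        have hi'a : i' ∈ a x' := hS'a x' (Or.inr ⟨p', hp', hpi', hBp'⟩)
        obtain ⟨q, hq, h1, h2⟩ := (hBo _ hBp).2.2 p hp x' i' _ hi'a (by
          rw [smul_inv_smul, hpi]; exact heq.symm)
        obtain ⟨h3, h4⟩ := hχ q.1 (hP q hq) p'.1 (hP p' hp') _ _ (hBp.1.trans hBp'.1.symm) (by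
          rw [h1, smul_inv_smul])
        have hqp' : q = p' := Prod.ext h3 (h2.trans hpi'.symm)
        have h5 : p = p' := (hBo _ hBp).2.1 p hp p' hp' (by
          have e1 : p'.1 • p.1⁻¹ • x = x' := by rw [h4, smul_inv_smul]
          rw [smul_inv_smul, hpi, hpi', e1, heq, ← h4])
        subst h5
        refine ⟨?_, hpi.symm.trans hpi'⟩
        have : p.1 • p.1⁻¹ • x = p.1 • p.1⁻¹ • x' := by rw [h4]
        rwa [smul_inv_smul, smul_inv_smul] at this
  · intro x hx hβ p hp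
    exact Or.inr ⟨p, hp, rfl, by rw [inv_smul_smul]; exact ⟨hx, hβ⟩⟩

theorem ol [Nonempty K] (hfree : ∀ (g : G) (x : X), g • x = x → g = 1)
    {e : X → I → K → G × J}
    (he : IsLocallyConstant e) {a : X → Set I} (ha : IsLocallyConstant a) (H : Finset G) :
    ∃ S κ, Served e a S κ ∧ ∀ x (P : Finset (G × I)) (β : G × I → K), (∀ p ∈ P, p.1 ∈ H) →
      Obj e a x P β → ∀ p ∈ P, p.2 ∈ S (p.1 • x) := by
  classical
  have := Fintype.ofFinite I
  obtain ⟨χ, hχl, hχ⟩ := lc_colour (G := G) (X := X) hfree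
    (((H ×ˢ H).image fun p => p.2⁻¹ * p.1).erase 1) (by simp)
  have hχ' : ∀ h ∈ H, ∀ h' ∈ H, ∀ z z', χ z = χ z' → h • z = h' • z' → h = h' ∧ z = z' := by
    intro h hh h' hh' z z' hc heq
    have e1 : (h'⁻¹ * h) • z = z' := by rw [mul_smul, heq, inv_smul_smul]
    have e2 : h'⁻¹ * h = 1 := by
      by_contra hne
      refine hχ (h'⁻¹ * h) (Finset.mem_erase.2 ⟨hne, Finset.mem_image.2 ⟨(h, h'), by
        simp [hh, hh'], rfl⟩⟩) z ?_
      rw [e1, hc]
    rw [e2, one_smul] at e1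
    exact ⟨(inv_mul_eq_one.1 e2).symm, e1⟩
  have main : ∀ l : List (Finset (G × I) × X), (∀ c ∈ l, ∀ p ∈ c.1, p.1 ∈ H) →
      ∃ S κ, Served e a S κ ∧ ∀ c ∈ l, ∀ x, χ x = c.2 → (∃ β, Obj e a x c.1 β) →
        ∀ p ∈ c.1, p.2 ∈ S (p.1 • x) := by
    intro l hl
    induction l with
    | nil =>
      refine ⟨fun _ => ∅, fun _ _ => Classical.arbitrary K, ⟨IsLocallyConstant.const _,
        IsLocallyConstant.const _, fun x => Set.empty_subset _, fun x i hi => hi.elim,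
        fun x i _ _ hi => hi.elim⟩, fun c hc => by simp at hc⟩
    | cons c l ih =>
      obtain ⟨S, κ, hS, hfull⟩ := ih fun c hc => hl c (List.mem_cons_of_mem _ hc)
      obtain ⟨S', κ', hS', hsub, hx'⟩ := ol_step hfree he ha H hχl hχ' hS c.1
        (hl c List.mem_cons_self) c.2
      refine ⟨S', κ', hS', fun c' hc' x hx hβ p hp => ?_⟩
      rcases List.mem_cons.1 hc' with rfl | hc''
      · exact hx' x hx hβ p hp
      · exact hsub _ (hfull c' hc'' x hx hβ p hp)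
  obtain ⟨S, κ, hS, hfull⟩ := main
    (((H ×ˢ (Finset.univ : Finset I)).powerset ×ˢ hχl.range_finite.toFinset).toList) (by
      intro c hc p hp
      rw [Finset.mem_toList, Finset.mem_product, Finset.mem_powerset] at hc
      exact (Finset.mem_product.1 (hc.1 hp)).1)
  refine ⟨S, κ, hS, fun x P β hP hO p hp => ?_⟩
  refine hfull (P, χ x) ?_ x rfl ⟨β, hO⟩ p hp
  rw [Finset.mem_toList, Finset.mem_product, Finset.mem_powerset]
  refine ⟨fun q hq => Finset.mem_product.2 ⟨hP q hq, Finset.mem_univ _⟩, ?_⟩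
  rw [Set.Finite.mem_toFinset]
  exact ⟨x, rfl⟩

end

end Pool.Agent.Helper277_ZD
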