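import Pool.Agent.Helper277_ZD.Halving
import Pool.Agent.Helper277_ZD.NonAm

set_option autoImplicit false
set_option linter.unusedSectionVars false

/-!
# Dividing by powers of two, and comparison from multiples
-/

namespace Pool.Agent.Helper277_ZD

open Filter Topology

variable {G X : Type} [Group G] [TopologicalSpace X] [MulAction G X] [ContinuousConstSMul G X]
  {I J : Type} [CompactSpace X] [T2Space X] [TotallyDisconnectedSpace X]

theorem Le.of_sub {a b : X → Set I} (h : ∀ x, a x ⊆ b x) : Le G a b :=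
  Le.of_inj id Function.injective_id fun x _ hi => h x hi

theorem Le.of_lc {a : X → Set I} {b : X → Set J} (σ : X → I → J) (hσ : IsLocallyConstant σ)
    (h1 : ∀ x, ∀ i ∈ a x, σ x i ∈ b x)
    (h2 : ∀ x, ∀ i ∈ a x, ∀ i' ∈ a x, σ x i = σ x i' → i = i') : Le G a b := by
  refine ⟨fun x i => (1, σ x i), hσ.comp fun (f : I → J) (i : I) => ((1 : G), f i),
    fun x i hi => ?_, ?_⟩
  · beta_reduce
    rw [one_smul]
    exact h1 x i hi
  · intro x i hi x' i' hi' e1 e2
    beta_reduce at e1 e2
    rw [one_smul, one_smul] at e1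
    subst e1
    exact ⟨rfl, h2 x i hi i' hi' e2⟩

theorem lc_diff {a b : X → Set I} (ha : IsLocallyConstant a) (hb : IsLocallyConstant b) :
    IsLocallyConstant fun x => a x \ b x := (ha.prodMk hb).comp fun p => p.1 \ p.2

/-- approximate division by `2 ^ s` -/
theorem divide (hfree : ∀ (g : G) (x : X), g • x = x → g = 1) (s : ℕ) :
    ∀ {I : Type} [Finite I] {a : X → Set I} {b : X → Set J}, IsLocallyConstant a →
    Le G (mul (Fin (2 ^ s)) a) (mul (Fin (2 ^ s)) b) → ∀ l : ℕ,
    ∃ C : X → Set I, IsLocallyConstant C ∧ (∀ x, C x ⊆ a x) ∧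
      Le G (fun x => a x \ C x) b ∧ Le G (mul (Fin l) C) (mul (Fin (2 ^ s)) a) := by
  classical
  induction s with
  | zero =>
    intro I _ a b ha h l
    refine ⟨fun _ => ∅, IsLocallyConstant.const _, fun _ => Set.empty_subset _, ?_, ?_⟩
    · have h1 : Le G (fun x => a x \ ∅) (mul (Fin (2 ^ 0)) a) :=
        Le.of_inj (fun i => (i, ⟨0, by simp⟩)) (fun i j hij => (Prod.ext_iff.1 hij).1)
          fun x i hi => hi.1
      have h2 : Le G (mul (Fin (2 ^ 0)) b) b :=
        Le.of_inj (fun p => p.1) (fun p q hpq => by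
          refine Prod.ext hpq ?_
          have hp := p.2.2
          have hq := q.2.2
          simp only [pow_zero] at hp hq
          ext
          omega) fun x p hp => hp
      exact (h1.trans h).trans h2
    · exact ⟨fun _ p => (1, (p.1, ⟨0, by simp⟩)), IsLocallyConstant.const _,
        fun x p hp => hp.elim, fun x p hp => hp.elim⟩
  | succ s ih =>
    intro I _ a b ha h l
    have h1 : Le G (mul (Fin 2) (mul (Fin (2 ^ s)) a)) (mul (Fin (2 ^ (s + 1))) a) :=
      Le.mul_mul' a (by simp [pow_succ])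
    have h2 : Le G (mul (Fin (2 ^ (s + 1))) b) (mul (Fin 2) (mul (Fin (2 ^ s)) b)) :=
      Le.mul_mul b (by simp [pow_succ])
    obtain ⟨M, hMl, hMa, hM1, hM2⟩ := halving hfree (lc_mul ha) ((h1.trans h).trans h2) l
    set C1 : X → Set I := fun x => {i | ∃ k, (i, k) ∈ M x} with hC1
    have hC1l : IsLocallyConstant C1 := hMl.comp fun m => {i | ∃ k, (i, k) ∈ m}
    have hC1a : ∀ x, C1 x ⊆ a x := fun x i ⟨k, hk⟩ => hMa x hk
    have hC1m : ∀ x i, i ∈ C1 x ↔ ∃ k, (i, k) ∈ M x := fun x i => Iff.rfl
    clear_value C1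
    have h3 : Le G (mul (Fin (2 ^ s)) fun x => a x \ C1 x) (mul (Fin (2 ^ s)) b) := by
      refine (Le.of_sub ?_).trans hM1
      rintro x ⟨i, k⟩ ⟨hi1, hi2⟩
      exact ⟨hi1, fun hk => hi2 ((hC1m x i).2 ⟨k, hk⟩)⟩
    obtain ⟨C2, hC2l, hC2a, hC21, hC22⟩ := ih (lc_diff ha hC1l) h3 l
    refine ⟨fun x => C1 x ∪ C2 x, (hC1l.prodMk hC2l).comp fun p => p.1 ∪ p.2,
      fun x i hi => ?_, ?_, ?_⟩
    · rcases hi with hi | hi
      · exact hC1a x hi
      · exact (hC2a x hi).1
    · refine (Le.of_sub ?_).trans hC21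
      intro x i hi
      exact ⟨⟨hi.1, fun h => hi.2 (Or.inl h)⟩, fun h => hi.2 (Or.inr h)⟩
    · have h4 : Le G (mul (Fin l) fun x => C1 x ∪ C2 x)
          (sum (mul (Fin l) C1) (mul (Fin l) C2)) := by
        refine Le.of_lc (fun x p => if p.1 ∈ C1 x then Sum.inl p else Sum.inr p)
          (hC1l.comp fun (c : Set I) (p : I × Fin l) => if p.1 ∈ c then Sum.inl p else Sum.inr p)
          ?_ ?_
        · intro x p hp
          beta_reduce
          split_ifs with h
          · exact h
          · rcases hp with hp | hp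
            · exact (h hp).elim
            · exact hp
        · intro x p _ p' _ heq
          beta_reduce at heq
          split_ifs at heq with h5 h6 h6
          · exact Sum.inl.inj heq
          · exact Sum.inr.inj heq
      obtain ⟨k, hkl, hk⟩ := lc_select (X := X) (ι := I → Fin (2 ^ s))
        (fun x k => ∀ i ∈ C1 x, (i, k i) ∈ M x)
        (fun x => by
          refine ⟨fun i => if hi : ∃ k, (i, k) ∈ M x then hi.choose else ⟨0, by positivity⟩,
            fun i hi => ?_⟩
          have hi' := (hC1m x i).1 hi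
          beta_reduce
          rw [dif_pos hi']
          exact hi'.choose_spec)
        (fun k => isOpen_of_ev fun x hx => by
          filter_upwards [lc_ev hMl x, lc_ev hC1l x] with y hy1 hy2
          simp only [Set.mem_ofPred_eq] at hx ⊢
          rw [hy1, hy2]
          exact hx)
      have h5 : Le G C1 M := Le.of_lc (fun x i => (i, k x i))
        (hkl.comp fun (f : I → Fin (2 ^ s)) (i : I) => (i, f i)) (fun x i hi => hk x i hi)
        (fun x i _ i' _ heq => (Prod.ext_iff.1 heq).1)
      have h6 : Le G (mul (Fin l) C1) (mul (Fin (2 ^ s)) a) := (h5.mul (Fin l)).trans hM2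
      have h7 : Le G (mul (Fin l) C2) (mul (Fin (2 ^ s)) a) :=
        hC22.trans (Le.mul _ (Le.of_sub fun x i hi => hi.1))
      have h8 : Le G (sum (mul (Fin (2 ^ s)) a) (mul (Fin (2 ^ s)) a))
          (mul (Fin (2 ^ (s + 1))) a) := by
        have e1 : 2 ^ s + 2 ^ s = 2 ^ (s + 1) := by rw [pow_succ]; ring
        refine Le.of_inj (Sum.elim (fun p => (p.1, Fin.cast e1 (Fin.castAdd (2 ^ s) p.2)))
          (fun p => (p.1, Fin.cast e1 (Fin.natAdd (2 ^ s) p.2)))) ?_ ?_
        · rintro (p | p) (q | q) hpq <;>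
            simp only [Sum.elim_inl, Sum.elim_inr, Prod.mk.injEq] at hpq
          · have := Fin.castAdd_injective _ _ (Fin.cast_injective _ hpq.2)
            rw [Prod.ext hpq.1 this]
          · exfalso
            have := congrArg Fin.val hpq.2
            simp only [Fin.val_cast, Fin.val_castAdd, Fin.val_natAdd] at this
            have := p.2.2
            omega
          · exfalso
            have := congrArg Fin.val hpq.2
            simp only [Fin.val_cast, Fin.val_castAdd, Fin.val_natAdd] at this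
            have := q.2.2
            omega
          · have := Fin.natAdd_injective _ _ (Fin.cast_injective _ hpq.2)
            rw [Prod.ext hpq.1 this]
        · rintro x (p | p) hp <;> exact hp
      exact (h4.trans (Le.sum h6 h7)).trans h8

/-- Comparison from an inequality of multiples with some room `B₀` left. -/
theorem le_of_multiple (hfree : ∀ (g : G) (x : X), g • x = x → g = 1) (hN : LCField G X)
    {A B B₀ : Set X} (hA : IsClopen A) (hB₀ : IsClopen B₀)
    (hdisj : Disjoint B B₀) (hmin : ∀ x : X, ∃ g : G, g • x ∈ B₀) (s : ℕ)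
    (h : Le G (mul (Fin (2 ^ s)) (ind A)) (mul (Fin (2 ^ s)) (ind B))) :
    Le G (ind A) (ind (B ∪ B₀)) := by
  classical
  obtain ⟨m, hm, h1⟩ := le_of_minimal (G := G) hB₀ hmin A
  obtain ⟨t, ht⟩ : ∃ t : ℕ, 2 ^ s * m ≤ 2 ^ t := ⟨2 ^ s * m, Nat.lt_two_pow_self.le⟩
  obtain ⟨C, hCl, hCA, hC1, hC2⟩ := divide hfree s (lc_ind hA) h (3 ^ t)
  have h2 : Le G C (ind B₀) := by
    refine pow_cancel hfree hN hCl t ?_
    refine hC2.trans ((h1.mul (Fin (2 ^ s))).trans ?_)
    exact Le.mul_mul' (ind B₀) (by simpa [mul_comm] using ht)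
  have h3 : Le G (ind A) (sum (fun x => ind A x \ C x) C) := by
    refine Le.of_lc (fun x u => if u ∈ C x then Sum.inr u else Sum.inl u)
      (hCl.comp fun (c : Set Unit) (u : Unit) => if u ∈ c then Sum.inr u else Sum.inl u) ?_ ?_
    · intro x u hu
      beta_reduce
      split_ifs with h
      · exact h
      · exact ⟨hu, h⟩
    · intro x u _ u' _ _
      rfl
  have h4 : Le G (sum (ind B) (ind B₀)) (ind (B ∪ B₀)) := by
    refine ⟨fun _ _ => (1, ()), IsLocallyConstant.const _, ?_, ?_⟩
    · rintro x (u | u) hu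
      · beta_reduce
        rw [one_smul]
        exact Or.inl hu
      · beta_reduce
        rw [one_smul]
        exact Or.inr hu
    · rintro x (u | u) hu x' (u' | u') hu' e1 - <;> beta_reduce at e1 <;>
        rw [one_smul, one_smul] at e1 <;> subst e1
      · exact ⟨rfl, rfl⟩
      · exact (Set.disjoint_left.1 hdisj hu hu').elim
      · exact (Set.disjoint_left.1 hdisj hu' hu).elim
      · exact ⟨rfl, rfl⟩
  exact (h3.trans (Le.sum hC1 h2)).trans h4

end Pool.Agent.Helper277_ZD
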