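import Pool.Agent.Helper277_ZD.Measure

set_option autoImplicit false
set_option linter.unusedSectionVars false

/-!
# Comparison on totally disconnected spaces
-/

namespace Pool.Agent.Helper277_ZD

open Filter Topology MeasureTheory

variable {G X : Type} [Group G] [TopologicalSpace X] [MulAction G X] [ContinuousConstSMul G X]
  [CompactSpace X] [TopologicalSpace.MetrizableSpace X] [TotallyDisconnectedSpace X]

theorem exists_clopen_between {Z W : Set X} (hZ : IsClosed Z) (hW : IsOpen W) (h : Z ⊆ W) :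
    ∃ B : Set X, IsClopen B ∧ Z ⊆ B ∧ B ⊆ W := by
  have hsc : SecondCountableTopology X := by
    let := TopologicalSpace.metrizableSpaceMetric X
    infer_instance
  obtain ⟨E, hE, hEm, hEW⟩ := exists_clopen_seq hW
  obtain ⟨n, hn⟩ := hZ.isCompact.elim_directed_cover E (fun n => (hE n).isOpen) (by rw [hEW]; exact h)
    (directed_of_isDirected_le hEm)
  exact ⟨E n, hE n, hn, by rw [← hEW]; exact Set.subset_iUnion E n⟩

variable [MeasurableSpace X] [BorelSpace X]

/-- Comparison on a totally disconnected compact metrisable space, in a form adapted to extensions: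
`K` closed, `O` open, `Z ⊆ O` closed and small. -/
theorem zero_dim_comparison [Countable G] (hfree : ∀ (g : G) (x : X), g • x = x → g = 1)
    (hN : LCField G X) {K O Z : Set X} (hK : IsClosed K) (hO : IsOpen O) (hZ : IsClosed Z)
    (hZO : Z ⊆ O)
    (hmin : ∀ B : Set X, IsClopen B → Z ⊆ B → ∀ x : X, ∃ g : G, g • x ∈ B)
    (hsyn : ∀ x : X, ∃ g : G, g • x ∈ O \ Z)
    (hμ : ∀ μ : Measure X, IsProbabilityMeasure μ →
      (∀ (g : G) (s : Set X), MeasurableSet s → μ ((fun x => g • x) ⁻¹' s) = μ s) →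
      μ K < μ (O \ Z)) :
    ∃ A B : Set X, IsClopen A ∧ IsClopen B ∧ K ⊆ A ∧ B ⊆ O ∧ Le G (ind A) (ind B) := by
  classical
  have hsc : SecondCountableTopology X := by
    let := TopologicalSpace.metrizableSpaceMetric X
    infer_instance
  have hOZ : IsOpen (O \ Z) := hO.sdiff hZ
  obtain ⟨E, hE, hEm, hEK⟩ := exists_clopen_seq hK.isOpen_compl
  obtain ⟨B, hB, hBm, hBO⟩ := exists_clopen_seq hOZ
  -- syndeticity
  obtain ⟨n₀, D, hD⟩ : ∃ n₀ : ℕ, ∃ D : Finset G, ∀ x : X, ∃ d ∈ D, d • x ∈ B n₀ := by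
    have hcov : (Set.univ : Set X) ⊆ ⋃ p : G × ℕ, (fun x => p.1 • x) ⁻¹' (B p.2) := by
      intro x _
      obtain ⟨g, hg⟩ := hsyn x
      rw [← hBO] at hg
      obtain ⟨n, hn⟩ := Set.mem_iUnion.1 hg
      exact Set.mem_iUnion.2 ⟨(g, n), hn⟩
    obtain ⟨t, ht⟩ := isCompact_univ.elim_finite_subcover _
      (fun p : G × ℕ => (hB p.2).isOpen.preimage (continuous_const_smul p.1)) hcov
    refine ⟨t.sup fun p => p.2, t.image fun p => p.1, fun x => ?_⟩
    obtain ⟨p, hp, hx⟩ := Set.mem_iUnion₂.1 (ht (Set.mem_univ x))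
    exact ⟨p.1, Finset.mem_image.2 ⟨p, hp, rfl⟩,
      hBm (Finset.le_sup (f := fun p : G × ℕ => p.2) hp) hx⟩
  set A' : ℕ → Set X := fun n => (E (n + n₀))ᶜ with hA'
  set B' : ℕ → Set X := fun n => B (n + n₀) with hB'
  have hA'c : ∀ n, IsClopen (A' n) := fun n => (hE _).compl
  have hB'c : ∀ n, IsClopen (B' n) := fun n => hB _
  have hA'm : Antitone A' := fun n m hnm => Set.compl_subset_compl.2 (hEm (by omega))
  have hB'm : Monotone B' := fun n m hnm => hBm (by omega)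
  have hKA : ∀ n, K ⊆ A' n := by
    intro n x hx hxE
    have : x ∈ Kᶜ := by rw [← hEK]; exact Set.mem_iUnion.2 ⟨_, hxE⟩
    exact this hx
  have hAK : ⋂ n, A' n = K := by
    refine Set.Subset.antisymm ?_ (Set.subset_iInter hKA)
    intro x hx
    by_contra hxK
    have h1 : x ∈ ⋃ n, E n := by rw [hEK]; exact hxK
    obtain ⟨n, hn⟩ := Set.mem_iUnion.1 h1
    exact Set.mem_iInter.1 hx n (hEm (by omega) hn)
  have hB'O : ⋃ n, B' n = O \ Z := by
    rw [← hBO]
    refine Set.Subset.antisymm (Set.iUnion_subset fun n => Set.subset_iUnion B _) ?_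
    exact Set.iUnion_subset fun n => (hBm (by omega : n ≤ n + n₀)).trans (Set.subset_iUnion B' n)
  have hD' : ∀ n (x : X), ∃ d ∈ D, d • x ∈ B' n := fun n x => by
    obtain ⟨d, hd, hdx⟩ := hD x
    exact ⟨d, hd, hBm (by omega) hdx⟩
  -- the orbitwise Hall condition
  have hall : ∃ n : ℕ, ∃ T : Finset G, ∃ q : ℕ, 0 < q ∧ ∀ z : X, ∀ E : Finset G,
      (∀ h ∈ E, h • z ∈ A' n) →
      (q + 1) * E.card ≤ q * {y : G | (∃ t ∈ T, ∃ h ∈ E, y = t * h) ∧ y • z ∈ B' n}.ncard := by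
    by_contra hcon
    push Not at hcon
    obtain ⟨μ, hμp, hμi, hμB⟩ := exists_inv_measure (G := G) A' B' hA'c hB'c hA'm hB'm
      (fun S hS ε hε n => by
        obtain ⟨z, Φ, h1, h2, h3⟩ := folner_of_fail D (hD' n) (hcon n) S hS ε hε (n + 1)
          (Nat.succ_pos n)
        exact ⟨z, Φ, h1, h2, h3⟩)
    refine absurd (hμ μ hμp hμi) (not_lt.2 ?_)
    rw [← hB'O, hB'm.measure_iUnion, ← hAK,
      hA'm.measure_iInter (fun n => (hA'c n).isOpen.measurableSet.nullMeasurableSet)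
        ⟨0, measure_ne_top _ _⟩]
    refine iSup_le fun n => le_iInf fun m => ?_
    calc μ (B' n) ≤ μ (B' (max n m)) := measure_mono (hB'm (le_max_left _ _))
      _ ≤ μ (A' (max n m)) := hμB _
      _ ≤ μ (A' m) := measure_mono (hA'm (le_max_right _ _))
  obtain ⟨n, T, q, hq, hall⟩ := hall
  obtain ⟨B₀, hB₀, hZB₀, hB₀W⟩ := exists_clopen_between hZ
    (hO.sdiff (hB'c n).isClosed) (fun x hx => ⟨hZO hx, fun hxB => by
      have : x ∈ O \ Z := by rw [← hB'O]; exact Set.mem_iUnion.2 ⟨n, hxB⟩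
      exact this.2 hx⟩)
  -- multiples
  have hq' : (0:ℝ) < q := by exact_mod_cast hq
  obtain ⟨s, hs⟩ : ∃ s : ℕ, (T.card : ℝ) * (2 * q + 1) ≤ 2 ^ s := by
    obtain ⟨s, hs⟩ := pow_unbounded_of_one_lt ((T.card : ℝ) * (2 * q + 1)) (one_lt_two)
    exact ⟨s, hs.le⟩
  set Λ : ℝ := 2 ^ s * (2 * q) / (2 * q + 1) with hΛ
  have hΛ0 : 0 ≤ Λ := by positivity
  have h1 : Le G (mul (Fin (2 ^ s)) (ind (A' n))) (mul (Fin (2 ^ s)) (ind (B' n))) := by
    refine le_of_hall hN (hA'c n) (hB'c n) T q (q + 1) hq hall Λ (1 / (2 * q)) hΛ0 (by positivity)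
      (2 ^ s) (2 ^ s) (by positivity) ?_ ?_
    · push_cast
      have e1 : Λ * ((q + 1) / q) = 2 ^ s + 2 ^ s / (2 * q + 1) := by
        rw [hΛ]
        field_simp
        ring
      have e2 : (T.card : ℝ) ≤ 2 ^ s / (2 * q + 1) := by
        rw [le_div_iff₀ (by positivity)]
        exact hs
      rw [e1]
      linarith
    · push_cast
      have e1 : Λ * (1 + 1 / (2 * q)) = 2 ^ s := by
        rw [hΛ]
        field_simp
      exact e1.le
  have h2 := le_of_multiple hfree hN (hA'c n) hB₀ (B := B' n) (by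
    rw [Set.disjoint_left]
    intro x hx hx'
    exact (hB₀W hx').2 hx) (hmin B₀ hB₀ hZB₀) s h1
  refine ⟨A' n, B' n ∪ B₀, hA'c n, (hB'c n).union hB₀, hKA n, ?_, h2⟩
  refine Set.union_subset (fun x hx => ?_) (fun x hx => (hB₀W hx).1)
  have : x ∈ O \ Z := by rw [← hB'O]; exact Set.mem_iUnion.2 ⟨n, hx⟩
  exact this.1

end Pool.Agent.Helper277_ZD
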