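import Pool.Agent.Helper277_ZD.Frac

set_option autoImplicit false
set_option linter.unusedSectionVars false

/-!
# Approximate halving

If `2 a ≤ 2 b` then `a \ M ≤ b` for a clopen multiset `M ⊆ a` with `ℓ M ≤ a`.
-/

namespace Pool.Agent.Helper277_ZD

open Filter Topology

variable {G X : Type} [Group G] [TopologicalSpace X] [MulAction G X] [ContinuousConstSMul G X]
  {I J : Type}

/-- Local relations between vertices. -/
def LocRel (G : Type) {X I : Type} [Group G] [TopologicalSpace X] [MulAction G X]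
    (Rel : X × I → X × I → Prop) : Prop :=
  ∃ W : Finset G, (∀ v u, Rel v u → ∃ g ∈ W, u.1 = g • v.1) ∧
    ∀ x, ∀ᶠ y in 𝓝 x, ∀ (g : G) i i', (Rel (y, i) (g • y, i') ↔ Rel (x, i) (g • x, i'))

theorem LocRel.comp {R1 R2 : X × I → X × I → Prop} (h1 : LocRel G R1) (h2 : LocRel G R2) :
    LocRel G fun v w => ∃ u, R1 v u ∧ R2 u w := by
  classical
  obtain ⟨W1, hW1, hl1⟩ := h1
  obtain ⟨W2, hW2, hl2⟩ := h2
  refine ⟨(W2 ×ˢ W1).image fun p => p.1 * p.2, ?_, fun x => ?_⟩
  · rintro v w ⟨u, hvu, huw⟩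
    obtain ⟨g1, hg1, e1⟩ := hW1 v u hvu
    obtain ⟨g2, hg2, e2⟩ := hW2 u w huw
    exact ⟨g2 * g1, Finset.mem_image.2 ⟨(g2, g1), Finset.mem_product.2 ⟨hg2, hg1⟩, rfl⟩, by
      rw [e2, e1, mul_smul]⟩
  · have h3 : ∀ᶠ y in 𝓝 x, ∀ w ∈ W1, ∀ (g : G) i i',
        (R2 (w • y, i) (g • w • y, i') ↔ R2 (w • x, i) (g • w • x, i')) := by
      rw [Filter.eventually_all_finset]
      exact fun w _ => (continuous_const_smul w).continuousAt.eventually (hl2 (w • x))
    filter_upwards [hl1 x, h3] with y hy1 hy2 g i i'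
    constructor
    · rintro ⟨u, hu1, hu2⟩
      obtain ⟨w, hw, e1⟩ := hW1 _ _ hu1
      obtain ⟨u1, u2⟩ := u
      simp only at e1
      subst e1
      refine ⟨(w • x, u2), (hy1 w i u2).1 hu1, ?_⟩
      have e2 : g • x = (g * w⁻¹) • w • x := by rw [mul_smul, inv_smul_smul]
      have e3 : g • y = (g * w⁻¹) • w • y := by rw [mul_smul, inv_smul_smul]
      rw [e2]
      rw [e3] at hu2
      exact (hy2 w hw (g * w⁻¹) u2 i').1 hu2
    · rintro ⟨u, hu1, hu2⟩
      obtain ⟨w, hw, e1⟩ := hW1 _ _ hu1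
      obtain ⟨u1, u2⟩ := u
      simp only at e1
      subst e1
      refine ⟨(w • y, u2), (hy1 w i u2).2 hu1, ?_⟩
      have e2 : g • x = (g * w⁻¹) • w • x := by rw [mul_smul, inv_smul_smul]
      have e3 : g • y = (g * w⁻¹) • w • y := by rw [mul_smul, inv_smul_smul]
      rw [e3]
      rw [e2] at hu2
      exact (hy2 w hw (g * w⁻¹) u2 i').2 hu2

section mis

variable [CompactSpace X] [T2Space X] [TotallyDisconnectedSpace X] [Finite I]

/-- Maximal separated sets. -/
theorem mis (hfree : ∀ (g : G) (x : X), g • x = x → g = 1) {T : X → Set I}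
    (hT : IsLocallyConstant T) {Rel : X × I → X × I → Prop} (hR : LocRel G Rel)
    (hsymm : ∀ v u, Rel v u → Rel u v) :
    ∃ M : X → Set I, IsLocallyConstant M ∧ (∀ x, M x ⊆ T x) ∧
      (∀ v u : X × I, v.2 ∈ M v.1 → u.2 ∈ M u.1 → Rel v u → v = u) ∧
      ∀ v : X × I, v.2 ∈ T v.1 → v.2 ∈ M v.1 ∨ ∃ u : X × I, u.2 ∈ M u.1 ∧ Rel v u := by
  classical
  have := Fintype.ofFinite I
  obtain ⟨W, hW, hl⟩ := hR
  obtain ⟨χ, hχl, hχ⟩ := lc_colour (G := G) (X := X) hfree (W.erase 1) (by simp)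
  have main : ∀ l : List (X × I), ∃ M : X → Set I, IsLocallyConstant M ∧ (∀ x, M x ⊆ T x) ∧
      (∀ v u : X × I, v.2 ∈ M v.1 → u.2 ∈ M u.1 → Rel v u → v = u) ∧
      ∀ c ∈ l, ∀ x, χ x = c.1 → c.2 ∈ T x →
        (c.2 ∈ M x ∨ ∃ u : X × I, u.2 ∈ M u.1 ∧ Rel (x, c.2) u) := by
    intro l
    induction l with
    | nil => exact ⟨fun _ => ∅, IsLocallyConstant.const _, fun _ => Set.empty_subset _,
        fun v u hv => hv.elim, fun c hc => by simp at hc⟩
    | cons c l ih =>
      obtain ⟨M, hMl, hMT, hMs, hMm⟩ := ih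
      set N : X → I → Prop := fun x i => ∃ u : X × I, u.2 ∈ M u.1 ∧ Rel (x, i) u with hN
      have hNl : ∀ x, ∀ᶠ y in 𝓝 x, ∀ i, (N y i ↔ N x i) := by
        intro x
        filter_upwards [hl x, ev_smul_finset hMl W x] with y hy1 hy2 i
        constructor
        · rintro ⟨u, hu1, hu2⟩
          obtain ⟨w, hw, e1⟩ := hW _ _ hu2
          obtain ⟨u1, u2⟩ := u
          simp only at e1 hu1
          subst e1
          exact ⟨(w • x, u2), by rw [← hy2 w hw]; exact hu1, (hy1 w i u2).1 hu2⟩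
        · rintro ⟨u, hu1, hu2⟩
          obtain ⟨w, hw, e1⟩ := hW _ _ hu2
          obtain ⟨u1, u2⟩ := u
          simp only at e1 hu1
          subst e1
          exact ⟨(w • y, u2), by
            change u2 ∈ M (w • y)
            rw [hy2 w hw]; exact hu1, (hy1 w i u2).2 hu2⟩
      refine ⟨fun x => {i | i ∈ M x ∨ (χ x = c.1 ∧ i = c.2 ∧ i ∈ T x ∧ ¬ N x i)},
        lc_of_ev fun x => ?_, ?_, ?_, ?_⟩
      · filter_upwards [lc_ev hMl x, lc_ev hχl x, lc_ev hT x, hNl x] with y h1 h2 h3 h4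
        ext i
        simp only [Set.mem_ofPred_eq, h1, h2, h3, h4 i]
      · rintro x i (hi | hi)
        · exact hMT x hi
        · exact hi.2.2.1
      · intro v u hv hu hvu
        rcases hv with hv | hv
        · rcases hu with hu | hu
          · exact hMs v u hv hu hvu
          · exact (hu.2.2.2 ⟨v, hv, hsymm _ _ hvu⟩).elim
        · rcases hu with hu | hu
          · exact (hv.2.2.2 ⟨u, hu, hvu⟩).elim
          · obtain ⟨g, hg, e1⟩ := hW _ _ hvu
            have hg1 : g = 1 := by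
              by_contra hne
              refine hχ g (Finset.mem_erase.2 ⟨hne, hg⟩) v.1 ?_
              rw [← e1, hu.1, hv.1]
            rw [hg1, one_smul] at e1
            exact Prod.ext e1.symm (hv.2.1.trans hu.2.1.symm)
      · intro c' hc' x hx hxT
        rcases List.mem_cons.1 hc' with rfl | hc''
        · by_cases hNx : N x c'.2
          · obtain ⟨u, hu1, hu2⟩ := hNx
            exact Or.inr ⟨u, Or.inl hu1, hu2⟩
          · exact Or.inl (Or.inr ⟨hx, rfl, hxT, hNx⟩)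
        · rcases hMm c' hc'' x hx hxT with h | ⟨u, hu1, hu2⟩
          · exact Or.inl (Or.inl h)
          · exact Or.inr ⟨u, Or.inl hu1, hu2⟩
  obtain ⟨M, h1, h2, h3, h4⟩ := main
    ((hχl.range_finite.toFinset ×ˢ (Finset.univ : Finset I)).toList)
  refine ⟨M, h1, h2, h3, fun v hv => h4 (χ v.1, v.2) ?_ v.1 rfl hv⟩
  rw [Finset.mem_toList, Finset.mem_product, Set.Finite.mem_toFinset]
  exact ⟨⟨v.1, rfl⟩, Finset.mem_univ _⟩

end mis

/-- Adjacency of claimants within `c`. -/
def Adj {K : Type} (e : X → I → K → G × J) (c : X → Set I) (v u : X × I) : Prop :=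
  v.2 ∈ c v.1 ∧ u.2 ∈ c u.1 ∧ ∃ k k', tgt e v.1 v.2 k = tgt e u.1 u.2 k'

/-- Reachability in `n` steps. -/
def Dn {K : Type} (e : X → I → K → G × J) (c : X → Set I) : ℕ → X × I → X × I → Prop
  | 0 => fun v u => v.2 ∈ c v.1 ∧ v = u
  | n + 1 => fun v w => ∃ u, Dn e c n v u ∧ Adj e c u w

section dn

variable {K : Type} {e : X → I → K → G × J} {c : X → Set I}

theorem Adj.symm {v u : X × I} (h : Adj e c v u) : Adj e c u v := by
  obtain ⟨h1, h2, k, k', h3⟩ := h
  exact ⟨h2, h1, k', k, h3.symm⟩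

theorem Adj.refl [Nonempty K] {v : X × I} (h : v.2 ∈ c v.1) : Adj e c v v :=
  ⟨h, h, Classical.arbitrary K, _, rfl⟩

theorem Dn.left {n : ℕ} {v u : X × I} (h : Dn e c n v u) : v.2 ∈ c v.1 := by
  induction n generalizing u with
  | zero => exact h.1
  | succ n ih => obtain ⟨w, hw, -⟩ := h; exact ih hw

theorem Dn.right {n : ℕ} {v u : X × I} (h : Dn e c n v u) : u.2 ∈ c u.1 := by
  cases n with
  | zero => obtain ⟨h1, rfl⟩ := h; exact h1
  | succ n => obtain ⟨w, -, hw⟩ := h; exact hw.2.1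

theorem Dn.mono_succ [Nonempty K] {n : ℕ} {v u : X × I} (h : Dn e c n v u) :
    Dn e c (n + 1) v u := ⟨u, h, Adj.refl h.right⟩

theorem Dn.mono [Nonempty K] {n m : ℕ} (hnm : n ≤ m) {v u : X × I} (h : Dn e c n v u) :
    Dn e c m v u := by
  induction m, hnm using Nat.le_induction with
  | base => exact h
  | succ m _ ih => exact ih.mono_succ

theorem Dn.add {n m : ℕ} {v u w : X × I} (h1 : Dn e c n v u) (h2 : Dn e c m u w) :
    Dn e c (n + m) v w := by
  induction m generalizing w with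
  | zero => obtain ⟨-, rfl⟩ := h2; exact h1
  | succ m ih => obtain ⟨z, hz, hzw⟩ := h2; exact ⟨z, ih hz, hzw⟩

theorem Dn.symm {n : ℕ} {v u : X × I} (h : Dn e c n v u) : Dn e c n u v := by
  induction n generalizing u with
  | zero => obtain ⟨h1, rfl⟩ := h; exact ⟨h1, rfl⟩
  | succ n ih =>
    obtain ⟨w, hw, hwu⟩ := h
    have h1 : Dn e c 1 u w := ⟨u, ⟨hwu.2.1, rfl⟩, hwu.symm⟩
    have h2 := Dn.add h1 (ih hw)
    rwa [Nat.add_comm] at h2

theorem LocRel.adj [CompactSpace X] [T2Space X] [TotallyDisconnectedSpace X] [Finite I] [Finite K]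
    (hfree : ∀ (g : G) (x : X), g • x = x → g = 1)
    (he : IsLocallyConstant e) (hc : IsLocallyConstant c) : LocRel G (Adj e c) := by
  classical
  obtain ⟨R, hR⟩ := finite_elts he
  have key : ∀ {x y : X} {g : G} {i i' : I}, e y = e x → e (g • y) = e (g • x) → c y = c x →
      c (g • y) = c (g • x) → Adj e c (y, i) (g • y, i') → Adj e c (x, i) (g • x, i') := by
    intro x y g i i' h1 h2 h3 h4 h
    obtain ⟨h5, h6, k, k', h7⟩ := h
    refine ⟨?_, ?_, k, k', ?_⟩
    · change i ∈ c x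
      rw [← h3]; exact h5
    · change i' ∈ c (g • x)
      rw [← h4]; exact h6
    · have h8 := tgt_transfer (w := 1) (w' := g) (x := x) (y := y) (i := i) (i' := i') (k := k)
        (k' := k') hfree (by rw [one_smul, one_smul, h1]) h2 (by rw [one_smul]; exact h7)
      rw [one_smul] at h8
      exact h8
  set W : Finset G := (R ×ˢ R).image fun p => p.1⁻¹ * p.2 with hW
  have hdis : ∀ v u, Adj e c v u → ∃ g ∈ W, u.1 = g • v.1 := by
    rintro v u ⟨-, -, k, k', h⟩
    refine ⟨(e u.1 u.2 k').1⁻¹ * (e v.1 v.2 k).1, Finset.mem_image.2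
      ⟨(_, _), Finset.mem_product.2 ⟨hR _ _ _, hR _ _ _⟩, rfl⟩, ?_⟩
    have e1 : (e v.1 v.2 k).1 • v.1 = (e u.1 u.2 k').1 • u.1 := congrArg Prod.fst h
    rw [mul_smul, e1, inv_smul_smul]
  refine ⟨W, hdis, fun x => ?_⟩
  filter_upwards [ev_smul_finset he W x, ev_smul_finset hc W x, lc_ev he x, lc_ev hc x]
    with y h1 h2 h3 h4 g i i'
  constructor
  · intro h
    obtain ⟨w, hw, e1⟩ := hdis _ _ h
    have e2 : g = w := smul_eq_of hfree e1
    subst e2
    exact key h3 (h1 g hw) h4 (h2 g hw) h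
  · intro h
    obtain ⟨w, hw, e1⟩ := hdis _ _ h
    have e2 : g = w := smul_eq_of hfree e1
    subst e2
    exact key h3.symm (h1 g hw).symm h4.symm (h2 g hw).symm h

theorem LocRel.dn [CompactSpace X] [T2Space X] [TotallyDisconnectedSpace X] [Finite I] [Finite K]
    (hfree : ∀ (g : G) (x : X), g • x = x → g = 1)
    (he : IsLocallyConstant e) (hc : IsLocallyConstant c) (n : ℕ) : LocRel G (Dn e c n) := by
  classical
  induction n with
  | zero =>
    refine ⟨{1}, ?_, fun x => ?_⟩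
    · rintro v u ⟨-, rfl⟩
      exact ⟨1, Finset.mem_singleton_self _, (one_smul G _).symm⟩
    · filter_upwards [lc_ev hc x] with y hy g i i'
      constructor
      · rintro ⟨h1, h2⟩
        simp only [Prod.mk.injEq] at h1 h2
        have : g = 1 := hfree g y h2.1.symm
        subst this
        refine ⟨?_, by rw [one_smul, h2.2]⟩
        change i ∈ c x
        rw [← hy]; exact h1
      · rintro ⟨h1, h2⟩
        simp only [Prod.mk.injEq] at h1 h2
        have : g = 1 := hfree g x h2.1.symm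
        subst this
        refine ⟨?_, by rw [one_smul, h2.2]⟩
        change i ∈ c y
        rw [hy]; exact h1
  | succ n ih => exact ih.comp (LocRel.adj hfree he hc)

end dn

end Pool.Agent.Helper277_ZD
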