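import Mathlib

set_option autoImplicit false
set_option linter.unusedSectionVars false

/-!
# The finite dichotomy: two exclusive targets for everybody, or a self-sufficient set
-/

namespace Pool.Agent.Helper277_ZD

open Finset

theorem window {A Y : Type} (V : Finset A) (c : A → Fin 3 → Y) (s : A → Fin 3 → Fin 2)
    (hinj : ∀ v ∈ V, ∀ v' ∈ V, ∀ k k', c v k = c v' k' → s v k = s v' k' → v = v' ∧ k = k') :
    (∃ α : A → Finset (Fin 3), (∀ v ∈ V, 2 ≤ (α v).card) ∧
      ∀ v ∈ V, ∀ v' ∈ V, ∀ k ∈ α v, ∀ k' ∈ α v', c v k = c v' k' → v = v') ∨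
    (∃ P ⊆ V, P.Nonempty ∧ ∃ β : A → Fin 3,
      (∀ v ∈ P, ∀ v' ∈ P, c v (β v) = c v' (β v') → v = v') ∧
      ∀ v ∈ P, ∃ v1 ∈ P, ∃ k1, ∃ v2 ∈ P, ∃ k2, (v1, k1) ≠ (v2, k2) ∧ c v1 k1 = c v (β v) ∧
        c v2 k2 = c v (β v)) := by
  classical
  set cl : Finset A → Finset (A × Fin 3) := fun P => P ×ˢ Finset.univ with hcl
  set Nb : Finset A → Finset Y := fun P => (cl P).image fun q => c q.1 q.2 with hNb
  set In : Finset A → Finset Y := fun P => (Nb P).filter fun y =>
    ∃ q ∈ cl P, ∃ q' ∈ cl P, q ≠ q' ∧ c q.1 q.2 = y ∧ c q'.1 q'.2 = y with hIn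
  have hcount : ∀ P ⊆ V, 3 * P.card ≤ (Nb P).card + (In P).card := by
    intro P hP
    have h1 : (cl P).card = 3 * P.card := by
      rw [hcl]; simp [Finset.card_product, mul_comm]
    rw [← h1, Finset.card_eq_sum_card_image (fun q : A × Fin 3 => c q.1 q.2) (cl P)]
    have h2 : (Nb P).card + (In P).card = ∑ y ∈ Nb P, (1 + if y ∈ In P then 1 else 0) := by
      rw [Finset.sum_add_distrib, Finset.sum_const, smul_eq_mul, mul_one]
      congr 1
      rw [Finset.sum_boole]
      simp only [Nat.cast_id]
      congr 1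
      ext y
      simp only [hIn, Finset.mem_filter]
      exact ⟨fun h => ⟨h.1, h⟩, fun h => h.2⟩
    rw [h2]
    refine Finset.sum_le_sum fun y hy => ?_
    by_cases hyI : y ∈ In P
    · rw [if_pos hyI]
      have h3 : (((cl P).filter fun q => c q.1 q.2 = y).image fun q => s q.1 q.2).card ≤ 2 := by
        refine (Finset.card_le_univ _).trans (by simp)
      rwa [Finset.card_image_of_injOn] at h3
      intro q hq q' hq' heq
      have hq1 := Finset.mem_filter.1 (Finset.mem_coe.1 hq)
      have hq2 := Finset.mem_filter.1 (Finset.mem_coe.1 hq')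
      have hq3 := hP (Finset.mem_product.1 hq1.1).1
      have hq4 := hP (Finset.mem_product.1 hq2.1).1
      obtain ⟨h4, h5⟩ := hinj _ hq3 _ hq4 q.2 q'.2 (hq1.2.trans hq2.2.symm) heq
      exact Prod.ext h4 h5
    · rw [if_neg hyI]
      simp only [Nat.add_zero]
      rw [Finset.card_le_one]
      intro q hq q' hq'
      by_contra hne
      refine hyI (Finset.mem_filter.2 ⟨hy, q, (Finset.mem_filter.1 hq).1, q',
        (Finset.mem_filter.1 hq').1, hne, (Finset.mem_filter.1 hq).2, (Finset.mem_filter.1 hq').2⟩)
  by_cases hdense : ∀ P ⊆ V, P.Nonempty → (In P).card < P.card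
  · left
    have hall : ∀ s : Finset (V × Fin 2), s.card ≤ (s.biUnion fun q => Nb {q.1.1}).card := by
      intro t
      rcases t.eq_empty_or_nonempty with rfl | htne
      · simp
      set P : Finset A := t.image fun q => q.1.1 with hP
      have hPV : P ⊆ V := by
        intro v hv
        obtain ⟨q, -, rfl⟩ := Finset.mem_image.1 hv
        exact q.1.2
      have hPne : P.Nonempty := htne.image _
      have h1 : t.card ≤ 2 * P.card := by
        have : t.card ≤ (P ×ˢ (Finset.univ : Finset (Fin 2))).card := by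
          refine Finset.card_le_card_of_injOn (fun q => (q.1.1, q.2)) ?_ ?_
          · intro q hq
            simp only [Finset.coe_product, Set.mem_prod, Finset.mem_coe, Finset.mem_univ, and_true]
            exact Finset.mem_image.2 ⟨q, hq, rfl⟩
          · intro q _ q' _ heq
            simp only [Prod.mk.injEq] at heq
            exact Prod.ext (Subtype.ext heq.1) heq.2
        rw [Finset.card_product] at this
        simpa [mul_comm] using this
      have h2 : Nb P ⊆ t.biUnion fun q => Nb {q.1.1} := by
        intro y hy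
        obtain ⟨q, hq, rfl⟩ := Finset.mem_image.1 hy
        obtain ⟨r, hr, hrq⟩ := Finset.mem_image.1 (Finset.mem_product.1 hq).1
        refine Finset.mem_biUnion.2 ⟨r, hr, Finset.mem_image.2 ⟨q, ?_, rfl⟩⟩
        simp only [hcl, Finset.mem_product, Finset.mem_singleton, Finset.mem_univ, and_true]
        exact hrq.symm
      have h3 := hcount P hPV
      have h4 := hdense P hPV hPne
      have h5 := Finset.card_le_card h2
      omega
    obtain ⟨f, hf, hfm⟩ := (Finset.all_card_le_biUnion_card_iff_exists_injective _).1 hall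
    refine ⟨fun v => if h : v ∈ V then Finset.univ.filter fun k =>
      c v k = f (⟨v, h⟩, 0) ∨ c v k = f (⟨v, h⟩, 1) else ∅, fun v hv => ?_, ?_⟩
    · beta_reduce
      rw [dif_pos hv]
      have h0 := hfm (⟨v, hv⟩, 0)
      have h1 := hfm (⟨v, hv⟩, 1)
      obtain ⟨q0, hq0, e0⟩ := Finset.mem_image.1 h0
      obtain ⟨q1, hq1, e1⟩ := Finset.mem_image.1 h1
      have hq0' : q0.1 = v := Finset.mem_singleton.1 (Finset.mem_product.1 hq0).1
      have hq1' : q1.1 = v := Finset.mem_singleton.1 (Finset.mem_product.1 hq1).1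
      rw [hq0'] at e0
      rw [hq1'] at e1
      have hne : q0.2 ≠ q1.2 := by
        intro h
        rw [h, e1] at e0
        have := hf e0
        simp at this
      refine le_trans (Finset.card_pair hne).ge (Finset.card_le_card ?_)
      intro k hk
      rw [Finset.mem_insert, Finset.mem_singleton] at hk
      rw [Finset.mem_filter]
      rcases hk with rfl | rfl
      · exact ⟨Finset.mem_univ _, Or.inl e0⟩
      · exact ⟨Finset.mem_univ _, Or.inr e1⟩
    · intro v hv v' hv' k hk k' hk' heq
      beta_reduce at hk hk'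
      rw [dif_pos hv, Finset.mem_filter] at hk
      rw [dif_pos hv', Finset.mem_filter] at hk'
      rcases hk.2 with h1 | h1 <;> rcases hk'.2 with h2 | h2 <;>
      · rw [h1, h2] at heq
        have := hf heq
        simp only [Prod.mk.injEq, Subtype.mk.injEq] at this
        exact this.1
  · right
    push Not at hdense
    have hex : ∃ n, ∃ P ⊆ V, P.Nonempty ∧ P.card ≤ (In P).card ∧ P.card = n := by
      obtain ⟨P, h1, h2, h3⟩ := hdense
      exact ⟨P.card, P, h1, h2, h3, rfl⟩
    obtain ⟨P, hPV, hPne, hPI, hPn⟩ := Nat.find_spec hex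
    have hmin : ∀ P' ⊆ P, P'.card < P.card → (In P').card ≤ P'.card := by
      intro P' hP' hlt
      rcases P'.eq_empty_or_nonempty with rfl | hne
      · simp [hIn, hNb, hcl]
      by_contra hcon
      refine Nat.find_min hex (m := P'.card) (by rw [← hPn]; exact hlt)
        ⟨P', hP'.trans hPV, hne, by omega, rfl⟩
    have hall : ∀ t : Finset P, t.card ≤ (t.biUnion fun v => (In P).filter
        fun y => ∃ k, c v.1 k = y).card := by
      intro t
      rcases t.eq_empty_or_nonempty with rfl | htne
      · simp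
      set P1 : Finset A := t.image fun v => v.1 with hP1
      have hP1P : P1 ⊆ P := by
        intro v hv
        obtain ⟨q, -, rfl⟩ := Finset.mem_image.1 hv
        exact q.2
      have h1 : t.card = P1.card := (Finset.card_image_of_injective _ Subtype.val_injective).symm
      have h2 : In P \ (t.biUnion fun v => (In P).filter fun y => ∃ k, c v.1 k = y) ⊆
          In (P \ P1) := by
        intro y hy
        rw [Finset.mem_sdiff] at hy
        obtain ⟨hyI, hyn⟩ := hy
        obtain ⟨-, q, hq, q', hq', hne, e1, e2⟩ := Finset.mem_filter.1 hyI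
        have hnot : ∀ q ∈ cl P, c q.1 q.2 = y → q ∈ cl (P \ P1) := by
          intro q hq e
          simp only [hcl, Finset.mem_product, Finset.mem_univ, and_true, Finset.mem_sdiff] at hq ⊢
          refine ⟨hq, fun hq1 => hyn ?_⟩
          obtain ⟨r, hr, hrq⟩ := Finset.mem_image.1 hq1
          refine Finset.mem_biUnion.2 ⟨r, hr, Finset.mem_filter.2 ⟨hyI, q.2, ?_⟩⟩
          rw [hrq]; exact e
        refine Finset.mem_filter.2 ⟨Finset.mem_image.2 ⟨q, hnot q hq e1, e1⟩, q, hnot q hq e1, q',
          hnot q' hq' e2, hne, e1, e2⟩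
      have h3 := hmin (P \ P1) Finset.sdiff_subset (by
        refine Finset.card_lt_card ?_
        rw [Finset.ssubset_iff_subset_ne]
        refine ⟨Finset.sdiff_subset, fun h => ?_⟩
        obtain ⟨v, hv⟩ : P1.Nonempty := htne.image _
        have := h ▸ hP1P hv
        exact (Finset.mem_sdiff.1 this).2 hv)
      have h4 := Finset.card_le_card h2
      have h5 : (In P).card ≤ (In P \ (t.biUnion fun v => (In P).filter
          fun y => ∃ k, c v.1 k = y)).card + (t.biUnion fun v => (In P).filter
          fun y => ∃ k, c v.1 k = y).card := by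
        have := Finset.card_le_card_sdiff_add_card (s := (In P)) (t := (t.biUnion fun v =>
          (In P).filter fun y => ∃ k, c v.1 k = y))
        omega
      have h6 := Finset.card_sdiff_add_card_eq_card hP1P
      omega
    obtain ⟨f, hf, hfm⟩ := (Finset.all_card_le_biUnion_card_iff_exists_injective _).1 hall
    have hfk : ∀ v : P, ∃ k, c v.1 k = f v := fun v => (Finset.mem_filter.1 (hfm v)).2
    choose k hk using hfk
    replace hk : ∀ (v : A) (hv : v ∈ P), c v (k ⟨v, hv⟩) = f ⟨v, hv⟩ := fun v hv => hk ⟨v, hv⟩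
    refine ⟨P, hPV, hPne, fun v => if h : v ∈ P then k ⟨v, h⟩ else 0, ?_, ?_⟩
    · intro v hv v' hv' heq
      beta_reduce at heq
      rw [dif_pos hv, dif_pos hv', hk, hk] at heq
      have := hf heq
      simpa using this
    · intro v hv
      beta_reduce
      rw [dif_pos hv, hk]
      obtain ⟨-, q, hq, q', hq', hne, e1, e2⟩ :=
        Finset.mem_filter.1 (Finset.mem_filter.1 (hfm ⟨v, hv⟩)).1
      exact ⟨q.1, (Finset.mem_product.1 hq).1, q.2, q'.1, (Finset.mem_product.1 hq').1, q'.2,
        hne, e1, e2⟩

end Pool.Agent.Helper277_ZD
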