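import Pool.Agent.Helper277_ZD.OL
import Pool.Agent.Helper277_ZD.Window

set_option autoImplicit false
set_option linter.unusedSectionVars false

/-!
# `3 a ≤ 2 b` implies `a ≤ b`
-/

namespace Pool.Agent.Helper277_ZD

open Filter Topology

section defs

variable (G : Type) {X : Type} [Group G] [TopologicalSpace X] [MulAction G X] {I J : Type}

/-- Subequivalence of clopen multisets. -/
def Le (a : X → Set I) (b : X → Set J) : Prop :=
  ∃ φ : X → I → G × J, IsLocallyConstant φ ∧
    (∀ x, ∀ i ∈ a x, (φ x i).2 ∈ b ((φ x i).1 • x)) ∧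
    (∀ x, ∀ i ∈ a x, ∀ x', ∀ i' ∈ a x', (φ x i).1 • x = (φ x' i').1 • x' →
      (φ x i).2 = (φ x' i').2 → x = x' ∧ i = i')

/-- Multiples of a multiset. -/
def mul (K : Type) (a : X → Set I) : X → Set (I × K) := fun x => {p | p.1 ∈ a x}

end defs

variable {G X : Type} [Group G] [TopologicalSpace X] [MulAction G X] [ContinuousConstSMul G X]
  {I J : Type} [CompactSpace X] [T2Space X] [TotallyDisconnectedSpace X] [Finite I]

theorem tgt_transfer (hfree : ∀ (g : G) (x : X), g • x = x → g = 1) {K : Type}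
    {e : X → I → K → G × J} {x y : X} {w w' : G} (h : e (w • y) = e (w • x))
    (h' : e (w' • y) = e (w' • x)) {i i' : I} {k k' : K}
    (heq : tgt e (w • y) i k = tgt e (w' • y) i' k') :
    tgt e (w • x) i k = tgt e (w' • x) i' k' := by
  simp only [tgt, Prod.mk.injEq] at heq ⊢
  rw [h, h'] at heq
  obtain ⟨e1, e2⟩ := heq
  rw [smul_smul, smul_smul] at e1
  have := smul_eq_of hfree e1
  rw [smul_smul, smul_smul, this]
  exact ⟨rfl, e2⟩

theorem three_two (hfree : ∀ (g : G) (x : X), g • x = x → g = 1) (hN : LCField G X)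
    {a : X → Set I} {b : X → Set J} (ha : IsLocallyConstant a)
    (h : Le G (mul (Fin 3) a) (mul (Fin 2) b)) : Le G a b := by
  classical
  have := Fintype.ofFinite I
  obtain ⟨φ, hφl, hφb, hφi⟩ := h
  set e : X → I → Fin 3 → G × J := fun x i k => ((φ x (i, k)).1, (φ x (i, k)).2.1) with he
  set s : X → I → Fin 3 → Fin 2 := fun x i k => (φ x (i, k)).2.2 with hs
  have hel : IsLocallyConstant e := hφl.comp fun f i k => ((f (i, k)).1, (f (i, k)).2.1)
  have hsl : IsLocallyConstant s := hφl.comp fun f i k => (f (i, k)).2.2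
  have heb : ∀ x, ∀ i ∈ a x, ∀ k, (e x i k).2 ∈ b ((e x i k).1 • x) := fun x i hi k =>
    hφb x (i, k) hi
  have hes : ∀ x, ∀ i ∈ a x, ∀ k x', ∀ i' ∈ a x', ∀ k', tgt e x i k = tgt e x' i' k' →
      s x i k = s x' i' k' → x = x' ∧ i = i' ∧ k = k' := by
    intro x i hi k x' i' hi' k' h1 h2
    simp only [tgt, Prod.mk.injEq] at h1
    obtain ⟨h3, h4⟩ := hφi x (i, k) hi x' (i', k') hi' h1.1 (Prod.ext h1.2 h2)
    simp only [Prod.mk.injEq] at h4
    exact ⟨h3, h4.1, h4.2⟩
  clear_value e s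
  obtain ⟨R, hR⟩ := finite_elts hel
  obtain ⟨F, N, hNl, hN0, hNF, hN1, hNi⟩ := hN ((R ×ˢ R).image fun p => p.2⁻¹ * p.1) (1 / 10)
    (by norm_num)
  obtain ⟨S, κ, ⟨hSl, hκl, hSa, hi1, hi2⟩, hfull⟩ := ol hfree hel ha F
  set T : X → Set I := fun x => a x \ S x with hT
  have hTl : IsLocallyConstant T := (ha.prodMk hSl).comp fun p => p.1 \ p.2
  -- the local assignment
  set V : X → Finset (G × I) := fun z =>
    (F ×ˢ (Finset.univ : Finset I)).filter fun p => p.2 ∈ T (p.1 • z) with hV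
  have hVmem : ∀ z p, p ∈ V z ↔ p.1 ∈ F ∧ p.2 ∈ T (p.1 • z) := by
    intro z p
    simp only [hV, Finset.mem_filter, Finset.mem_product, Finset.mem_univ, and_true]
  have hwin : ∀ z, ∃ α : G × I → Finset (Fin 3), (∀ v ∈ V z, 2 ≤ (α v).card) ∧
      ∀ v ∈ V z, ∀ v' ∈ V z, ∀ k ∈ α v, ∀ k' ∈ α v',
        tgt e (v.1 • z) v.2 k = tgt e (v'.1 • z) v'.2 k' → v = v' := by
    intro z
    rcases window (V z) (fun v k => tgt e (v.1 • z) v.2 k) (fun v k => s (v.1 • z) v.2 k) (by
      intro v hv v' hv' k k' h1 h2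
      obtain ⟨h3, h4, h5⟩ := hes _ _ ((hVmem z v).1 hv).2.1 k _ _ ((hVmem z v').1 hv').2.1 k' h1 h2
      exact ⟨Prod.ext (smul_eq_of hfree h3) h4, h5⟩) with hα | ⟨P, hPV, ⟨p₀, hp₀⟩, β, hβ1, hβ2⟩
    · exact hα
    · exfalso
      have hPa : ∀ p ∈ P, p.2 ∈ a (p.1 • z) := fun p hp => ((hVmem z p).1 (hPV hp)).2.1
      refine ((hVmem z p₀).1 (hPV hp₀)).2.2 (hfull z P β
        (fun p hp => ((hVmem z p).1 (hPV hp)).1) ⟨hPa, hβ1, ?_⟩ p₀ hp₀)
      intro p hp x' i' k' hi' heq
      obtain ⟨v1, hv1, k1, v2, hv2, k2, hne, h1, h2⟩ := hβ2 p hp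
      have e12 : s (v1.1 • z) v1.2 k1 ≠ s (v2.1 • z) v2.2 k2 := by
        intro h3
        obtain ⟨h4, h5, h6⟩ := hes _ _ (hPa v1 hv1) k1 _ _ (hPa v2 hv2) k2 (h1.trans h2.symm) h3
        exact hne (Prod.ext (Prod.ext (smul_eq_of hfree h4) h5) h6)
      have e3 : s x' i' k' = s (v1.1 • z) v1.2 k1 ∨ s x' i' k' = s (v2.1 • z) v2.2 k2 := by
        omega
      rcases e3 with e3 | e3
      · obtain ⟨h4, h5, -⟩ := hes _ _ hi' k' _ _ (hPa v1 hv1) k1 (heq.trans h1.symm) e3
        exact ⟨v1, hv1, h4.symm, h5.symm⟩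
      · obtain ⟨h4, h5, -⟩ := hes _ _ hi' k' _ _ (hPa v2 hv2) k2 (heq.trans h2.symm) e3
        exact ⟨v2, hv2, h4.symm, h5.symm⟩
  obtain ⟨α, hαl, hα⟩ := lc_select _ hwin (fun α => isOpen_of_ev fun z hz => by
    filter_upwards [ev_smul_finset hTl F z, ev_smul_finset hel F z] with y hy1 hy2
    have hVy : V y = V z := by
      ext p
      rw [hVmem, hVmem]
      exact and_congr_right fun hp => by rw [hy1 _ hp]
    simp only [Set.mem_ofPred_eq, hVy] at hz ⊢
    refine ⟨hz.1, fun v hv v' hv' k hk k' hk' heq => hz.2 v hv v' hv' k hk k' hk' ?_⟩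
    exact tgt_transfer hfree (hy2 _ ((hVmem z v).1 hv).1) (hy2 _ ((hVmem z v').1 hv').1) heq)
  -- the vote
  set w : X → I → Fin 3 → ℝ := fun x i k =>
    ∑ h ∈ F, N x h * (if k ∈ α (h⁻¹ • x) (h, i) then 1 else 0) with hw
  have hwsum : ∀ x, ∀ i ∈ T x, (2:ℝ) ≤ ∑ k, w x i k := by
    intro x i hi
    simp only [hw]
    rw [Finset.sum_comm]
    calc (2:ℝ) = ∑ h ∈ F, N x h * 2 := by rw [← Finset.sum_mul, hN1]; norm_num
      _ ≤ _ := Finset.sum_le_sum fun h hh => by
        rw [← Finset.mul_sum]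
        refine mul_le_mul_of_nonneg_left ?_ (hN0 x h)
        rw [Finset.sum_boole]
        have h1 : (h, i) ∈ V (h⁻¹ • x) := by
          rw [hVmem]; exact ⟨hh, by rw [smul_inv_smul]; exact hi⟩
        have h2 := (hα (h⁻¹ • x)).1 _ h1
        have h3 : (Finset.univ.filter fun k => k ∈ α (h⁻¹ • x) (h, i)) = α (h⁻¹ • x) (h, i) := by
          ext k; simp
        rw [h3]
        exact_mod_cast h2
  have hwpick : ∀ x, ∀ i ∈ T x, ∃ k, 3 / 5 < w x i k := by
    intro x i hi
    by_contra hcon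
    push Not at hcon
    have h1 := hwsum x i hi
    have h2 := Finset.sum_le_sum fun k (_ : k ∈ (Finset.univ : Finset (Fin 3))) => hcon k
    simp only [Finset.sum_const, Finset.card_univ, Fintype.card_fin, nsmul_eq_mul] at h2
    norm_num at h2
    linarith
  have hwA : ∀ x i k, ∀ A : Finset G, F ⊆ A →
      w x i k = ∑ h ∈ A, N x h * (if k ∈ α (h⁻¹ • x) (h, i) then 1 else 0) := by
    intro x i k A hA
    refine Finset.sum_subset hA fun h _ hh => ?_
    rw [hNF x h hh, zero_mul]
  have hconf : ∀ x, ∀ i ∈ T x, ∀ k x', ∀ i' ∈ T x', ∀ k', 3 / 5 < w x i k → 3 / 5 < w x' i' k' →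
      tgt e x i k = tgt e x' i' k' → x = x' ∧ i = i' := by
    intro x i hi k x' i' hi' k' hw1 hw2 heq
    by_contra hne
    set q : G := (e x' i' k').1⁻¹ * (e x i k).1 with hq
    have hx' : x' = q • x := by
      have e1 : (e x i k).1 • x = (e x' i' k').1 • x' := congrArg Prod.fst heq
      rw [hq, mul_smul, e1, inv_smul_smul]
    have hqQ : q ∈ (R ×ˢ R).image fun p => p.2⁻¹ * p.1 :=
      Finset.mem_image.2 ⟨((e x i k).1, (e x' i' k').1), by simp [hR], rfl⟩
    clear_value q
    subst hx'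
    set A : Finset G := F ∪ F.image fun h => q⁻¹ * h with hA
    have h1 := hwA x i k A Finset.subset_union_left
    have h2 := hwA (q • x) i' k' (A.image fun h => q * h) (by
      intro h hh
      refine Finset.mem_image.2 ⟨q⁻¹ * h, Finset.mem_union_right _
        (Finset.mem_image.2 ⟨h, hh, rfl⟩), by simp⟩)
    rw [Finset.sum_image (fun a _ b _ hab => mul_left_cancel hab)] at h2
    have h3 := hNi q hqQ x A
    have h4 : ∑ h ∈ A, N x h = 1 := by
      rw [← hN1 x]
      exact (Finset.sum_subset Finset.subset_union_left fun h _ hh => hNF x h hh).symm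
    have h5 : w x i k + w (q • x) i' k' ≤ ∑ h ∈ A, (N x h + |N (q • x) (q * h) - N x h|) := by
      rw [h1, h2, ← Finset.sum_add_distrib]
      refine Finset.sum_le_sum fun h _ => ?_
      have e1 : (q * h)⁻¹ • q • x = h⁻¹ • x := by
        rw [mul_inv_rev, mul_smul, inv_smul_smul]
      rw [e1]
      have hu := hN0 x h
      have hv := hN0 (q • x) (q * h)
      have habs := le_abs_self (N (q • x) (q * h) - N x h)
      have habs0 := abs_nonneg (N (q • x) (q * h) - N x h)
      by_cases hF1 : h ∈ F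
      · by_cases hF2 : q * h ∈ F
        · by_cases hk : k ∈ α (h⁻¹ • x) (h, i)
          · by_cases hk' : k' ∈ α (h⁻¹ • x) (q * h, i')
            · exfalso
              have := (hα (h⁻¹ • x)).2 (h, i)
                ((hVmem _ _).2 ⟨hF1, by rw [smul_inv_smul]; exact hi⟩) (q * h, i')
                ((hVmem _ _).2 ⟨hF2, by
                  change i' ∈ T ((q * h) • h⁻¹ • x)
                  rw [mul_smul, smul_inv_smul]; exact hi'⟩) k hk k' hk' (by
                  change tgt e (h • h⁻¹ • x) i k = tgt e ((q * h) • h⁻¹ • x) i' k'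
                  rw [mul_smul, smul_inv_smul]; exact heq)
              simp only [Prod.mk.injEq] at this
              refine hne ⟨?_, this.2⟩
              have h6 : q = 1 := by simpa using this.1
              rw [h6, one_smul]
            · simp only [hk, hk', if_true, if_false]
              linarith
          · simp only [hk, if_false]
            split_ifs <;> linarith
        · have := hNF (q • x) (q * h) hF2
          rw [this] at habs0 ⊢
          split_ifs <;> linarith
      · have := hNF x h hF1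
        rw [this] at habs habs0 ⊢
        split_ifs <;> linarith
    rw [Finset.sum_add_distrib, h4] at h5
    linarith
  obtain ⟨κ', hκ'l, hκ'⟩ := lc_select (X := X) (ι := I → Fin 3)
    (fun x k' => ∀ i ∈ T x, 3 / 5 < w x i (k' i))
    (fun x => by
      refine ⟨fun i => if h : i ∈ T x then (hwpick x i h).choose else 0, fun i hi => ?_⟩
      beta_reduce
      rw [dif_pos hi]
      exact (hwpick x i hi).choose_spec)
    (fun k' => isOpen_of_ev fun x hx => by
      filter_upwards [lc_ev hTl x, lc_ev hNl x,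
        (Filter.eventually_all_finset F).2 fun h _ => ev_smul hαl h⁻¹ x] with y hy1 hy2 hy3
      simp only [Set.mem_ofPred_eq] at hx ⊢
      intro i hi
      rw [hy1] at hi
      refine lt_of_lt_of_eq (hx i hi) ?_
      simp only [hw]
      refine Finset.sum_congr rfl fun h hh => ?_
      rw [hy2, hy3 h hh])
  refine ⟨fun x i => if i ∈ S x then e x i (κ x i) else e x i (κ' x i), ?_, ?_, ?_⟩
  · exact (((hSl.prodMk hκl).prodMk (hκ'l.prodMk hel)).comp fun p =>
      fun i => if i ∈ p.1.1 then p.2.2 i (p.1.2 i) else p.2.2 i (p.2.1 i))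
  · intro x i hi
    beta_reduce
    split_ifs
    · exact heb x i hi _
    · exact heb x i hi _
  · intro x i hi x' i' hi' h1 h2
    beta_reduce at h1 h2
    by_cases his : i ∈ S x
    · by_cases his' : i' ∈ S x'
      · rw [if_pos his, if_pos his'] at h1 h2
        exact hi2 x i x' i' his his' (Prod.ext h1 h2)
      · rw [if_pos his, if_neg his'] at h1 h2
        have h3 : tgt e x i (κ x i) = tgt e x' i' (κ' x' i') := Prod.ext h1 h2
        exact (his' (hi1 x i his x' i' _ hi' h3.symm)).elim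
    · by_cases his' : i' ∈ S x'
      · rw [if_neg his, if_pos his'] at h1 h2
        exact (his (hi1 x' i' his' x i _ hi (Prod.ext h1 h2))).elim
      · rw [if_neg his, if_neg his'] at h1 h2
        exact hconf x i ⟨hi, his⟩ _ x' i' ⟨hi', his'⟩ _ (hκ' x i ⟨hi, his⟩)
          (hκ' x' i' ⟨hi', his'⟩) (Prod.ext h1 h2)

end Pool.Agent.Helper277_ZD
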